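import Mathlib

/-!
Derivative chains on a closed interval and counting of alternations by the mean value theorem.
-/

open Set

namespace Run7.h734

set_option linter.unusedSimpArgs false

/-- `F 0, F 1, ..., F m` are successive derivatives on the closed interval `[a,b]`. -/
def Chain (m : ℕ) (a b : ℝ) (F : ℕ → ℝ → ℝ) : Prop :=
  ∀ i < m, ∀ x ∈ Icc a b, HasDerivWithinAt (F i) (F (i + 1) x) (Icc a b) x

/-- strict alternation of `g` at `N + 1` points `p 0 < ... < p N` of `[a,b]`, first sign `s` -/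
structure AltS (N : ℕ) (s : ℝ) (a b : ℝ) (g : ℝ → ℝ) (p : ℕ → ℝ) : Prop where
  mem : ∀ i ≤ N, p i ∈ Icc a b
  lt : ∀ i < N, p i < p (i + 1)
  sgn : ∀ i ≤ N, 0 < s * (-1) ^ i * g (p i)

/-- weak alternation of `g` at `N + 1` points `p 0 < ... < p N` of `[a,b]`, first sign `s` -/
structure AltW (N : ℕ) (s : ℝ) (a b : ℝ) (g : ℝ → ℝ) (p : ℕ → ℝ) : Prop where
  mem : ∀ i ≤ N, p i ∈ Icc a b
  lt : ∀ i < N, p i < p (i + 1)
  sgn : ∀ i ≤ N, 0 ≤ s * (-1) ^ i * g (p i)

theorem AltS.weak {N : ℕ} {s a b : ℝ} {g : ℝ → ℝ} {p : ℕ → ℝ} (h : AltS N s a b g p) :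
    AltW N s a b g p := ⟨h.mem, h.lt, fun i hi => (h.sgn i hi).le⟩

theorem pos_fac {x y : ℝ} (h : 0 < x * y) (hy : 0 ≤ y) : 0 < x := by
  by_contra hx
  push Not at hx
  exact absurd h (not_lt.2 (mul_nonpos_of_nonpos_of_nonneg hx hy))

/-- mean value theorem on a subinterval -/
theorem mvt {a b : ℝ} {g g' : ℝ → ℝ}
    (hg : ∀ x ∈ Icc a b, HasDerivWithinAt g (g' x) (Icc a b) x)
    {u v : ℝ} (hu : u ∈ Icc a b) (hv : v ∈ Icc a b) (huv : u < v) :
    ∃ q, u < q ∧ q < v ∧ g v - g u = g' q * (v - u) := by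
  obtain ⟨q, hq, h⟩ := exists_hasDerivAt_eq_slope g g' huv
    (fun x hx => ((hg x ⟨hu.1.trans hx.1, hx.2.trans hv.2⟩).continuousWithinAt).mono
      (Icc_subset_Icc hu.1 hv.2))
    (fun x hx => (hg x ⟨hu.1.trans hx.1.le, hx.2.le.trans hv.2⟩).hasDerivAt
      (Icc_mem_nhds (hu.1.trans_lt hx.1) (hx.2.trans_le hv.2)))
  refine ⟨q, hq.1, hq.2, ?_⟩
  rw [h, div_mul_cancel₀]
  exact (sub_pos.2 huv).ne'

theorem AltS.step {N : ℕ} {s a b : ℝ} {g g' : ℝ → ℝ} {p : ℕ → ℝ}
    (hg : ∀ x ∈ Icc a b, HasDerivWithinAt g (g' x) (Icc a b) x)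
    (h : AltS (N + 1) s a b g p) :
    ∃ q, AltS N (-s) a b g' q ∧ ∀ i ≤ N, p i < q i ∧ q i < p (i + 1) := by
  have key : ∀ i, ∃ q, i ≤ N → (p i < q ∧ q < p (i + 1) ∧
      g (p (i + 1)) - g (p i) = g' q * (p (i + 1) - p i)) := by
    intro i
    by_cases hi : i ≤ N
    · obtain ⟨q, h1, h2, h3⟩ := mvt hg (h.mem i (by omega)) (h.mem (i + 1) (by omega))
        (h.lt i (by omega))
      exact ⟨q, fun _ => ⟨h1, h2, h3⟩⟩
    · exact ⟨0, fun h' => absurd h' hi⟩
  choose q hq using key
  refine ⟨q, ⟨?_, ?_, ?_⟩, fun i hi => ⟨(hq i hi).1, (hq i hi).2.1⟩⟩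
  · intro i hi
    exact ⟨(h.mem i (by omega)).1.trans (hq i hi).1.le,
      (hq i hi).2.1.le.trans (h.mem (i + 1) (by omega)).2⟩
  · intro i hi
    exact (hq i (by omega)).2.1.trans (hq (i + 1) (by omega)).1
  · intro i hi
    obtain ⟨h1, h2, h3⟩ := hq i hi
    have s1 := h.sgn i (by omega)
    have s2 := h.sgn (i + 1) (by omega)
    have hd : 0 < p (i + 1) - p i := by linarith
    have e : (-s * (-1) ^ i * g' (q i)) * (p (i + 1) - p i)
        = s * (-1) ^ (i + 1) * g (p (i + 1)) + s * (-1) ^ i * g (p i) := by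
      rw [mul_assoc, ← h3]; ring
    exact pos_fac (by rw [e]; positivity) hd.le

theorem AltW.step {N : ℕ} {s a b : ℝ} {g g' : ℝ → ℝ} {p : ℕ → ℝ}
    (hg : ∀ x ∈ Icc a b, HasDerivWithinAt g (g' x) (Icc a b) x)
    (h : AltW (N + 1) s a b g p) :
    ∃ q, AltW N (-s) a b g' q ∧ ∀ i ≤ N, p i < q i ∧ q i < p (i + 1) := by
  have key : ∀ i, ∃ q, i ≤ N → (p i < q ∧ q < p (i + 1) ∧
      g (p (i + 1)) - g (p i) = g' q * (p (i + 1) - p i)) := by
    intro i
    by_cases hi : i ≤ N
    · obtain ⟨q, h1, h2, h3⟩ := mvt hg (h.mem i (by omega)) (h.mem (i + 1) (by omega))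
        (h.lt i (by omega))
      exact ⟨q, fun _ => ⟨h1, h2, h3⟩⟩
    · exact ⟨0, fun h' => absurd h' hi⟩
  choose q hq using key
  refine ⟨q, ⟨?_, ?_, ?_⟩, fun i hi => ⟨(hq i hi).1, (hq i hi).2.1⟩⟩
  · intro i hi
    exact ⟨(h.mem i (by omega)).1.trans (hq i hi).1.le,
      (hq i hi).2.1.le.trans (h.mem (i + 1) (by omega)).2⟩
  · intro i hi
    exact (hq i (by omega)).2.1.trans (hq (i + 1) (by omega)).1
  · intro i hi
    obtain ⟨h1, h2, h3⟩ := hq i hi
    have s1 := h.sgn i (by omega)
    have s2 := h.sgn (i + 1) (by omega)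
    have hd : 0 < p (i + 1) - p i := by linarith
    have e : (-s * (-1) ^ i * g' (q i)) * (p (i + 1) - p i)
        = s * (-1) ^ (i + 1) * g (p (i + 1)) + s * (-1) ^ i * g (p i) := by
      rw [mul_assoc, ← h3]; ring
    by_contra hneg
    push Not at hneg
    have := mul_neg_of_neg_of_pos hneg hd
    rw [e] at this
    linarith

/-- descend `r` levels, strict version -/
theorem AltS.down {m : ℕ} {a b : ℝ} {F : ℕ → ℝ → ℝ} (hF : Chain m a b F) {N : ℕ} :
    ∀ (r : ℕ) {j : ℕ} {s : ℝ} {p : ℕ → ℝ}, j + r ≤ m → AltS (N + r) s a b (F j) p →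
    ∃ q, AltS N ((-1) ^ r * s) a b (F (j + r)) q ∧ p 0 ≤ q 0 ∧ (0 < r → p 0 < q 0) := by
  intro r
  induction r with
  | zero =>
    intro j s p _ h
    exact ⟨p, by simpa using h, le_rfl, fun h0 => absurd h0 (lt_irrefl _)⟩
  | succ r ih =>
    intro j s p hj h
    obtain ⟨q, hq, hq'⟩ := AltS.step (N := N + r) (hF j (by omega)) h
    obtain ⟨w, hw, hw1, _⟩ := ih (j := j + 1) (by omega) hq
    have h0 := (hq' 0 (by omega)).1
    refine ⟨w, ?_, h0.le.trans hw1, fun _ => h0.trans_le hw1⟩
    have e : (-1 : ℝ) ^ (r + 1) * s = (-1) ^ r * -s := by ring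
    rw [e, show j + (r + 1) = j + 1 + r by ring]
    exact hw

/-- descend `r` levels, weak version -/
theorem AltW.down {m : ℕ} {a b : ℝ} {F : ℕ → ℝ → ℝ} (hF : Chain m a b F) {N : ℕ} :
    ∀ (r : ℕ) {j : ℕ} {s : ℝ} {p : ℕ → ℝ}, j + r ≤ m → AltW (N + r) s a b (F j) p →
    ∃ q, AltW N ((-1) ^ r * s) a b (F (j + r)) q ∧ p 0 ≤ q 0 ∧ (0 < r → p 0 < q 0) := by
  intro r
  induction r with
  | zero =>
    intro j s p _ h
    exact ⟨p, by simpa using h, le_rfl, fun h0 => absurd h0 (lt_irrefl _)⟩
  | succ r ih =>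
    intro j s p hj h
    obtain ⟨q, hq, hq'⟩ := AltW.step (N := N + r) (hF j (by omega)) h
    obtain ⟨w, hw, hw1, _⟩ := ih (j := j + 1) (by omega) hq
    have h0 := (hq' 0 (by omega)).1
    refine ⟨w, ?_, h0.le.trans hw1, fun _ => h0.trans_le hw1⟩
    have e : (-1 : ℝ) ^ (r + 1) * s = (-1) ^ r * -s := by ring
    rw [e, show j + (r + 1) = j + 1 + r by ring]
    exact hw

theorem AltW.not_mono {s a b : ℝ} (hs : s ≠ 0) {g : ℝ → ℝ} {p : ℕ → ℝ}
    (h : AltW 2 s a b g p)
    (hg : StrictMonoOn g (Icc a b) ∨ StrictAntiOn g (Icc a b)) : False := by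
  have m0 := h.mem 0 (by norm_num)
  have m1 := h.mem 1 (by norm_num)
  have m2 := h.mem 2 (by norm_num)
  have l0 := h.lt 0 (by norm_num)
  have l1 := h.lt 1 (by norm_num)
  have s0 := h.sgn 0 (by norm_num)
  have s1 := h.sgn 1 (by norm_num)
  have s2 := h.sgn 2 (by norm_num)
  simp only [pow_zero, mul_one, pow_one, zero_add, Nat.reduceAdd] at *
  norm_num at s1 s2
  rcases hg with hg | hg
  · have a1 := hg m0 m1 l0
    have a2 := hg m1 m2 l1
    rcases lt_or_gt_of_ne hs with h' | h' <;> nlinarith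
  · have a1 := hg m0 m1 l0
    have a2 := hg m1 m2 l1
    rcases lt_or_gt_of_ne hs with h' | h' <;> nlinarith

/-- Rolle type statement with one double zero: a chain `F 0, …, F m` whose last member is strictly
monotone cannot alternate strictly at `m + 1` points and have a double zero. -/
theorem no_double {m : ℕ} (hm : 1 ≤ m) {a b : ℝ} {F : ℕ → ℝ → ℝ} (hF : Chain m a b F)
    (hmono : StrictMonoOn (F m) (Icc a b) ∨ StrictAntiOn (F m) (Icc a b))
    {s : ℝ} (hs : s ≠ 0) {p : ℕ → ℝ} (hp : AltS m s a b (F 0) p)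
    {x₀ : ℝ} (hx : x₀ ∈ Icc a b) (h0 : F 0 x₀ = 0) (h1 : F 1 x₀ = 0) : False := by
  -- it is enough to find `m + 2` weakly alternating points for `F 1`
  suffices hsuff : ∃ r, AltW (m + 1) (-s) a b (F 1) r by
    obtain ⟨r, hr⟩ := hsuff
    obtain ⟨w, hw, _⟩ := AltW.down (N := 2) hF (m - 1) (j := 1) (s := -s) (p := r) (by omega)
      (by rw [show 2 + (m - 1) = m + 1 by omega]; exact hr)
    rw [show 1 + (m - 1) = m by omega] at hw
    exact AltW.not_mono (by simp [hs]) hw hmono
  obtain ⟨m, rfl⟩ : ∃ k, m = k + 1 := ⟨m - 1, by omega⟩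
  obtain ⟨q, hq, hq'⟩ := AltS.step (N := m) (hF 0 (by omega)) hp
  have hder := hF 0 (by omega)
  rcases lt_or_ge x₀ (p 0) with hlt | hge
  · -- the double zero is to the left of all points
    obtain ⟨c, hc1, hc2, hc3⟩ := mvt hder hx (hp.mem 0 (by omega)) hlt
    refine ⟨fun i => if i = 0 then x₀ else if i = 1 then c else q (i - 2), ⟨?_, ?_, ?_⟩⟩
    · intro i hi
      by_cases e0 : i = 0
      · simp only [e0, if_true]; exact hx
      by_cases e1 : i = 1
      · simp only [e1, if_true, one_ne_zero, if_false]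
        exact ⟨hx.1.trans hc1.le, hc2.le.trans (hp.mem 0 (by omega)).2⟩
      · simp only [e0, e1, if_false]
        exact hq.mem _ (by omega)
    · intro i hi
      by_cases e0 : i = 0
      · subst e0; simpa using hc1
      by_cases e1 : i = 1
      · subst e1
        simpa using hc2.trans (hq' 0 (by omega)).1
      · simp only [e0, e1, if_false, show i + 1 ≠ 0 by omega, show i + 1 ≠ 1 by omega]
        rw [show i + 1 - 2 = (i - 2) + 1 by omega]
        exact hq.lt _ (by omega)
    · intro i hi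
      by_cases e0 : i = 0
      · simp [e0, h1]
      by_cases e1 : i = 1
      · subst e1
        simp only [one_ne_zero, if_false, if_true, pow_one]
        have s0 := hp.sgn 0 (by omega)
        simp only [pow_zero, mul_one] at s0
        have : (s * F 1 c) * (p 0 - x₀) = s * F 0 (p 0) := by
          rw [mul_assoc]; simp only [zero_add] at hc3; rw [← hc3, h0, sub_zero]
        have hpos : 0 < s * F 1 c := pos_fac (by rw [this]; exact s0)
          (by linarith)
        linarith
      · simp only [e0, e1, if_false]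
        have := hq.sgn (i - 2) (by omega)
        obtain ⟨k, rfl⟩ : ∃ k, i = k + 2 := ⟨i - 2, by omega⟩
        simp only [Nat.add_sub_cancel] at this ⊢
        rw [pow_add]; norm_num
        have e : -s * (-1) ^ k * F (0 + 1) (q k) = -(s * (-1) ^ k * F 1 (q k)) := by
          rw [zero_add]; ring
        linarith
  rcases lt_or_ge (p (m + 1)) x₀ with hgt | hle
  · -- to the right of all points
    obtain ⟨c, hc1, hc2, hc3⟩ := mvt hder (hp.mem (m + 1) (by omega)) hx hgt
    refine ⟨fun i => if i ≤ m then q i else if i = m + 1 then c else x₀, ⟨?_, ?_, ?_⟩⟩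
    · intro i hi
      by_cases e0 : i ≤ m
      · simp only [e0, if_true]; exact hq.mem _ e0
      by_cases e1 : i = m + 1
      · simp only [e0, e1, if_true, if_false]
        simp only [show ¬ (m + 1 ≤ m) by omega, if_false]
        exact ⟨(hp.mem (m + 1) (by omega)).1.trans hc1.le, hc2.le.trans hx.2⟩
      · simp only [e0, e1, if_false]; exact hx
    · intro i hi
      by_cases e0 : i + 1 ≤ m
      · simp only [e0, show i ≤ m by omega, if_true]; exact hq.lt _ (by omega)
      by_cases e1 : i = m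
      · subst e1
        simp only [le_refl, if_true, show ¬ (i + 1 ≤ i) by omega, if_false]
        exact (hq' i le_rfl).2.trans hc1
      · have e2 : i = m + 1 := by omega
        subst e2
        simp only [show ¬ (m + 1 ≤ m) by omega, show ¬ (m + 1 + 1 ≤ m) by omega, if_false,
          if_true, show ¬ (m + 1 + 1 = m + 1) by omega]
        exact hc2
    · intro i hi
      by_cases e0 : i ≤ m
      · simp only [e0, if_true]; exact (hq.sgn i e0).le
      by_cases e1 : i = m + 1
      · subst e1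
        simp only [show ¬ (m + 1 ≤ m) by omega, if_false, if_true]
        have s0 := hp.sgn (m + 1) (by omega)
        have : (-s * (-1) ^ (m + 1) * F 1 c) * (x₀ - p (m + 1))
            = s * (-1) ^ (m + 1) * F 0 (p (m + 1)) := by
          simp only [zero_add] at hc3; rw [mul_assoc, ← hc3, h0]; ring
        exact (pos_fac (by rw [this]; exact s0) (by linarith)).le
      · simp only [e0, e1, if_false]; simp [h1]
  · -- between two consecutive points
    have hex : ∃ j, j ≤ m ∧ p j < x₀ ∧ x₀ < p (j + 1) := by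
      have hne : ∀ i ≤ m + 1, p i ≠ x₀ := by
        intro i hi he
        have := hp.sgn i hi
        rw [he, h0, mul_zero] at this
        exact lt_irrefl _ this
      have h00 : p 0 < x₀ := lt_of_le_of_ne hge (hne 0 (by omega))
      have hmm : x₀ < p (m + 1) := lt_of_le_of_ne hle (hne (m + 1) le_rfl).symm
      by_contra hcon
      push Not at hcon
      have : ∀ i ≤ m + 1, p i < x₀ := by
        intro i
        induction i with
        | zero => intro _; exact h00
        | succ i ih =>
          intro hi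
          exact lt_of_le_of_ne (hcon i (by omega) (ih (by omega))) (hne (i + 1) hi)
      exact absurd (this (m + 1) le_rfl) (not_lt.2 hmm.le)
    obtain ⟨j, hj, hj1, hj2⟩ := hex
    obtain ⟨c, hc1, hc2, hc3⟩ := mvt hder (hp.mem j (by omega)) hx hj1
    obtain ⟨d, hd1, hd2, hd3⟩ := mvt hder hx (hp.mem (j + 1) (by omega)) hj2
    simp only [zero_add] at hc3 hd3
    have sc : 0 < -s * (-1) ^ j * F 1 c := by
      have s0 := hp.sgn j (by omega)
      have : (-s * (-1) ^ j * F 1 c) * (x₀ - p j) = s * (-1) ^ j * F 0 (p j) := by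
        rw [mul_assoc, ← hc3, h0]; ring
      exact pos_fac (by rw [this]; exact s0) (by linarith)
    have sd : 0 < -s * (-1) ^ j * F 1 d := by
      have s0 := hp.sgn (j + 1) (by omega)
      have : (-s * (-1) ^ j * F 1 d) * (p (j + 1) - x₀)
          = s * (-1) ^ (j + 1) * F 0 (p (j + 1)) := by
        rw [mul_assoc, ← hd3, h0]; ring
      exact pos_fac (by rw [this]; exact s0) (by linarith)
    refine ⟨fun i => if i < j then q i else if i = j then c else if i = j + 1 then x₀
      else if i = j + 2 then d else q (i - 2), ⟨?_, ?_, ?_⟩⟩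
    · intro i hi
      by_cases e0 : i < j
      · simp only [e0, if_true]; exact hq.mem _ (by omega)
      by_cases e1 : i = j
      · simp only [e1, lt_irrefl, if_true, if_false]
        exact ⟨(hp.mem j (by omega)).1.trans hc1.le, hc2.le.trans hx.2⟩
      by_cases e2 : i = j + 1
      · simp only [e0, e1, e2, if_true, if_false, show ¬ (j + 1 < j) by omega,
          show ¬ (j + 1 = j) by omega]
        exact hx
      by_cases e3 : i = j + 2
      · simp only [e3, if_true, if_false, show ¬ (j + 2 < j) by omega,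
          show ¬ (j + 2 = j) by omega, show ¬ (j + 2 = j + 1) by omega]
        exact ⟨hx.1.trans hd1.le, hd2.le.trans (hp.mem (j + 1) (by omega)).2⟩
      · simp only [e0, e1, e2, e3, if_false]
        exact hq.mem _ (by omega)
    · intro i hi
      by_cases e0 : i + 1 < j
      · simp only [e0, show i < j by omega, if_true]; exact hq.lt _ (by omega)
      by_cases e1 : i + 1 = j
      · simp only [e1, lt_irrefl, if_true, if_false, show i < j by omega]
        have := (hq' i (by omega)).2
        rw [e1] at this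
        exact this.trans hc1
      by_cases e2 : i = j
      · simp only [e2, lt_irrefl, if_true, if_false, show ¬ (j + 1 < j) by omega,
          show ¬ (j + 1 = j) by omega]
        exact hc2
      by_cases e3 : i = j + 1
      · simp only [e3, if_true, if_false, show ¬ (j + 1 < j) by omega,
          show ¬ (j + 1 = j) by omega, show ¬ (j + 1 + 1 < j) by omega,
          show ¬ (j + 1 + 1 = j) by omega, show ¬ (j + 1 + 1 = j + 1) by omega,
          show (j + 1 + 1 = j + 2) by omega]
        exact hd1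
      by_cases e4 : i = j + 2
      · simp only [e4, if_true, if_false, show ¬ (j + 2 < j) by omega,
          show ¬ (j + 2 = j) by omega, show ¬ (j + 2 = j + 1) by omega,
          show ¬ (j + 2 + 1 < j) by omega, show ¬ (j + 2 + 1 = j) by omega,
          show ¬ (j + 2 + 1 = j + 1) by omega, show ¬ (j + 2 + 1 = j + 2) by omega,
          show j + 2 + 1 - 2 = j + 1 by omega]
        exact hd2.trans (hq' (j + 1) (by omega)).1
      · simp only [show ¬ (i < j) by omega, e2, e3, e4, if_false,
          show ¬ (i + 1 < j) by omega, show ¬ (i + 1 = j) by omega,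
          show ¬ (i + 1 = j + 1) by omega, show ¬ (i + 1 = j + 2) by omega]
        rw [show i + 1 - 2 = (i - 2) + 1 by omega]
        exact hq.lt _ (by omega)
    · intro i hi
      by_cases e0 : i < j
      · simp only [e0, if_true]; exact (hq.sgn i (by omega)).le
      by_cases e1 : i = j
      · simp only [e1, lt_irrefl, if_true, if_false]; exact sc.le
      by_cases e2 : i = j + 1
      · simp only [e2, if_true, if_false, show ¬ (j + 1 < j) by omega,
          show ¬ (j + 1 = j) by omega]
        simp [h1]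
      by_cases e3 : i = j + 2
      · simp only [e3, if_true, if_false, show ¬ (j + 2 < j) by omega,
          show ¬ (j + 2 = j) by omega, show ¬ (j + 2 = j + 1) by omega]
        rw [pow_add]; norm_num; linarith
      · simp only [e0, e1, e2, e3, if_false]
        have := hq.sgn (i - 2) (by omega)
        obtain ⟨k, rfl⟩ : ∃ k, i = k + 2 := ⟨i - 2, by omega⟩
        simp only [Nat.add_sub_cancel] at this ⊢
        rw [pow_add]; norm_num
        have e : -s * (-1) ^ k * F (0 + 1) (q k) = -(s * (-1) ^ k * F 1 (q k)) := by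
          rw [zero_add]; ring
        linarith

/-- shift of a chain -/
theorem Chain.shift {m k : ℕ} {a b : ℝ} {F : ℕ → ℝ → ℝ} (hF : Chain m a b F) (hk : k ≤ m) :
    Chain (m - k) a b (fun i => F (k + i)) := fun i hi x hx => hF (k + i) (by omega) x hx

/-- Birkhoff type statement: strict alternation at `m + 1` points at level `0` and a double zero at
level `k ≤ m - 1` is impossible if the last member is strictly monotone. -/
theorem no_double_level {m k : ℕ} (hk : k + 1 ≤ m) {a b : ℝ} {F : ℕ → ℝ → ℝ}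
    (hF : Chain m a b F)
    (hmono : StrictMonoOn (F m) (Icc a b) ∨ StrictAntiOn (F m) (Icc a b))
    {s : ℝ} (hs : s ≠ 0) {p : ℕ → ℝ} (hp : AltS m s a b (F 0) p)
    {x₀ : ℝ} (hx : x₀ ∈ Icc a b) (h0 : F k x₀ = 0) (h1 : F (k + 1) x₀ = 0) : False := by
  obtain ⟨q, hq, _⟩ := AltS.down (N := m - k) hF k (j := 0) (s := s) (p := p) (by omega)
    (by rw [show m - k + k = m by omega]; exact hp)
  rw [zero_add] at hq
  have h2 : (-1 : ℝ) ^ k * s ≠ 0 := mul_ne_zero (pow_ne_zero _ (by norm_num)) hs
  exact no_double (m := m - k) (by omega) (hF.shift (by omega))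
    (by simpa [show k + (m - k) = m by omega] using hmono) h2
    (by simpa using hq) hx (by simpa using h0) (by simpa using h1)

end Run7.h734
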