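import Mathlib
import Pool.Agent.Run7.h734.Count

/-!
Facts about derivatives of Chebyshev polynomials.
-/

open Set Polynomial Real

namespace Run7.h734

/-- the `i`-th derivative of the Chebyshev polynomial `T_n` at `y` -/
noncomputable def dT (n i : ℕ) (y : ℝ) : ℝ :=
  (derivative^[i] (Chebyshev.T ℝ (n : ℤ))).eval y

/-- `σ_n = 2^(n-1) n!`, the (constant) `n`-th derivative of `T_n` -/
noncomputable def sig (n : ℕ) : ℝ := 2 ^ (n - 1) * (n.factorial : ℝ)

theorem sig_pos (n : ℕ) : 0 < sig n := by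
  unfold sig; positivity

theorem dT_hasDerivAt (n i : ℕ) (y : ℝ) : HasDerivAt (dT n i) (dT n (i + 1) y) y := by
  unfold dT
  rw [Function.iterate_succ_apply']
  exact Polynomial.hasDerivAt _ _

theorem dT_zero_abs_le (n : ℕ) {y : ℝ} (hy : |y| ≤ 1) : |dT n 0 y| ≤ 1 := by
  simpa [dT] using Chebyshev.abs_eval_T_real_le_one (n : ℤ) hy

theorem dT_zero_cos (n : ℕ) (θ : ℝ) : dT n 0 (cos θ) = cos (n * θ) := by
  simp [dT]

theorem dT_one_cos (n : ℕ) (θ : ℝ) : dT n 1 (cos θ) * sin θ = n * sin (n * θ) := by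
  have h := Chebyshev.U_real_cos θ ((n : ℤ) - 1)
  simp only [dT, Function.iterate_one, Chebyshev.T_derivative_eq_U, eval_mul, eval_intCast]
  rw [mul_assoc, h]
  push_cast
  ring_nf

theorem dT_ode (n : ℕ) (k : ℕ) (y : ℝ) :
    (1 - y ^ 2) * dT n (k + 2) y = (2 * k + 1) * y * dT n (k + 1) y
      - ((n : ℝ) ^ 2 - (k : ℝ) ^ 2) * dT n k y := by
  have := Chebyshev.one_sub_X_sq_mul_iterate_derivative_T_eval (R := ℝ) (n : ℤ) k y
  simpa [dT] using this

theorem dT_top (n : ℕ) (_hn : n ≠ 0) (y : ℝ) : dT n n y = sig n := by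
  unfold dT
  have hdeg : (derivative^[n] (Chebyshev.T ℝ (n : ℤ))).natDegree ≤ 0 := by
    have h1 := natDegree_iterate_derivative (Chebyshev.T ℝ (n : ℤ)) n
    rw [Chebyshev.natDegree_T] at h1
    simpa using h1
  rw [Polynomial.eq_C_of_natDegree_le_zero hdeg, eval_C, coeff_iterate_derivative]
  have hl : (Chebyshev.T ℝ (n : ℤ)).coeff (0 + n) = 2 ^ (n - 1) := by
    have h2 := Chebyshev.leadingCoeff_T (R := ℝ) (n : ℤ)
    rw [leadingCoeff, Chebyshev.natDegree_T] at h2
    simpa using h2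
  rw [hl]
  simp [Nat.descFactorial_self, sig, mul_comm]

/-- the derivative of order `n - 1` of `T_n` is affine with slope `σ_n` -/
theorem dT_pred_sub (n : ℕ) (hn : 1 ≤ n) (x y : ℝ) :
    dT n (n - 1) y - dT n (n - 1) x = sig n * (y - x) := by
  have h : ∀ z, HasDerivAt (fun z => dT n (n - 1) z - sig n * z) 0 z := by
    intro z
    have h1 := dT_hasDerivAt n (n - 1) z
    rw [show n - 1 + 1 = n by omega, dT_top n (by omega)] at h1
    have h2 : HasDerivAt (fun z : ℝ => sig n * z) (sig n) z := by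
      simpa using (hasDerivAt_id z).const_mul (sig n)
    simpa using h1.fun_sub h2
  have h2 := is_const_of_deriv_eq_zero (f := fun z => dT n (n - 1) z - sig n * z)
    (fun z => (h z).differentiableAt) (fun z => (h z).deriv) y x
  linarith

theorem span_bound {P : ℝ[X]} {S : Set ℕ}
    (hP : P ∈ Submodule.span ℕ ((fun m : ℕ => Chebyshev.T ℝ (m : ℤ)) '' S)) {y : ℝ}
    (hy : |y| ≤ 1) : |P.eval y| ≤ P.eval 1 := by
  induction hP using Submodule.span_induction with
  | mem x hx =>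
    obtain ⟨m, _, rfl⟩ := hx
    simpa using Chebyshev.abs_eval_T_real_le_one (m : ℤ) hy
  | zero => simp
  | add p q _ _ hp hq =>
    rw [eval_add, eval_add]
    exact (abs_add_le _ _).trans (add_le_add hp hq)
  | smul a p _ hp =>
    rw [eval_smul, eval_smul, nsmul_eq_mul, nsmul_eq_mul, abs_mul, Nat.abs_cast]
    exact mul_le_mul_of_nonneg_left hp (Nat.cast_nonneg a)

theorem dT_abs_le (N i : ℕ) {y : ℝ} (hy : |y| ≤ 1) : |dT N i y| ≤ dT N i 1 :=
  span_bound (Chebyshev.T_iterate_derivative_mem_span_T (R := ℝ) N i) hy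

theorem dT_one_nonneg (N i : ℕ) : 0 ≤ dT N i 1 :=
  (abs_nonneg _).trans (dT_abs_le N i (y := 1) (by simp))

theorem dT_one_succ (N i : ℕ) :
    (2 * i + 1) * dT N (i + 1) 1 = ((N : ℝ) ^ 2 - (i : ℝ) ^ 2) * dT N i 1 := by
  have := dT_ode N i 1
  simp at this
  linarith

/-- `T_N^{(i)}(1) ∏_{l<i} (2l+1) ≤ N^(2i)` -/
theorem dT_one_le (N : ℕ) (i : ℕ) :
    (∏ l ∈ Finset.range i, (2 * (l : ℝ) + 1)) * dT N i 1 ≤ (N : ℝ) ^ (2 * i) := by
  induction i with
  | zero => simp [dT]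
  | succ i ih =>
    rw [Finset.prod_range_succ, mul_assoc, dT_one_succ]
    have h0 := dT_one_nonneg N i
    have hp : 0 ≤ ∏ l ∈ Finset.range i, (2 * (l : ℝ) + 1) :=
      Finset.prod_nonneg fun l _ => by positivity
    calc (∏ l ∈ Finset.range i, (2 * (l : ℝ) + 1)) * (((N : ℝ) ^ 2 - (i : ℝ) ^ 2) * dT N i 1)
        = ((N : ℝ) ^ 2 - (i : ℝ) ^ 2) *
          ((∏ l ∈ Finset.range i, (2 * (l : ℝ) + 1)) * dT N i 1) := by ring
      _ ≤ (N : ℝ) ^ 2 * ((∏ l ∈ Finset.range i, (2 * (l : ℝ) + 1)) * dT N i 1) := by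
          apply mul_le_mul_of_nonneg_right _ (mul_nonneg hp h0)
          nlinarith [sq_nonneg (i : ℝ)]
      _ ≤ (N : ℝ) ^ 2 * (N : ℝ) ^ (2 * i) := mul_le_mul_of_nonneg_left ih (by positivity)
      _ = (N : ℝ) ^ (2 * (i + 1)) := by ring

/-- `∏_{l<n} (2l+1) * 2^n n! = (2n)!` -/
theorem prod_odd (n : ℕ) :
    (∏ l ∈ Finset.range n, (2 * (l : ℝ) + 1)) * (2 ^ n * (n.factorial : ℝ))
      = ((2 * n).factorial : ℝ) := by
  induction n with
  | zero => simp
  | succ n ih =>
    rw [Finset.prod_range_succ, show 2 * (n + 1) = (2 * n + 1) + 1 by ring,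
      Nat.factorial_succ (2 * n + 1), Nat.factorial_succ (2 * n), Nat.factorial_succ n]
    push_cast
    rw [← ih]
    ring

/-- affine change of variables in a chain -/
theorem Chain.affine {m : ℕ} {a b : ℝ} {F : ℕ → ℝ → ℝ} (hF : Chain m a b F) {c d a' b' : ℝ}
    (hmap : ∀ x ∈ Icc a' b', c * x + d ∈ Icc a b) :
    Chain m a' b' (fun i x => c ^ i * F i (c * x + d)) := by
  intro i hi x hx
  have h1 := hF i hi (c * x + d) (hmap x hx)
  have h2 : HasDerivWithinAt (fun x => c * x + d) c (Icc a' b') x := by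
    simpa using ((hasDerivAt_id x).const_mul c).add_const d |>.hasDerivWithinAt
  have h3 := (h1.comp x h2 hmap).const_mul (c ^ i)
  refine h3.congr_deriv ?_
  ring

theorem Chain.mono {m : ℕ} {a b a' b' : ℝ} {F : ℕ → ℝ → ℝ} (hF : Chain m a b F)
    (ha : a ≤ a') (hb : b' ≤ b) : Chain m a' b' F :=
  fun i hi x hx => (hF i hi x ⟨ha.trans hx.1, hx.2.trans hb⟩).mono (Icc_subset_Icc ha hb)

theorem Chain.lower {m m' : ℕ} {a b : ℝ} {F : ℕ → ℝ → ℝ} (hF : Chain m a b F)
    (h : m' ≤ m) : Chain m' a b F :=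
  fun i hi x hx => hF i (hi.trans_le h) x hx

theorem Chain.sub_smul {m : ℕ} {a b : ℝ} {F G : ℕ → ℝ → ℝ} (hF : Chain m a b F)
    (hG : Chain m a b G) (c : ℝ) : Chain m a b (fun i x => F i x - c * G i x) :=
  fun i hi x hx => (hF i hi x hx).sub ((hG i hi x hx).const_mul c)

/-- subtract a constant from the function -/
theorem Chain.sub_const {m : ℕ} {a b : ℝ} {F : ℕ → ℝ → ℝ} (hF : Chain m a b F) (β : ℝ) :
    Chain m a b (fun i x => F i x - if i = 0 then β else 0) := by
  intro i hi x hx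
  have := (hF i hi x hx).sub_const (if i = 0 then β else 0)
  simpa using this

/-- chain of an affinely transformed Chebyshev polynomial -/
theorem chain_dT (n m : ℕ) (c d a b : ℝ) :
    Chain m a b (fun i x => c ^ i * dT n i (c * x + d)) := by
  intro i hi x hx
  have h2 : HasDerivAt (fun x => c * x + d) c x := by
    simpa using ((hasDerivAt_id x).const_mul c).add_const d
  have h3 := ((dT_hasDerivAt n i (c * x + d)).comp x h2).const_mul (c ^ i)
  refine (h3.congr_deriv ?_).hasDerivWithinAt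
  ring

end Run7.h734
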