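import Mathlib
import Pool.Agent.Run7.h734.Cheb

/-!
Critical values of the first derivative of a function of the class
`|f| ≤ 1`, `f^{(n-1)}` Lipschitz with constant `σ_n`, on an interval of length at least `2`.
-/

open Set Polynomial Real

namespace Run7.h734

/-- the class of functions, in terms of chains of derivatives -/
structure Cl (m : ℕ) (σ a b : ℝ) (F : ℕ → ℝ → ℝ) : Prop where
  chain : Chain m a b F
  lip : ∀ x ∈ Icc a b, ∀ y ∈ Icc a b, |F m y - F m x| ≤ σ * |y - x|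
  bd : ∀ x ∈ Icc a b, |F 0 x| ≤ 1

theorem Cl.mono {m : ℕ} {σ a b a' b' : ℝ} {F : ℕ → ℝ → ℝ} (hF : Cl m σ a b F)
    (ha : a ≤ a') (hb : b' ≤ b) : Cl m σ a' b' F where
  chain := hF.chain.mono ha hb
  lip := fun x hx y hy => hF.lip x ⟨ha.trans hx.1, hx.2.trans hb⟩ y ⟨ha.trans hy.1, hy.2.trans hb⟩
  bd := fun x hx => hF.bd x ⟨ha.trans hx.1, hx.2.trans hb⟩

/-- comparison theorem with a function whose last derivative is affine -/
theorem compare {m : ℕ} {σ a b : ℝ} {F C : ℕ → ℝ → ℝ} (hσ : 0 < σ) (hF : Cl m σ a b F)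
    (hC : Chain m a b C) {κ : ℝ} (hκ : σ ≤ |κ|)
    (hlin : ∀ x ∈ Icc a b, ∀ y ∈ Icc a b, C m y - C m x = κ * (y - x))
    {c : ℝ} (hc : |c| < 1) {s : ℝ} (hs : s ≠ 0) {p : ℕ → ℝ}
    (hp : AltS m s a b (fun x => C 0 x - c * F 0 x) p)
    {k : ℕ} (hk : k + 1 ≤ m) {x₀ : ℝ} (hx : x₀ ∈ Icc a b)
    (h0 : C k x₀ = c * F k x₀) (h1 : C (k + 1) x₀ = c * F (k + 1) x₀) : False := by
  refine no_double_level (m := m) hk (hC.sub_smul hF.chain c) ?_ hs hp hx
    (by simp [h0]) (by simp [h1])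
  have hb : ∀ x ∈ Icc a b, ∀ y ∈ Icc a b, x < y →
      |c * (F m y - F m x)| < |κ| * (y - x) := by
    intro x hx y hy hxy
    have hd : 0 < y - x := by linarith
    have h1 := hF.lip x hx y hy
    rw [abs_of_pos hd] at h1
    rw [abs_mul]
    calc |c| * |F m y - F m x| ≤ |c| * (σ * (y - x)) :=
          mul_le_mul_of_nonneg_left h1 (abs_nonneg c)
      _ < 1 * (σ * (y - x)) := mul_lt_mul_of_pos_right hc (by positivity)
      _ ≤ |κ| * (y - x) := by
          rw [one_mul]; exact mul_le_mul_of_nonneg_right hκ hd.le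
  rcases le_or_gt 0 κ with hk0 | hk0
  · left
    intro x hx y hy hxy
    have := abs_lt.1 (hb x hx y hy hxy)
    rw [abs_of_nonneg hk0] at this
    have := hlin x hx y hy
    simp only
    nlinarith
  · right
    intro x hx y hy hxy
    have := abs_lt.1 (hb x hx y hy hxy)
    rw [abs_of_neg hk0] at this
    have := hlin x hx y hy
    simp only
    nlinarith

/-- the angle of the extremal critical point of `T_n'` -/
theorem exists_angle {n : ℕ} (hn : 4 ≤ n) : ∃ θ : ℝ, 4 * π / (3 * n) ≤ θ ∧ θ ≤ 3 * π / (2 * n) ∧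
    sin (n * θ) * cos θ = n * (cos (n * θ) * sin θ) := by
  have hn' : (4 : ℝ) ≤ n := by exact_mod_cast hn
  have hpi := Real.pi_pos
  have hle : 4 * π / (3 * n) ≤ 3 * π / (2 * n) := by
    rw [div_le_div_iff₀ (by positivity) (by positivity)]
    nlinarith [mul_pos hpi (show (0:ℝ) < n by linarith)]
  have hcont : ContinuousOn (fun θ : ℝ => sin (n * θ) * cos θ - n * (cos (n * θ) * sin θ))
      (Icc (4 * π / (3 * n)) (3 * π / (2 * n))) := by
    apply Continuous.continuousOn; fun_prop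
  have hA : 0 ≤ sin (n * (4 * π / (3 * n))) * cos (4 * π / (3 * n)) -
      n * (cos (n * (4 * π / (3 * n))) * sin (4 * π / (3 * n))) := by
    have e : (n : ℝ) * (4 * π / (3 * n)) = π / 3 + π := by field_simp; ring
    rw [e, sin_add_pi, cos_add_pi, sin_pi_div_three, cos_pi_div_three]
    set x := 4 * π / (3 * (n : ℝ)) with hx
    have hx0 : 0 ≤ x := by positivity
    have hx1 : x ≤ π / 2 := by
      rw [hx, div_le_div_iff₀ (by positivity) (by positivity)]
      nlinarith [mul_pos hpi (show (0:ℝ) < n by linarith)]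
    have h1 := Real.mul_le_sin hx0 hx1
    have h2 : (n : ℝ) * (2 / π * x) = 8 / 3 := by rw [hx]; field_simp; ring
    have h3 : (8 : ℝ) / 3 ≤ n * sin x := by
      rw [← h2]; exact mul_le_mul_of_nonneg_left h1 (by linarith)
    have h4 : cos x ≤ 1 := cos_le_one x
    have h5 : √3 ≤ 2 := by
      rw [Real.sqrt_le_left (by norm_num)]; norm_num
    have h6 : 0 ≤ √3 := Real.sqrt_nonneg 3
    nlinarith
  have hB : sin (n * (3 * π / (2 * n))) * cos (3 * π / (2 * n)) -
      n * (cos (n * (3 * π / (2 * n))) * sin (3 * π / (2 * n))) ≤ 0 := by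
    have e : (n : ℝ) * (3 * π / (2 * n)) = π / 2 + π := by field_simp; ring
    rw [e, sin_add_pi, cos_add_pi, sin_pi_div_two, cos_pi_div_two]
    have h1 : 0 ≤ cos (3 * π / (2 * (n : ℝ))) := by
      apply cos_nonneg_of_neg_pi_div_two_le_of_le
      · have : 0 ≤ 3 * π / (2 * (n : ℝ)) := by positivity
        linarith
      · rw [div_le_div_iff₀ (by positivity) (by positivity)]
        nlinarith [mul_pos hpi (show (0:ℝ) < n by linarith)]
    linarith
  obtain ⟨θ, hθ, h⟩ := intermediate_value_Icc' hle hcont ⟨hB, hA⟩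
  exact ⟨θ, hθ.1, hθ.2, by simpa [sub_eq_zero] using h⟩

/-- the data of the comparison function -/
structure Ang (n : ℕ) (θ v : ℝ) : Prop where
  lo : 4 * π / (3 * n) ≤ θ
  hi : θ ≤ 3 * π / (2 * n)
  vpos : 0 < v
  d1 : dT n 1 (cos θ) = -v
  d2 : dT n 2 (cos θ) = 0
  vsq : v ^ 2 * (1 + ((n : ℝ) ^ 2 - 1) * sin θ ^ 2) = (n : ℝ) ^ 4

theorem exists_ang {n : ℕ} (hn : 4 ≤ n) : ∃ θ v, Ang n θ v ∧
    sin (n * θ) * cos θ = n * (cos (n * θ) * sin θ) := by
  obtain ⟨θ, h1, h2, h3⟩ := exists_angle hn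
  have hn' : (4 : ℝ) ≤ n := by exact_mod_cast hn
  have hpi := Real.pi_pos
  have hθ0 : 0 < θ := lt_of_lt_of_le (by positivity) h1
  have hθ1 : θ < π / 2 := by
    refine lt_of_le_of_lt h2 ?_
    rw [div_lt_div_iff₀ (by positivity) (by positivity)]
    nlinarith [mul_pos hpi (show (0:ℝ) < n by linarith)]
  have hs : 0 < sin θ := sin_pos_of_pos_of_lt_pi hθ0 (by linarith)
  have hd := dT_one_cos n θ
  have hode := dT_ode n 0 (cos θ)
  have hsc : 1 - cos θ ^ 2 = sin θ ^ 2 := by have := sin_sq_add_cos_sq θ; linarith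
  have hsc2 := sin_sq_add_cos_sq (n * θ)
  have hneg : sin (n * θ) < 0 := by
    have e : sin (n * θ) = - sin (n * θ - π) := by rw [sin_sub_pi]; ring
    rw [e]
    have : 0 < sin (n * θ - π) := by
      apply sin_pos_of_pos_of_lt_pi
      · have : 4 * π / 3 ≤ n * θ := by
          have := mul_le_mul_of_nonneg_left h1 (show (0:ℝ) ≤ n by linarith)
          have e2 : (n : ℝ) * (4 * π / (3 * n)) = 4 * π / 3 := by field_simp
          linarith
        linarith
      · have : n * θ ≤ 3 * π / 2 := by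
          have := mul_le_mul_of_nonneg_left h2 (show (0:ℝ) ≤ n by linarith)
          have e2 : (n : ℝ) * (3 * π / (2 * n)) = 3 * π / 2 := by field_simp
          linarith
        linarith
    linarith
  have hv : dT n 1 (cos θ) = n * sin (n * θ) / sin θ := by
    rw [eq_div_iff hs.ne']; exact hd
  refine ⟨θ, -(n * sin (n * θ) / sin θ), ⟨h1, h2, ?_, ?_, ?_, ?_⟩, h3⟩
  · rw [neg_pos]
    apply div_neg_of_neg_of_pos _ hs
    nlinarith
  · rw [hv]; ring
  · simp only [Nat.cast_zero, mul_zero, zero_add, one_mul, dT_zero_cos, hsc] at hode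
    have h4 : sin θ ^ 2 * dT n 2 (cos θ) = 0 := by
      rw [hode, hv]
      have : cos θ * (n * sin (n * θ) / sin θ) = n * (sin (n * θ) * cos θ) / sin θ := by ring
      rw [this, h3]
      field_simp
      ring
    rcases mul_eq_zero.1 h4 with h5 | h5
    · exact absurd h5 (by positivity)
    · exact h5
  · have hn0 : (n : ℝ) ≠ 0 := by linarith
    have key : sin (n * θ) ^ 2 * (1 + ((n : ℝ) ^ 2 - 1) * sin θ ^ 2) = n ^ 2 * sin θ ^ 2 := by
      have h5 : (sin (n * θ) * cos θ) ^ 2 = (n * (cos (n * θ) * sin θ)) ^ 2 := by rw [h3]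
      have h6 : cos (n * θ) ^ 2 = 1 - sin (n * θ) ^ 2 := by linarith
      have h7 : cos θ ^ 2 = 1 - sin θ ^ 2 := by have := sin_sq_add_cos_sq θ; linarith
      rw [mul_pow, mul_pow, mul_pow, h6, h7] at h5
      linarith
    have : (-(n * sin (n * θ) / sin θ)) ^ 2 * (1 + ((n : ℝ) ^ 2 - 1) * sin θ ^ 2)
        = (n : ℝ) ^ 2 / sin θ ^ 2 *
          (sin (n * θ) ^ 2 * (1 + ((n : ℝ) ^ 2 - 1) * sin θ ^ 2)) := by
      field_simp
    rw [this, key]
    field_simp

end Run7.h734
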