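import Mathlib
import Pool.Agent.Run7.h734.Crit

/-!
Interior critical values of the first derivative: `|f'(x₀)| ≤ 2 v`.
-/

open Set Polynomial Real

namespace Run7.h734

theorem node_mono {n : ℕ} (hn : 0 < n) {i : ℕ} (hi : i + 1 ≤ n) :
    cos (((i + 1 : ℕ) : ℝ) * π / n) < cos ((i : ℝ) * π / n) := by
  have hn' : (0 : ℝ) < n := by exact_mod_cast hn
  have hpi := Real.pi_pos
  apply cos_lt_cos_of_nonneg_of_le_pi
  · positivity
  · rw [div_le_iff₀ hn']
    have : ((i + 1 : ℕ) : ℝ) ≤ n := by exact_mod_cast hi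
    nlinarith
  · rw [div_lt_div_iff_of_pos_right hn']
    push_cast
    nlinarith

theorem dT_node {n : ℕ} (hn : 0 < n) (i : ℕ) :
    dT n 0 (cos ((i : ℝ) * π / n)) = (-1) ^ i := by
  have hn' : (n : ℝ) ≠ 0 := by positivity
  rw [dT_zero_cos, show (n : ℝ) * ((i : ℝ) * π / n) = (i : ℝ) * π by field_simp]
  exact cos_nat_mul_pi i

section
variable {n : ℕ} {θ v : ℝ}

theorem Ang.theta_pos (hn : 4 ≤ n) (h : Ang n θ v) : 0 < θ := by
  have hn' : (4 : ℝ) ≤ n := by exact_mod_cast hn
  exact lt_of_lt_of_le (by have := Real.pi_pos; positivity) h.lo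

theorem Ang.theta_lt (hn : 4 ≤ n) (h : Ang n θ v) : θ < π / 2 := by
  have hn' : (4 : ℝ) ≤ n := by exact_mod_cast hn
  have hpi := Real.pi_pos
  refine lt_of_le_of_lt h.hi ?_
  rw [div_lt_div_iff₀ (by positivity) (by positivity)]
  nlinarith [mul_pos hpi (show (0:ℝ) < n by linarith)]

/-- `T_n ≤ 0` between the angles `π/n` and `θ` -/
theorem Ang.T_nonpos (hn : 4 ≤ n) (h : Ang n θ v) {y : ℝ} (h1 : cos θ ≤ y)
    (h2 : y ≤ cos (π / n)) : dT n 0 y ≤ 0 := by
  have hn' : (4 : ℝ) ≤ n := by exact_mod_cast hn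
  have hpi := Real.pi_pos
  have ht0 := h.theta_pos hn
  have ht1 := h.theta_lt hn
  have hy1 : y ≤ 1 := h2.trans (cos_le_one _)
  have hy0 : -1 ≤ y := (neg_one_le_cos _).trans h1
  set φ := arccos y with hφ
  have hy : y = cos φ := (cos_arccos hy0 hy1).symm
  have hφ0 : 0 ≤ φ := arccos_nonneg y
  have hφπ : φ ≤ π := arccos_le_pi y
  have hφ1 : φ ≤ θ := by
    by_contra hcon
    push Not at hcon
    have := cos_lt_cos_of_nonneg_of_le_pi ht0.le hφπ hcon
    rw [← hy] at this
    linarith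
  have hφ2 : π / n ≤ φ := by
    by_contra hcon
    push Not at hcon
    have hle : π / (n : ℝ) ≤ π := by
      rw [div_le_iff₀ (by linarith)]
      nlinarith
    have := cos_lt_cos_of_nonneg_of_le_pi hφ0 hle hcon
    rw [← hy] at this
    linarith
  rw [hy, dT_zero_cos]
  have e1 : π ≤ n * φ := by
    rw [div_le_iff₀ (by linarith)] at hφ2
    linarith
  have e2 : n * φ ≤ 3 * π / 2 := by
    have h3 := mul_le_mul_of_nonneg_left (hφ1.trans h.hi) (show (0:ℝ) ≤ n by linarith)
    have e3 : (n : ℝ) * (3 * π / (2 * n)) = 3 * π / 2 := by field_simp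
    linarith
  exact cos_nonpos_of_pi_div_two_le_of_le (by linarith) (by linarith)

/-- first case: the critical point is left of the critical point of the Chebyshev polynomial -/
theorem crit_left (hn : 4 ≤ n) (h : Ang n θ v) {L : ℝ} (hL : 2 ≤ L) {F : ℕ → ℝ → ℝ}
    (hF : Cl (n - 1) (sig n) 0 L F) {x₀ : ℝ} (hx0 : 0 ≤ x₀) (hx1 : x₀ ≤ 1 - cos θ)
    (h2 : F 2 x₀ = 0) : |F 1 x₀| ≤ 2 * v := by
  by_contra hcon
  push Not at hcon
  have hn' : (4 : ℝ) ≤ n := by exact_mod_cast hn
  have hn0 : 0 < n := by omega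
  have hpi := Real.pi_pos
  have hv := h.vpos
  have ht0 := h.theta_pos hn
  have ht1 := h.theta_lt hn
  have hct0 : 0 < cos θ := cos_pos_of_mem_Ioo ⟨by linarith, ht1⟩
  have hct1 : cos θ < 1 := by
    rw [← cos_zero]
    exact cos_lt_cos_of_nonneg_of_le_pi le_rfl (by linarith) ht0
  set w := F 1 x₀ with hw
  have hw0 : w ≠ 0 := by
    intro h0; rw [h0, abs_zero] at hcon; linarith
  set c := v / w with hc
  have hcw : c * w = v := div_mul_cancel₀ v hw0
  have hc1 : |c| < 1 / 2 := by
    rw [hc, abs_div, abs_of_pos hv, div_lt_iff₀ (abs_pos.2 hw0)]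
    linarith
  set u := 1 - cos θ - x₀ with hu
  have hu0 : 0 ≤ u := by linarith
  have hu1 : u ≤ 1 - cos θ := by linarith
  -- nodes
  set τ : ℕ → ℝ := fun i => 1 - cos ((i : ℝ) * π / n) with hτ
  have hτlt : ∀ i, i + 1 ≤ n → τ i < τ (i + 1) := by
    intro i hi
    have := node_mono hn0 hi
    simp only [hτ]
    linarith
  have hτ2 : ∀ i, τ i ≤ 2 := fun i => by
    simp only [hτ]; linarith [neg_one_le_cos ((i : ℝ) * π / n)]
  have hY2 : 1 - cos θ < τ 2 := by
    have : cos (((2 : ℕ) : ℝ) * π / n) < cos θ := by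
      apply cos_lt_cos_of_nonneg_of_le_pi ht0.le
      · rw [div_le_iff₀ (by linarith)]; push_cast; nlinarith
      · refine lt_of_le_of_lt h.hi ?_
        rw [div_lt_div_iff₀ (by linarith) (by linarith)]
        push_cast
        nlinarith [mul_pos hpi (show (0:ℝ) < n by linarith)]
    simp only [hτ]
    linarith
  have hτge : ∀ i, 2 ≤ i → i ≤ n → τ 2 ≤ τ i := by
    intro i h2i
    induction i, h2i using Nat.le_induction with
    | base => intro _; exact le_rfl
    | succ i hi ih => intro hin; exact (ih (by omega)).trans (hτlt i hin).le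
  have hτ1 : τ 1 ≤ 1 - cos θ := by
    have : cos θ ≤ cos (((1 : ℕ) : ℝ) * π / n) := by
      apply cos_le_cos_of_nonneg_of_le_pi (by positivity) (by linarith)
      refine le_trans ?_ h.lo
      rw [div_le_div_iff₀ (by linarith) (by linarith)]
      push_cast
      nlinarith [mul_pos hpi (show (0:ℝ) < n by linarith)]
    simp only [hτ]
    linarith
  -- comparison function
  set C : ℕ → ℝ → ℝ := fun i x => (fun i x => (-1 : ℝ) ^ i * dT n i (-1 * x + (1 - u))) i x -
    if i = 0 then (1 / 2 : ℝ) else 0 with hC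
  have hCchain : Chain (n - 1) 0 (2 - u) C := (chain_dT n (n - 1) (-1) (1 - u) 0 (2 - u)).sub_const _
  have hxmem : x₀ ∈ Icc (0 : ℝ) (2 - u) := ⟨hx0, by linarith⟩
  have hFr : Cl (n - 1) (sig n) 0 (2 - u) F := hF.mono le_rfl (by linarith)
  have harg : -1 * x₀ + (1 - u) = cos θ := by rw [hu]; ring
  refine compare (m := n - 1) (k := 1) (sig_pos n) hFr hCchain (κ := (-1) ^ (n - 1) * (-1) * sig n)
    (c := c) (s := -1) (x₀ := x₀)
    (p := fun i => if i = 0 then max (τ 1 - u) 0 else τ (i + 1) - u)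
    ?_ ?_ (by linarith) (by norm_num) ⟨?_, ?_, ?_⟩ (by omega) hxmem ?_ ?_
  · rw [abs_mul, abs_mul, abs_pow, abs_neg, abs_one, one_pow, one_mul, one_mul,
      abs_of_pos (sig_pos n)]
  · intro x _ y _
    simp only [hC, show n - 1 ≠ 0 by omega, if_false, sub_zero]
    rw [← mul_sub, dT_pred_sub n (by omega)]
    ring
  · intro i hi
    by_cases e : i = 0
    · simp only [e, if_true]
      refine ⟨le_max_right _ _, max_le ?_ (by linarith)⟩
      linarith [hτ2 1]
    · simp only [e, if_false]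
      have := hτge (i + 1) (by omega) (by omega)
      exact ⟨by linarith, by linarith [hτ2 (i + 1)]⟩
  · intro i hi
    by_cases e : i = 0
    · simp only [e, if_true, show ¬ (0 + 1 = 0) by omega, if_false]
      apply max_lt
      · have := hτlt 1 (by omega)
        simp only [zero_add, Nat.reduceAdd] at this ⊢
        linarith
      · simp only [zero_add, Nat.reduceAdd]
        linarith
    · simp only [e, if_false, show ¬ (i + 1 = 0) by omega]
      have := hτlt (i + 1) (by omega)
      linarith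
  · intro i hi
    by_cases e : i = 0
    · simp only [e, if_true, hC, pow_zero, one_mul, mul_one]
      set z := max (τ 1 - u) 0 with hz
      have hz0 : 0 ≤ z := le_max_right _ _
      have hz1 : τ 1 ≤ z + u := by have := le_max_left (τ 1 - u) 0; linarith
      have hz2 : z + u ≤ 1 - cos θ := by
        have : z ≤ 1 - cos θ - u := max_le (by linarith) (by linarith)
        linarith
      have hT : dT n 0 (-1 * z + (1 - u)) ≤ 0 := by
        apply h.T_nonpos hn
        · linarith
        · have : τ 1 = 1 - cos (π / n) := by simp [hτ]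
          linarith
      have hb := hF.bd z ⟨hz0, by linarith⟩
      have hcb : |c * F 0 z| ≤ 1 / 2 := by
        rw [abs_mul]
        nlinarith [abs_nonneg c, abs_nonneg (F 0 z)]
      have hcb' : |c * F 0 z| < 1 / 2 := by
        rw [abs_mul]
        nlinarith [abs_nonneg c, abs_nonneg (F 0 z)]
      have := abs_lt.1 hcb'
      linarith
    · simp only [e, if_false, hC, if_true, pow_zero, one_mul]
      have harg2 : -1 * (τ (i + 1) - u) + (1 - u) = cos (((i + 1 : ℕ) : ℝ) * π / n) := by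
        simp only [hτ]; ring
      rw [harg2, dT_node hn0]
      have hmem := hτge (i + 1) (by omega) (by omega)
      have hb := hF.bd (τ (i + 1) - u) ⟨by linarith, by linarith [hτ2 (i + 1)]⟩
      have hcb' : |c * F 0 (τ (i + 1) - u)| < 1 / 2 := by
        rw [abs_mul]
        nlinarith [abs_nonneg c, abs_nonneg (F 0 (τ (i + 1) - u))]
      have h3 := abs_lt.1 hcb'
      rcases neg_one_pow_eq_or ℝ i with h4 | h4
      · rw [pow_succ, h4]; linarith
      · rw [pow_succ, h4]; linarith
  · simp only [hC, one_ne_zero, if_false, sub_zero, pow_one]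
    rw [harg, h.d1, ← hw, hcw]
    ring
  · simp only [hC, show ¬ (1 + 1 = 0) by omega, if_false, sub_zero, Nat.reduceAdd]
    rw [harg, h.d2, h2]
    ring

/-- second case: the critical point is right of the critical point of the Chebyshev polynomial -/
theorem crit_right (hn : 4 ≤ n) (h : Ang n θ v) {L : ℝ} (hL : 2 ≤ L) {F : ℕ → ℝ → ℝ}
    (hF : Cl (n - 1) (sig n) 0 L F) {x₀ : ℝ} (hx0 : 1 - cos θ < x₀) (hx1 : x₀ ≤ L / 2)
    (h2 : F 2 x₀ = 0) : |F 1 x₀| ≤ 2 * v := by
  by_contra hcon
  push Not at hcon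
  have hn' : (4 : ℝ) ≤ n := by exact_mod_cast hn
  have hn0 : 0 < n := by omega
  have hpi := Real.pi_pos
  have hv := h.vpos
  have ht0 := h.theta_pos hn
  have ht1 := h.theta_lt hn
  have hct0 : 0 < cos θ := cos_pos_of_mem_Ioo ⟨by linarith, ht1⟩
  have hct1 : cos θ < 1 := by
    rw [← cos_zero]
    exact cos_lt_cos_of_nonneg_of_le_pi le_rfl (by linarith) ht0
  have hLx : 0 < L - x₀ := by linarith
  set lam := max 1 ((1 + cos θ) / (L - x₀)) with hlam
  have hlam1 : 1 ≤ lam := le_max_left _ _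
  have hlam0 : 0 < lam := by linarith
  have hlam2 : lam ≤ 2 := by
    apply max_le (by norm_num)
    rw [div_le_iff₀ hLx]
    linarith
  have hlam3 : (1 + cos θ) / lam ≤ L - x₀ := by
    rw [div_le_iff₀ hlam0]
    have := le_max_right 1 ((1 + cos θ) / (L - x₀))
    rw [← hlam, div_le_iff₀ hLx] at this
    linarith
  set w := F 1 x₀ with hw
  have hw0 : w ≠ 0 := by
    intro h0; rw [h0, abs_zero] at hcon; linarith
  set c := lam * v / w with hc
  have hcw : c * w = lam * v := div_mul_cancel₀ _ hw0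
  have hc1 : |c| < 1 := by
    rw [hc, abs_div, abs_of_pos (mul_pos hlam0 hv), div_lt_iff₀ (abs_pos.2 hw0)]
    nlinarith
  set α := x₀ - (1 - cos θ) / lam with hα
  have hdiv : (1 - cos θ) / lam ≤ 1 - cos θ := div_le_self (by linarith) hlam1
  have hdiv0 : 0 ≤ (1 - cos θ) / lam := div_nonneg (by linarith) hlam0.le
  have hdiv1 : 0 ≤ (1 + cos θ) / lam := div_nonneg (by linarith) hlam0.le
  have hα0 : 0 ≤ α := by linarith
  have hsum : α + 2 / lam = x₀ + (1 + cos θ) / lam := by
    rw [hα]; field_simp; ring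
  have hβ : α + 2 / lam ≤ L := by linarith
  have hxmem : x₀ ∈ Icc α (α + 2 / lam) := ⟨by linarith, by linarith⟩
  set C : ℕ → ℝ → ℝ := fun i x => (-lam) ^ i * dT n i (-lam * x + (1 + lam * α)) with hC
  have hCchain : Chain (n - 1) α (α + 2 / lam) C := chain_dT n (n - 1) (-lam) (1 + lam * α) _ _
  have hFr : Cl (n - 1) (sig n) α (α + 2 / lam) F := hF.mono hα0 hβ
  have harg : -lam * x₀ + (1 + lam * α) = cos θ := by rw [hα]; field_simp; ring
  refine compare (m := n - 1) (k := 1) (sig_pos n) hFr hCchain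
    (κ := (-lam) ^ (n - 1) * (-lam) * sig n)
    (c := c) (s := 1) (x₀ := x₀)
    (p := fun i => α + (1 - cos ((i : ℝ) * π / n)) / lam)
    ?_ ?_ hc1 (by norm_num) ⟨?_, ?_, ?_⟩ (by omega) hxmem ?_ ?_
  · rw [abs_mul, abs_mul, abs_pow, abs_neg, abs_of_pos hlam0, abs_of_pos (sig_pos n)]
    have : 1 ≤ lam ^ (n - 1) * lam := by
      have := one_le_pow₀ hlam1 (n := n - 1)
      nlinarith
    have := sig_pos n
    nlinarith
  · intro x _ y _
    simp only [hC]
    rw [← mul_sub, dT_pred_sub n (by omega)]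
    ring
  · intro i hi
    have h3 := cos_le_one ((i : ℝ) * π / n)
    have h4 := neg_one_le_cos ((i : ℝ) * π / n)
    constructor
    · have : 0 ≤ (1 - cos ((i : ℝ) * π / n)) / lam := div_nonneg (by linarith) hlam0.le
      linarith
    · have : (1 - cos ((i : ℝ) * π / n)) / lam ≤ 2 / lam :=
        div_le_div_of_nonneg_right (by linarith) hlam0.le
      linarith
  · intro i hi
    have := node_mono hn0 (i := i) (by omega)
    have : (1 - cos ((i : ℝ) * π / n)) / lam < (1 - cos (((i + 1 : ℕ) : ℝ) * π / n)) / lam :=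
      div_lt_div_of_pos_right (by linarith) hlam0
    simpa using this
  · intro i hi
    simp only [hC, pow_zero, one_mul]
    have harg2 : -lam * (α + (1 - cos ((i : ℝ) * π / n)) / lam) + (1 + lam * α)
        = cos ((i : ℝ) * π / n) := by
      field_simp; ring
    rw [harg2, dT_node hn0]
    have h3 := cos_le_one ((i : ℝ) * π / n)
    have h4 := neg_one_le_cos ((i : ℝ) * π / n)
    have h5 : 0 ≤ (1 - cos ((i : ℝ) * π / n)) / lam := div_nonneg (by linarith) hlam0.le
    have h6 : (1 - cos ((i : ℝ) * π / n)) / lam ≤ 2 / lam :=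
      div_le_div_of_nonneg_right (by linarith) hlam0.le
    have hb := hF.bd (α + (1 - cos ((i : ℝ) * π / n)) / lam) ⟨by linarith, by linarith⟩
    have hcb' : |c * F 0 (α + (1 - cos ((i : ℝ) * π / n)) / lam)| < 1 := by
      rw [abs_mul]
      nlinarith [abs_nonneg c, abs_nonneg (F 0 (α + (1 - cos ((i : ℝ) * π / n)) / lam))]
    have h7 := abs_lt.1 hcb'
    rcases neg_one_pow_eq_or ℝ i with h8 | h8
    · rw [h8]; linarith
    · rw [h8]; linarith
  · simp only [hC, pow_one]
    rw [harg, h.d1, ← hw, hcw]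
    ring
  · simp only [hC, Nat.reduceAdd]
    rw [harg, h.d2, h2]
    ring

/-- critical values of the first derivative in the left half -/
theorem crit_bound (hn : 4 ≤ n) (h : Ang n θ v) {L : ℝ} (hL : 2 ≤ L) {F : ℕ → ℝ → ℝ}
    (hF : Cl (n - 1) (sig n) 0 L F) {x₀ : ℝ} (hx0 : 0 ≤ x₀) (hx1 : x₀ ≤ L / 2)
    (h2 : F 2 x₀ = 0) : |F 1 x₀| ≤ 2 * v := by
  rcases le_or_gt x₀ (1 - cos θ) with h3 | h3
  · exact crit_left hn h hL hF hx0 h3 h2
  · exact crit_right hn h hL hF h3 hx1 h2

end

end Run7.h734
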