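import Mathlib
import Pool.Agent.Run7.h734.CritOne

/-!
Numerical estimates for the first derivative.
-/

open Set Polynomial Real

namespace Run7.h734

section
variable {n : ℕ} {θ v : ℝ}

theorem Ang.sin_ge (hn : 5 ≤ n) (h : Ang n θ v) : 13 ≤ ((n : ℝ) ^ 2 - 1) * sin θ ^ 2 := by
  have hn' : (5 : ℝ) ≤ n := by exact_mod_cast hn
  have hpi := Real.pi_pos
  have hpi2 := Real.pi_gt_d4
  have ht0 := h.theta_pos (by omega)
  have ht1 := h.theta_lt (by omega)
  set z : ℝ := 1 / n with hz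
  have hz0 : 0 < z := by positivity
  have hz1 : z ≤ 1 / 5 := one_div_le_one_div_of_le (by norm_num) hn'
  have hzn : z * n = 1 := by rw [hz]; field_simp
  have hx : 4.1886 * z ≤ θ := by
    refine le_trans ?_ h.lo
    have : 4 * π / (3 * (n : ℝ)) = 4 * π / 3 * z := by rw [hz]; field_simp
    rw [this]
    apply mul_le_mul_of_nonneg_right _ hz0.le
    norm_num at hpi2 ⊢
    linarith
  have hs1 : sin (4.1886 * z) ≤ sin θ :=
    sin_le_sin_of_le_of_le_pi_div_two (by nlinarith) ht1.le hx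
  have hs2 := sin_ge_sub_cube (x := 4.1886 * z) (by positivity)
  have hs3 : 4.1886 * z - (4.1886 * z) ^ 3 / 6 = z * (4.1886 * (1 - 4.1886 ^ 2 * z ^ 2 / 6)) := by
    ring
  set t : ℝ := z ^ 2 with ht
  have ht0' : 0 < t := by positivity
  have ht1' : t ≤ 1 / 25 := by rw [ht]; nlinarith
  set A : ℝ := 4.1886 * (1 - 4.1886 ^ 2 * t / 6) with hA
  have hA0 : 0 < A := by rw [hA]; norm_num; nlinarith
  have hs4 : z * A ≤ sin θ := by rw [hs3] at hs2; linarith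
  have hs5 : (z * A) ^ 2 ≤ sin θ ^ 2 := by
    apply pow_le_pow_left₀ (by positivity) hs4
  have hn2 : (n : ℝ) ^ 2 * t = 1 := by
    rw [ht, ← mul_pow, mul_comm, hzn, one_pow]
  have hfac : ((n : ℝ) ^ 2 - 1) * (z * A) ^ 2 = (1 - t) * A ^ 2 := by
    rw [mul_pow, ← ht]
    have : ((n : ℝ) ^ 2 - 1) * (t * A ^ 2) = ((n : ℝ) ^ 2 * t) * A ^ 2 - t * A ^ 2 := by ring
    rw [this, hn2]; ring
  have hpoly : 13 ≤ (1 - t) * A ^ 2 := by
    have h1 : (0 : ℝ) ≤ 1 / 25 - t := by linarith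
    rw [hA]
    norm_num
    nlinarith [mul_nonneg h1 ht0'.le, mul_nonneg (mul_nonneg h1 ht0'.le) ht0'.le,
      mul_nonneg h1 h1]
  calc (13 : ℝ) ≤ ((n : ℝ) ^ 2 - 1) * (z * A) ^ 2 := by rw [hfac]; exact hpoly
    _ ≤ ((n : ℝ) ^ 2 - 1) * sin θ ^ 2 := by
        apply mul_le_mul_of_nonneg_left hs5
        nlinarith

theorem Ang.v_sq_le (hn : 5 ≤ n) (h : Ang n θ v) : 14 * v ^ 2 ≤ (n : ℝ) ^ 4 := by
  have h1 := h.sin_ge hn
  have h2 := h.vsq
  nlinarith [sq_nonneg v]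

theorem Ang.lt_pred_sq_of_five (hn : 5 ≤ n) (h : Ang n θ v) : 2 * v < ((n : ℝ) - 1) ^ 2 := by
  have hn' : (5 : ℝ) ≤ n := by exact_mod_cast hn
  have h1 := h.v_sq_le hn
  have hv := h.vpos
  apply lt_of_pow_lt_pow_left₀ 2 (by positivity)
  have h4 : (4 / 5 * (n : ℝ)) ^ 2 ≤ (n - 1) ^ 2 := by
    apply pow_le_pow_left₀ (by positivity); linarith
  have h5 : ((4 / 5 * (n : ℝ)) ^ 2) ^ 2 ≤ ((n - 1) ^ 2) ^ 2 :=
    pow_le_pow_left₀ (by positivity) h4 2
  have h6 : 0 < (n : ℝ) ^ 4 := by positivity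
  nlinarith

theorem Ang.pow_lt_of_five (hn : 5 ≤ n) (h : Ang n θ v) :
    (2 * v) ^ n < ((2 * n).factorial : ℝ) / 2 := by
  have hn' : (5 : ℝ) ≤ n := by exact_mod_cast hn
  have hpi := Real.pi_gt_three
  have hv := h.vpos
  have h1 := h.v_sq_le hn
  have he : exp 1 < 2.7182818286 := exp_one_lt_d9
  have he0 := exp_pos 1
  have hkey : 2 * v < (2 * n / exp 1) ^ 2 := by
    apply lt_of_pow_lt_pow_left₀ 2 (by positivity)
    have e1 : ((2 * (n : ℝ) / exp 1) ^ 2) ^ 2 = 16 * n ^ 4 / (exp 1) ^ 4 := by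
      field_simp; ring
    rw [e1, lt_div_iff₀ (by positivity)]
    have he4 : (exp 1) ^ 4 < 56 := by
      calc (exp 1) ^ 4 < 2.7182818286 ^ 4 := pow_lt_pow_left₀ he he0.le (by norm_num)
        _ < 56 := by norm_num
    have h6 : 0 < (n : ℝ) ^ 4 := by positivity
    have h7 : (2 * v) ^ 2 ≤ 2 / 7 * n ^ 4 := by nlinarith
    calc (2 * v) ^ 2 * (exp 1) ^ 4 ≤ (2 / 7 * n ^ 4) * (exp 1) ^ 4 :=
          mul_le_mul_of_nonneg_right h7 (by positivity)
      _ < (2 / 7 * n ^ 4) * 56 := by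
          apply mul_lt_mul_of_pos_left he4 (by positivity)
      _ = 16 * n ^ 4 := by ring
  have hst := Stirling.le_factorial_stirling (2 * n)
  push_cast at hst
  have hsq : 2 ≤ √(2 * π * (2 * (n : ℝ))) := by
    apply Real.le_sqrt_of_sq_le
    nlinarith
  have hp : (2 * v) ^ n < ((2 * n / exp 1) ^ 2) ^ n :=
    pow_lt_pow_left₀ hkey (by positivity) (by omega)
  rw [← pow_mul] at hp
  have hpos : 0 < (2 * (n : ℝ) / exp 1) ^ (2 * n) := by positivity
  have : 2 * (2 * (n : ℝ) / exp 1) ^ (2 * n) ≤ ((2 * n).factorial : ℝ) := by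
    refine le_trans ?_ hst
    exact mul_le_mul_of_nonneg_right hsq hpos.le
  linarith

/-- the case `n = 4`: `v² = 256 / 13.5` -/
theorem ang_four {θ v : ℝ} (h : Ang 4 θ v)
    (he : sin ((4 : ℕ) * θ) * cos θ = (4 : ℕ) * (cos ((4 : ℕ) * θ) * sin θ)) :
    v ^ 2 * 13.5 = 256 := by
  have ht0 := h.theta_pos le_rfl
  have ht1 := h.theta_lt le_rfl
  have hs : 0 < sin θ := sin_pos_of_pos_of_lt_pi ht0 (by linarith [Real.pi_pos])
  have hsc := sin_sq_add_cos_sq θ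
  have e4 : ((4 : ℕ) : ℝ) * θ = 2 * (2 * θ) := by push_cast; ring
  rw [e4, sin_two_mul, cos_two_mul, sin_two_mul, cos_two_mul] at he
  push_cast at he
  have hc2 : cos θ ^ 2 = 1 - sin θ ^ 2 := by linarith
  have h1 : sin θ * ((1 - sin θ ^ 2) * (1 - 2 * sin θ ^ 2) -
      (1 - 8 * sin θ ^ 2 + 8 * sin θ ^ 4)) = 0 := by
    have e5 : 2 * (2 * sin θ * cos θ) * (2 * cos θ ^ 2 - 1) * cos θ
        = 4 * sin θ * cos θ ^ 2 * (2 * cos θ ^ 2 - 1) := by ring
    have e6 : cos (2 * θ) = 1 - 2 * sin θ ^ 2 := by rw [cos_two_mul, hc2]; ring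
    rw [e5, hc2, e6] at he
    nlinarith
  have h2 : 5 * sin θ ^ 2 = 6 * sin θ ^ 4 := by
    rcases mul_eq_zero.1 h1 with h3 | h3
    · exact absurd h3 hs.ne'
    · nlinarith
  have h3 : sin θ ^ 2 = 5 / 6 := by
    have : sin θ ^ 2 * (5 - 6 * sin θ ^ 2) = 0 := by nlinarith
    rcases mul_eq_zero.1 this with h4 | h4
    · exact absurd h4 (by positivity)
    · linarith
  have h4 := h.vsq
  rw [h3] at h4
  push_cast at h4
  norm_num at h4 ⊢
  linarith

end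

/-- the comparison constant `2v` is smaller than both lower bounds of the endpoint supremum -/
theorem exists_const {n : ℕ} (hn : 4 ≤ n) : ∃ θ v, Ang n θ v ∧ 2 * v < ((n : ℝ) - 1) ^ 2 ∧
    (2 * v) ^ n < ((2 * n).factorial : ℝ) / 2 := by
  obtain ⟨θ, v, h, he⟩ := exists_ang hn
  refine ⟨θ, v, h, ?_⟩
  rcases Nat.lt_or_ge 4 n with h5 | h5
  · exact ⟨h.lt_pred_sq_of_five h5, h.pow_lt_of_five h5⟩
  · obtain rfl : n = 4 := by omega
    have h1 := ang_four h he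
    have hv := h.vpos
    have h2 : v ^ 2 = 256 / 13.5 := by rw [eq_div_iff (by norm_num)]; exact h1
    constructor
    · apply lt_of_pow_lt_pow_left₀ 2 (by positivity)
      rw [mul_pow, h2]; norm_num
    · have : (2 * v) ^ 4 = 16 * (v ^ 2) ^ 2 := by ring
      rw [this, h2]
      norm_num [Nat.factorial]

end Run7.h734
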