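import Mathlib
import Pool.Agent.Run7.h734.Crit

/-!
The class `W^n_∞[-1,1]` with `‖f‖ ≤ 1`, `‖f^{(n)}‖ ≤ σ`, the quantity `M_{n,k}(σ)`,
Zolotarev perfect splines, and the translation into chains of derivatives.
-/

open Set MeasureTheory

namespace Run7.h734

/-- the `j`-th derivative of `f` on `[-1,1]` (one-sided at the end points) -/
noncomputable def der (j : ℕ) (f : ℝ → ℝ) : ℝ → ℝ := iteratedDerivWithin j f (Icc (-1) 1)

/-- uniform norm on `[-1,1]` -/
noncomputable def unorm (g : ℝ → ℝ) : ℝ := sSup ((fun x => |g x|) '' Icc (-1) 1)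

/-- `f ∈ W^n_∞[-1,1]`, `‖f‖ ≤ 1`, `‖f^{(n)}‖ ≤ σ` -/
structure W (n : ℕ) (σ : ℝ) (f : ℝ → ℝ) : Prop where
  smooth : ContDiffOn ℝ ((n - 1 : ℕ) : ℕ∞) f (Icc (-1) 1)
  ac : AbsolutelyContinuousOnInterval (der (n - 1) f) (-1) 1
  norm_le : ∀ x ∈ Icc (-1 : ℝ) 1, |f x| ≤ 1
  top_le : ∀ᵐ x : ℝ, x ∈ Icc (-1 : ℝ) 1 → |deriv (der (n - 1) f) x| ≤ σ

/-- `M_{n,k}(σ)` -/
noncomputable def M (n k : ℕ) (σ : ℝ) : ℝ := sSup ((fun f => unorm (der k f)) '' {f | W n σ f})

/-- the end point supremum -/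
noncomputable def E (n k : ℕ) (σ : ℝ) : ℝ := sSup ((fun f => |der k f 1|) '' {f | W n σ f})

theorem uniqueDiff : UniqueDiffOn ℝ (Icc (-1 : ℝ) 1) := uniqueDiffOn_Icc (by norm_num)

theorem chain_der {f : ℝ → ℝ} {m : ℕ} (h : ContDiffOn ℝ (m : ℕ∞) f (Icc (-1) 1)) :
    Chain m (-1) 1 (fun i => der i f) := by
  intro i hi x hx
  have h1 : DifferentiableOn ℝ (iteratedDerivWithin i f (Icc (-1) 1)) (Icc (-1) 1) :=
    h.differentiableOn_iteratedDerivWithin (by exact_mod_cast hi) uniqueDiff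
  have h2 := (h1 x hx).hasDerivWithinAt
  simp only [der]
  rw [iteratedDerivWithin_succ]
  exact h2

theorem W.toCl {n : ℕ} {σ : ℝ} {f : ℝ → ℝ} (h : W n σ f) :
    Cl (n - 1) σ (-1) 1 (fun i => der i f) := by
  refine ⟨chain_der h.smooth, ?_, ?_⟩
  · have key : ∀ x ∈ Icc (-1 : ℝ) 1, ∀ y ∈ Icc (-1 : ℝ) 1, x ≤ y →
        |der (n - 1) f y - der (n - 1) f x| ≤ σ * |y - x| := by
      intro x hx y hy hxy
      have hac : AbsolutelyContinuousOnInterval (der (n - 1) f) x y := by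
        apply h.ac.mono
        rw [uIcc_of_le hxy, uIcc_of_le (by norm_num)]
        exact Icc_subset_Icc hx.1 hy.2
      rw [← hac.integral_deriv_eq_sub, abs_of_nonneg (sub_nonneg.2 hxy)]
      have := intervalIntegral.norm_integral_le_of_norm_le_const_ae (a := x) (b := y)
        (f := deriv (der (n - 1) f)) (C := σ) ?_
      · rw [Real.norm_eq_abs, abs_of_nonneg (sub_nonneg.2 hxy)] at this
        exact this
      · filter_upwards [h.top_le] with z hz hz2
        rw [uIoc_of_le hxy] at hz2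
        exact hz ⟨hx.1.trans hz2.1.le, hz2.2.trans hy.2⟩
    intro x hx y hy
    rcases le_total x y with hxy | hxy
    · exact key x hx y hy hxy
    · rw [abs_sub_comm, abs_sub_comm y x]
      exact key y hy x hx hxy
  · intro x hx
    simpa [der] using h.norm_le x hx

theorem Chain.der_eq {m : ℕ} {F : ℕ → ℝ → ℝ} (hF : Chain m (-1) 1 F) :
    ∀ i ≤ m, ∀ x ∈ Icc (-1 : ℝ) 1, der i (F 0) x = F i x := by
  intro i
  induction i with
  | zero => intro _ x _; simp [der]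
  | succ i ih =>
    intro hi x hx
    simp only [der]
    rw [iteratedDerivWithin_succ]
    have h1 := hF i (by omega) x hx
    have h2 : HasDerivWithinAt (iteratedDerivWithin i (F 0) (Icc (-1) 1)) (F (i + 1) x)
        (Icc (-1) 1) x :=
      h1.congr (fun y hy => ih (by omega) y hy) (ih (by omega) x hx)
    exact h2.derivWithin (uniqueDiff x hx)

theorem Chain.continuousOn {m : ℕ} {a b : ℝ} {F : ℕ → ℝ → ℝ} (hF : Chain m a b F) {i : ℕ}
    (hi : i < m) : ContinuousOn (F i) (Icc a b) :=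
  fun x hx => (hF i hi x hx).continuousWithinAt

theorem Cl.lipschitz {m : ℕ} {σ a b : ℝ} {F : ℕ → ℝ → ℝ} (hσ : 0 ≤ σ) (hF : Cl m σ a b F) :
    LipschitzOnWith (Real.toNNReal σ) (F m) (Icc a b) := by
  apply LipschitzOnWith.of_dist_le_mul
  intro x hx y hy
  rw [Real.coe_toNNReal _ hσ, Real.dist_eq, Real.dist_eq]
  exact hF.lip y hy x hx

theorem Cl.continuousOn {m : ℕ} {σ a b : ℝ} {F : ℕ → ℝ → ℝ} (hσ : 0 ≤ σ) (hF : Cl m σ a b F)
    {i : ℕ} (hi : i ≤ m) : ContinuousOn (F i) (Icc a b) := by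
  rcases Nat.lt_or_ge i m with h | h
  · exact hF.chain.continuousOn h
  · obtain rfl : i = m := by omega
    exact (hF.lipschitz hσ).continuousOn

theorem Cl.toW {n : ℕ} {σ : ℝ} (hσ : 0 ≤ σ) {F : ℕ → ℝ → ℝ} (hF : Cl (n - 1) σ (-1) 1 F) :
    W n σ (F 0) := by
  have hder := hF.chain.der_eq
  have hlip : LipschitzOnWith (Real.toNNReal σ) (der (n - 1) (F 0)) (Icc (-1) 1) := by
    intro x hx y hy
    rw [hder _ le_rfl x hx, hder _ le_rfl y hy]
    exact hF.lipschitz hσ hx hy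
  refine ⟨?_, ?_, hF.bd, ?_⟩
  · apply contDiffOn_of_continuousOn_differentiableOn_deriv
    · intro i hi
      have hi' : i ≤ n - 1 := by exact_mod_cast hi
      exact (hF.continuousOn hσ hi').congr (fun x hx => hder i hi' x hx)
    · intro i hi
      have hi' : i < n - 1 := by exact_mod_cast hi
      intro x hx
      exact ((hF.chain i hi' x hx).congr (fun y hy => hder i hi'.le y hy)
        (hder i hi'.le x hx)).differentiableWithinAt
  · apply LipschitzOnWith.absolutelyContinuousOnInterval (K := Real.toNNReal σ)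
    rw [uIcc_of_le (by norm_num)]
    exact hlip
  · have h1 : ∀ᵐ x : ℝ, x ≠ -1 := by
      have := (measure_singleton (-1 : ℝ) : volume {(-1 : ℝ)} = 0)
      rw [ae_iff]; simpa using this
    have h2 : ∀ᵐ x : ℝ, x ≠ 1 := by
      have := (measure_singleton (1 : ℝ) : volume {(1 : ℝ)} = 0)
      rw [ae_iff]; simpa using this
    filter_upwards [h1, h2] with x hx1 hx2 hx
    have hx' : Icc (-1 : ℝ) 1 ∈ nhds x :=
      Icc_mem_nhds (lt_of_le_of_ne hx.1 (Ne.symm hx1)) (lt_of_le_of_ne hx.2 hx2)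
    have := norm_deriv_le_of_lipschitzOn hx' hlip
    rw [Real.coe_toNNReal _ hσ] at this
    exact this

/-- reflection -/
theorem Cl.reflect {m : ℕ} {σ : ℝ} {F : ℕ → ℝ → ℝ} (hF : Cl m σ (-1) 1 F) :
    Cl m σ (-1) 1 (fun i x => (-1) ^ i * F i (-1 * x + 0)) := by
  have hmap : ∀ x ∈ Icc (-1 : ℝ) 1, -1 * x + 0 ∈ Icc (-1 : ℝ) 1 := by
    intro x hx; constructor <;> linarith [hx.1, hx.2]
  refine ⟨hF.chain.affine hmap, ?_, ?_⟩
  · intro x hx y hy
    rw [← mul_sub, abs_mul, abs_pow, abs_neg, abs_one, one_pow, one_mul]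
    refine (hF.lip _ (hmap x hx) _ (hmap y hy)).trans (le_of_eq ?_)
    rw [show -1 * y + 0 - (-1 * x + 0) = -(y - x) by ring, abs_neg]
  · intro x hx
    simpa using hF.bd _ (hmap x hx)

end Run7.h734
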