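import Mathlib
import Pool.Agent.Run7.h734.Class

/-!
The end point problem: comparison with a Zolotarev perfect spline.
-/

open Set MeasureTheory

namespace Run7.h734

/-- No `r + 2` alternating points, the first sign being wrong, for a function which is strictly
monotone on `r + 1` consecutive intervals with alternating directions. -/
theorem no_alt_piecewise {r : ℕ} {a b : ℝ} {t w : ℕ → ℝ} {g : ℝ → ℝ}
    (hta : t 0 = a) (htb : t (r + 1) = b)
    (hanti : ∀ j ≤ r, ∀ x ∈ Icc (t j) (t (j + 1)), ∀ y ∈ Icc (t j) (t (j + 1)), x < y →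
      (-1) ^ j * g y < (-1) ^ j * g x)
    (hw : AltS (r + 1) (-1) a b g w) : False := by
  have key : ∀ j ≤ r + 1, t j ≤ w j ∧ (0 < j → t j < w j) := by
    intro j
    induction j with
    | zero =>
      intro _
      refine ⟨?_, fun h => absurd h (lt_irrefl _)⟩
      rw [hta]; exact (hw.mem 0 (by omega)).1
    | succ j ih =>
      intro hj
      have h1 := (ih (by omega)).1
      have h2 : t (j + 1) < w (j + 1) := by
        by_contra hcon
        push Not at hcon
        have hlt := hw.lt j (by omega)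
        have h3 := hanti j (by omega) (w j) ⟨h1, hlt.le.trans hcon⟩ (w (j + 1))
          ⟨h1.trans hlt.le, hcon⟩ hlt
        have s1 := hw.sgn j (by omega)
        have s2 := hw.sgn (j + 1) (by omega)
        have e1 : -1 * (-1 : ℝ) ^ j * g (w j) = -((-1) ^ j * g (w j)) := by ring
        have e2 : -1 * (-1 : ℝ) ^ (j + 1) * g (w (j + 1)) = (-1) ^ j * g (w (j + 1)) := by ring
        rw [e1] at s1
        rw [e2] at s2
        linarith
      exact ⟨h2.le, fun _ => h2⟩
  have h1 := (key (r + 1) le_rfl).2 (by omega)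
  have h2 := (hw.mem (r + 1) le_rfl).2
  rw [htb] at h1
  linarith

/-- left version of a Zolotarev perfect spline, in terms of a chain -/
structure ZolL (m r : ℕ) (σ a b : ℝ) (Z : ℕ → ℝ → ℝ) : Prop where
  cl : Cl m σ a b Z
  knots : ∃ t : ℕ → ℝ, t 0 = a ∧ t (r + 1) = b ∧ (∀ i ≤ r, t i < t (i + 1)) ∧
    ∀ i ≤ r, ∀ x ∈ Icc (t i) (t (i + 1)), ∀ y ∈ Icc (t i) (t (i + 1)),
      Z m y - Z m x = (-1) ^ (m + 1 + i) * σ * (y - x)
  alt : ∃ τ : ℕ → ℝ, τ 0 = a ∧ (∀ i < m + r, τ i < τ (i + 1)) ∧ τ (m + r) ≤ b ∧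
    ∀ i ≤ m + r, Z 0 (τ i) = (-1) ^ i

/-- Karlin's solution of the end point problem, in terms of chains -/
theorem endpoint_le {m r : ℕ} {σ a b : ℝ} (hσ : 0 < σ) (hab : a ≤ b) {Z F : ℕ → ℝ → ℝ}
    (hZ : ZolL m r σ a b Z)
    (hF : Cl m σ a b F) {k : ℕ} (hk1 : 1 ≤ k) (hk2 : k ≤ m) :
    |F k a| ≤ (-1) ^ k * Z k a := by
  by_contra hcon
  push Not at hcon
  obtain ⟨t, ht0, ht1, htlt, hts⟩ := hZ.knots
  obtain ⟨τ, hτ0, hτlt, hτb, hτv⟩ := hZ.alt
  -- sign
  obtain ⟨ε, hε, hεF⟩ : ∃ ε : ℝ, |ε| = 1 ∧ (-1) ^ k * (ε * F k a) = |F k a| := by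
    rcases le_or_gt 0 ((-1) ^ k * F k a) with h | h
    · refine ⟨1, by simp, ?_⟩
      rw [one_mul, ← abs_of_nonneg h, abs_mul, abs_pow, abs_neg, abs_one, one_pow, one_mul]
    · refine ⟨-1, by simp, ?_⟩
      have : |(-1) ^ k * F k a| = |F k a| := by
        rw [abs_mul, abs_pow, abs_neg, abs_one, one_pow, one_mul]
      rw [← this, abs_of_neg h]; ring
  obtain ⟨c, hc0, hc1, hcZ⟩ : ∃ c : ℝ, 0 < c ∧ c < 1 ∧ (-1) ^ k * Z k a < c * |F k a| := by
    rcases eq_or_lt_of_le (abs_nonneg (F k a)) with h | h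
    · refine ⟨1 / 2, by norm_num, by norm_num, ?_⟩
      rw [← h] at hcon ⊢
      linarith
    · have h1 : max ((-1) ^ k * Z k a / |F k a|) 0 < 1 :=
        max_lt ((div_lt_one h).2 hcon) one_pos
      obtain ⟨c, hc1, hc2⟩ := exists_between h1
      refine ⟨c, lt_of_le_of_lt (le_max_right _ _) hc1, hc2, ?_⟩
      rw [← div_lt_iff₀ h]
      exact lt_of_le_of_lt (le_max_left _ _) hc1
  set D : ℕ → ℝ → ℝ := fun i x => Z i x - (c * ε) * F i x with hD
  have hDch : Chain m a b D := hZ.cl.chain.sub_smul hF.chain (c * ε)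
  have habsc : |c * ε| < 1 := by rw [abs_mul, hε, mul_one, abs_of_pos hc0]; exact hc1
  have hτmono : ∀ i ≤ m + r, a ≤ τ i := by
    intro i
    induction i with
    | zero => intro _; exact hτ0.ge
    | succ i ih => intro hi; exact (ih (by omega)).trans (hτlt i (by omega)).le
  have hτmono2 : ∀ d, ∀ i, i + d = m + r → τ i ≤ τ (m + r) := by
    intro d
    induction d with
    | zero => intro i hi; rw [show i = m + r by omega]
    | succ d ih => intro i hi; exact (hτlt i (by omega)).le.trans (ih (i + 1) (by omega))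
  have hτmem : ∀ i ≤ m + r, τ i ∈ Icc a b := fun i hi =>
    ⟨hτmono i hi, (hτmono2 (m + r - i) i (by omega)).trans hτb⟩
  have hfac : ∀ x ∈ Icc a b, |c * ε * F 0 x| < 1 := by
    intro x hx
    rw [abs_mul]
    have := hF.bd x hx
    nlinarith [abs_nonneg (c * ε), abs_nonneg (F 0 x)]
  have halt : AltS (m + r) 1 a b (D 0) τ := by
    refine ⟨hτmem, hτlt, ?_⟩
    intro i hi
    simp only [hD, one_mul]
    rw [hτv i hi]
    have h1 := abs_lt.1 (hfac (τ i) (hτmem i hi))
    rcases neg_one_pow_eq_or ℝ i with h | h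
    · rw [h]; linarith
    · rw [h]; linarith
  obtain ⟨q, hq, _, hq0⟩ := AltS.down (N := m + r - k) hDch k (j := 0) (s := 1) (p := τ)
    (by omega) (by rw [show m + r - k + k = m + r by omega]; exact halt)
  rw [zero_add, mul_one] at hq
  have hq1 : a < q 0 := by have := hq0 (by omega); rwa [hτ0] at this
  have hamem : a ∈ Icc a b := ⟨le_rfl, hab⟩
  have hDa : (-1) ^ k * D k a < 0 := by
    simp only [hD]
    have : (-1) ^ k * (Z k a - c * ε * F k a)
        = (-1) ^ k * Z k a - c * ((-1) ^ k * (ε * F k a)) := by ring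
    rw [this, hεF]; linarith
  have halt2 : AltS (m + r - k + 1) (-(-1) ^ k) a b (D k) (fun i => if i = 0 then a else q (i - 1)) := by
    refine ⟨?_, ?_, ?_⟩
    · intro i hi
      by_cases e : i = 0
      · simp only [e, if_true]; exact hamem
      · simp only [e, if_false]; exact hq.mem _ (by omega)
    · intro i hi
      by_cases e : i = 0
      · subst e; simpa using hq1
      · simp only [e, if_false, show ¬ (i + 1 = 0) by omega]
        rw [show i + 1 - 1 = (i - 1) + 1 by omega]
        exact hq.lt _ (by omega)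
    · intro i hi
      by_cases e : i = 0
      · simp only [e, if_true, pow_zero, mul_one]; linarith
      · simp only [e, if_false]
        have := hq.sgn (i - 1) (by omega)
        obtain ⟨l, rfl⟩ : ∃ l, i = l + 1 := ⟨i - 1, by omega⟩
        simp only [Nat.add_sub_cancel] at this ⊢
        rw [pow_succ]
        linarith
  obtain ⟨w, hw, _⟩ := AltS.down (N := r + 1) hDch (m - k) (j := k) (s := -(-1) ^ k)
    (by omega) (by rw [show r + 1 + (m - k) = m + r - k + 1 by omega]; exact halt2)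
  rw [show k + (m - k) = m by omega] at hw
  have hsg : (-1 : ℝ) ^ (m - k) * -(-1) ^ k = -(-1) ^ m := by
    rw [mul_neg, ← pow_add, show m - k + k = m by omega]
  rw [hsg] at hw
  refine no_alt_piecewise (g := fun x => (-1) ^ m * D m x) (w := w) ht0 ht1 ?_ ⟨hw.mem, hw.lt, ?_⟩
  · intro j hj x hx y hy hxy
    have htmono : ∀ i ≤ r + 1, a ≤ t i := by
      intro i
      induction i with
      | zero => intro _; exact ht0.ge
      | succ i ih => intro hi; exact (ih (by omega)).trans (htlt i (by omega)).le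
    have htmono2 : ∀ d, ∀ i, i + d = r + 1 → t i ≤ b := by
      intro d
      induction d with
      | zero => intro i hi; rw [show i = r + 1 by omega, ht1]
      | succ d ih => intro i hi; exact (htlt i (by omega)).le.trans (ih (i + 1) (by omega))
    have hta := htmono j (by omega)
    have htb := htmono2 (r + 1 - (j + 1)) (j + 1) (by omega)
    have h1 := hts j hj x hx y hy
    have h2 := hF.lip x ⟨hta.trans hx.1, hx.2.trans htb⟩ y ⟨hta.trans hy.1, hy.2.trans htb⟩
    have hd : 0 < y - x := by linarith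
    rw [abs_of_pos hd] at h2
    have h3 : |c * ε * (F m y - F m x)| < σ * (y - x) := by
      rw [abs_mul]
      have : 0 < σ * (y - x) := by positivity
      nlinarith [abs_nonneg (c * ε), abs_nonneg (F m y - F m x)]
    simp only [hD]
    have e : (-1 : ℝ) ^ j * ((-1) ^ m * (Z m y - c * ε * F m y))
        - (-1) ^ j * ((-1) ^ m * (Z m x - c * ε * F m x))
        = (-1) ^ (j + m) * (Z m y - Z m x) - (-1) ^ (j + m) * (c * ε * (F m y - F m x)) := by
      rw [pow_add]; ring
    rw [h1] at e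
    have e2 : (-1 : ℝ) ^ (j + m) * ((-1) ^ (m + 1 + j) * σ * (y - x)) = -(σ * (y - x)) := by
      have : (-1 : ℝ) ^ (j + m) * (-1) ^ (m + 1 + j) = -1 := by
        rw [← pow_add, show j + m + (m + 1 + j) = 2 * (j + m) + 1 by ring, pow_succ, pow_mul]
        norm_num
      calc (-1 : ℝ) ^ (j + m) * ((-1) ^ (m + 1 + j) * σ * (y - x))
          = ((-1 : ℝ) ^ (j + m) * (-1) ^ (m + 1 + j)) * (σ * (y - x)) := by ring
        _ = -(σ * (y - x)) := by rw [this]; ring
    rw [e2] at e
    have h4 := abs_lt.1 h3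
    rcases neg_one_pow_eq_or ℝ (j + m) with h5 | h5
    · rw [h5] at e; linarith
    · rw [h5] at e; linarith
  · intro i hi
    have h1 := hw.sgn i hi
    have e : -1 * (-1 : ℝ) ^ i * ((-1) ^ m * D m (w i)) = -(-1) ^ m * (-1) ^ i * D m (w i) := by
      ring
    rw [e]; exact h1

end Run7.h734
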