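import Mathlib
import Pool.Agent.Run7.h734.Endpoint
import Pool.Agent.Run7.h734.CritOne

/-!
Zolotarev perfect splines on `[-1,1]` and the reduction of the problem to interior maxima.
-/

open Set MeasureTheory

namespace Run7.h734

/-- `Z` is a Zolotarev perfect spline of degree `n` on `[-1,1]` with `r` knots and parameter `σ`:
`|Z| ≤ 1`, `Z^{(n)} = σ, -σ, σ, ...` on the `r + 1` intervals counted from the right, and
`Z = 1, -1, 1, ...` at `n + r` points counted from the right, the first of which is `1`. -/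
structure IsZol (n r : ℕ) (σ : ℝ) (Z : ℝ → ℝ) : Prop where
  mem : W n σ Z
  knots : ∃ t : ℕ → ℝ, t 0 = 1 ∧ t (r + 1) = -1 ∧ (∀ i ≤ r, t (i + 1) < t i) ∧
    ∀ i ≤ r, ∀ x ∈ Ioo (t (i + 1)) (t i), HasDerivAt (der (n - 1) Z) ((-1) ^ i * σ) x
  alt : ∃ τ : ℕ → ℝ, τ 0 = 1 ∧ (∀ i, i + 1 < n + r → τ (i + 1) < τ i) ∧ -1 ≤ τ (n + r - 1) ∧
    ∀ i < n + r, Z (τ i) = (-1) ^ i

/-- The problem is solved for the given `n, k, σ`: the supremum is the end point supremum, it can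
be attained only at the end points, and it is the end point value of the Zolotarev spline. -/
structure Karlin (n k : ℕ) (σ : ℝ) : Prop where
  bdd : BddAbove ((fun f => unorm (der k f)) '' {f | W n σ f})
  value : M n k σ = E n k σ
  only_end : ∀ f, W n σ f → unorm (der k f) = M n k σ → ∀ x ∈ Ioo (-1 : ℝ) 1,
    |der k f x| < M n k σ
  zol : ∀ r Z, IsZol n r σ Z → unorm (der k Z) = M n k σ ∧ der k Z 1 = M n k σ

theorem W.reflect {n : ℕ} {σ : ℝ} (hσ : 0 ≤ σ) {f : ℝ → ℝ} (hf : W n σ f) :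
    ∃ g, W n σ g ∧ ∀ i ≤ n - 1, ∀ x ∈ Icc (-1 : ℝ) 1, der i g x = (-1) ^ i * der i f (-x) := by
  have h := hf.toCl.reflect
  refine ⟨_, h.toW hσ, ?_⟩
  intro i hi x hx
  rw [h.chain.der_eq i hi x hx]
  simp

theorem W.continuousOn_der {n : ℕ} {σ : ℝ} (hσ : 0 ≤ σ) {f : ℝ → ℝ} (hf : W n σ f) {k : ℕ}
    (hk : k ≤ n - 1) : ContinuousOn (der k f) (Icc (-1) 1) :=
  hf.toCl.continuousOn hσ hk

theorem bddAbove_image {g : ℝ → ℝ} (hg : ContinuousOn g (Icc (-1) 1)) :
    BddAbove ((fun x => |g x|) '' Icc (-1) 1) :=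
  (isCompact_Icc.image_of_continuousOn hg.abs).bddAbove

theorem le_unorm {g : ℝ → ℝ} (hg : ContinuousOn g (Icc (-1) 1)) {x : ℝ}
    (hx : x ∈ Icc (-1 : ℝ) 1) : |g x| ≤ unorm g :=
  le_csSup (bddAbove_image hg) ⟨x, hx, rfl⟩

theorem exists_unorm {g : ℝ → ℝ} (hg : ContinuousOn g (Icc (-1) 1)) :
    ∃ x ∈ Icc (-1 : ℝ) 1, |g x| = unorm g ∧ ∀ y ∈ Icc (-1 : ℝ) 1, |g y| ≤ |g x| := by
  obtain ⟨x, hx, hmax⟩ := isCompact_Icc.exists_isMaxOn (nonempty_Icc.2 (by norm_num)) hg.abs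
  have h1 : ∀ y ∈ Icc (-1 : ℝ) 1, |g y| ≤ |g x| := fun y hy => hmax hy
  refine ⟨x, hx, le_antisymm (le_unorm hg hx) ?_, h1⟩
  apply csSup_le (Set.Nonempty.image _ (nonempty_Icc.2 (by norm_num)))
  rintro _ ⟨y, hy, rfl⟩
  exact h1 y hy

theorem W_zero {n : ℕ} {σ : ℝ} (hσ : 0 ≤ σ) : W n σ (fun _ => 0) := by
  have : Cl (n - 1) σ (-1) 1 (fun _ _ => (0 : ℝ)) := by
    refine ⟨fun i _ x _ => hasDerivWithinAt_const _ _ _, ?_, ?_⟩
    · intro x _ y _; simp; positivity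
    · intro x _; simp
  exact this.toW hσ

theorem IsZol.toZolL {n r : ℕ} {σ : ℝ} (hσ : 0 ≤ σ) (hn : 1 ≤ n) {Z : ℝ → ℝ}
    (hZ : IsZol n r σ Z) :
    ZolL (n - 1) r σ (-1) 1 (fun i x => (-1) ^ i * der i Z (-1 * x + 0)) := by
  refine ⟨hZ.mem.toCl.reflect, ?_, ?_⟩
  · obtain ⟨t, ht0, ht1, htlt, htd⟩ := hZ.knots
    refine ⟨fun i => -t i, by simp [ht0], by simp [ht1], fun i hi => by
      have := htlt i hi; simpa using this, ?_⟩
    have hle1 : ∀ i ≤ r + 1, t i ≤ 1 := by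
      intro i
      induction i with
      | zero => intro _; exact ht0.le
      | succ i ih => intro hi; exact (htlt i (by omega)).le.trans (ih (by omega))
    have hge1 : ∀ d, ∀ i, i + d = r + 1 → -1 ≤ t i := by
      intro d
      induction d with
      | zero => intro i hi; rw [show i = r + 1 by omega, ht1]
      | succ d ih => intro i hi; exact (ih (i + 1) (by omega)).trans (htlt i (by omega)).le
    intro i hi
    have hcont := hZ.mem.continuousOn_der hσ (k := n - 1) le_rfl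
    have key : ∀ x ∈ Icc (t (i + 1)) (t i), ∀ y ∈ Icc (t (i + 1)) (t i), x < y →
        der (n - 1) Z y - der (n - 1) Z x = (-1) ^ i * σ * (y - x) := by
      intro x hx y hy hxy
      have hsub : Icc x y ⊆ Icc (-1 : ℝ) 1 := by
        apply Icc_subset_Icc
        · exact (hge1 (r + 1 - (i + 1)) (i + 1) (by omega)).trans hx.1
        · exact hy.2.trans (hle1 i (by omega))
      obtain ⟨z, hz, hz2⟩ := exists_hasDerivAt_eq_slope (der (n - 1) Z)
        (fun _ => (-1) ^ i * σ) hxy (hcont.mono hsub)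
        (fun z hz => htd i hi z ⟨lt_of_le_of_lt hx.1 hz.1, lt_of_lt_of_le hz.2 hy.2⟩)
      rw [hz2, div_mul_cancel₀ _ (sub_pos.2 hxy).ne']
    have key2 : ∀ x ∈ Icc (t (i + 1)) (t i), ∀ y ∈ Icc (t (i + 1)) (t i),
        der (n - 1) Z y - der (n - 1) Z x = (-1) ^ i * σ * (y - x) := by
      intro x hx y hy
      rcases lt_trichotomy x y with h | h | h
      · exact key x hx y hy h
      · rw [h]; simp
      · have := key y hy x hx h; linarith
    intro x hx y hy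
    have hx' : -1 * x + 0 ∈ Icc (t (i + 1)) (t i) := by
      constructor <;> linarith [hx.1, hx.2]
    have hy' : -1 * y + 0 ∈ Icc (t (i + 1)) (t i) := by
      constructor <;> linarith [hy.1, hy.2]
    rw [← mul_sub, key2 _ hx' _ hy']
    rw [pow_add, pow_add]
    ring
  · obtain ⟨τ, hτ0, hτlt, hτb, hτv⟩ := hZ.alt
    refine ⟨fun i => -τ i, by simp [hτ0], ?_, ?_, ?_⟩
    · intro i hi
      have := hτlt i (by omega)
      simpa using this
    · rw [show n - 1 + r = n + r - 1 by omega]; linarith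
    · intro i hi
      have := hτv i (by omega)
      simpa [der] using this

/-- the end point theorem on `[-1,1]` -/
theorem IsZol.endpoint {n r : ℕ} {σ : ℝ} (hσ : 0 < σ) (hn : 1 ≤ n) {Z f : ℝ → ℝ}
    (hZ : IsZol n r σ Z) (hf : W n σ f) {k : ℕ} (hk1 : 1 ≤ k) (hk2 : k ≤ n - 1) :
    |der k f 1| ≤ der k Z 1 := by
  have h1 := endpoint_le hσ (by norm_num) (hZ.toZolL hσ.le hn) hf.toCl.reflect hk1 hk2
  have h2 : |(-1 : ℝ) ^ k * der k f (-1 * -1 + 0)| = |der k f 1| := by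
    rw [abs_mul, abs_pow, abs_neg, abs_one, one_pow, one_mul]
    norm_num
  have h3 : (-1 : ℝ) ^ k * ((-1) ^ k * der k Z (-1 * -1 + 0)) = der k Z 1 := by
    rw [← mul_assoc, ← mul_pow]; norm_num
  rw [h2, h3] at h1
  exact h1

/-- reduction to interior maxima -/
theorem karlin_of {n k : ℕ} {σ : ℝ} (hσ : 0 < σ) (hk1 : 1 ≤ k) (hk2 : k ≤ n - 1)
    (hbdd : ∃ B, ∀ f, W n σ f → |der k f 1| ≤ B)
    (hInt : ∀ f, W n σ f → ∀ x ∈ Ioo (-1 : ℝ) 1,
      (∀ y ∈ Icc (-1 : ℝ) 1, |der k f y| ≤ |der k f x|) → |der k f x| < E n k σ) :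
    Karlin n k σ := by
  obtain ⟨B, hB⟩ := hbdd
  have hEb : BddAbove ((fun f => |der k f 1|) '' {f | W n σ f}) := by
    refine ⟨B, ?_⟩
    rintro _ ⟨f, hf, rfl⟩
    exact hB f hf
  have hE1 : ∀ f, W n σ f → |der k f 1| ≤ E n k σ := fun f hf => le_csSup hEb ⟨f, hf, rfl⟩
  have hE2 : ∀ f, W n σ f → |der k f (-1)| ≤ E n k σ := by
    intro f hf
    obtain ⟨g, hg, hgf⟩ := hf.reflect hσ.le
    have h1 := hE1 g hg
    rw [hgf k hk2 1 (by simp), abs_mul, abs_pow, abs_neg, abs_one, one_pow, one_mul] at h1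
    exact h1
  have hU : ∀ f, W n σ f → unorm (der k f) ≤ E n k σ := by
    intro f hf
    obtain ⟨x, hx, hx1, hx2⟩ := exists_unorm (hf.continuousOn_der hσ.le hk2)
    rw [← hx1]
    rcases eq_or_lt_of_le hx.1 with h | h
    · rw [← h]; exact hE2 f hf
    rcases eq_or_lt_of_le hx.2 with h' | h'
    · rw [h']; exact hE1 f hf
    exact (hInt f hf x ⟨h, h'⟩ hx2).le
  have hbd : BddAbove ((fun f => unorm (der k f)) '' {f | W n σ f}) := by
    refine ⟨E n k σ, ?_⟩
    rintro _ ⟨f, hf, rfl⟩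
    exact hU f hf
  have hUM : ∀ f, W n σ f → unorm (der k f) ≤ M n k σ := fun f hf => le_csSup hbd ⟨f, hf, rfl⟩
  have hval : M n k σ = E n k σ := by
    apply le_antisymm
    · apply csSup_le (Set.Nonempty.image _ ⟨_, W_zero hσ.le⟩)
      rintro _ ⟨f, hf, rfl⟩
      exact hU f hf
    · apply csSup_le (Set.Nonempty.image _ ⟨_, W_zero hσ.le⟩)
      rintro _ ⟨f, hf, rfl⟩
      exact (le_unorm (hf.continuousOn_der hσ.le hk2) (by simp)).trans (hUM f hf)
  refine ⟨hbd, hval, ?_, ?_⟩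
  · intro f hf hfM x hx
    have hx' : x ∈ Icc (-1 : ℝ) 1 := Ioo_subset_Icc_self hx
    have hc := hf.continuousOn_der hσ.le hk2
    have h1 : |der k f x| ≤ unorm (der k f) := le_unorm hc hx'
    rcases eq_or_lt_of_le h1 with h2 | h2
    · have := hInt f hf x hx (fun y hy => by rw [h2]; exact le_unorm hc hy)
      rw [hval]; exact this
    · rw [← hfM]; exact h2
  · intro r Z hZ
    have hn : 1 ≤ n := by omega
    have h1 : E n k σ ≤ der k Z 1 := by
      apply csSup_le (Set.Nonempty.image _ ⟨_, W_zero hσ.le⟩)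
      rintro _ ⟨f, hf, rfl⟩
      exact hZ.endpoint hσ hn hf hk1 hk2
    have h2 : |der k Z 1| ≤ E n k σ := hE1 Z hZ.mem
    have h3 := le_abs_self (der k Z 1)
    have h4 : |der k Z 1| ≤ unorm (der k Z) :=
      le_unorm (hZ.mem.continuousOn_der hσ.le hk2) (by simp)
    have h5 := hU Z hZ.mem
    rw [hval]
    constructor <;> linarith

end Run7.h734
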