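import Mathlib
import Pool.Agent.Run7.h734.Karlin

/-!
Scaling, Chebyshev polynomials as members of the class, boundedness of end point values.
-/

open Set MeasureTheory

namespace Run7.h734

theorem Cl.weaken {m : ℕ} {σ σ' a b : ℝ} {F : ℕ → ℝ → ℝ} (hF : Cl m σ a b F) (h : σ ≤ σ') :
    Cl m σ' a b F :=
  ⟨hF.chain, fun x hx y hy => (hF.lip x hx y hy).trans
    (mul_le_mul_of_nonneg_right h (abs_nonneg _)), hF.bd⟩

theorem Cl.affine {m : ℕ} {σ a b : ℝ} {F : ℕ → ℝ → ℝ} (hF : Cl m σ a b F) {c d a' b' : ℝ}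
    (hmap : ∀ x ∈ Icc a' b', c * x + d ∈ Icc a b) :
    Cl m (|c| ^ (m + 1) * σ) a' b' (fun i x => c ^ i * F i (c * x + d)) := by
  refine ⟨hF.chain.affine hmap, ?_, ?_⟩
  · intro x hx y hy
    rw [← mul_sub, abs_mul, abs_pow]
    have h1 := hF.lip _ (hmap x hx) _ (hmap y hy)
    rw [show c * y + d - (c * x + d) = c * (y - x) by ring, abs_mul] at h1
    calc |c| ^ m * |F m (c * y + d) - F m (c * x + d)| ≤ |c| ^ m * (σ * (|c| * |y - x|)) :=
          mul_le_mul_of_nonneg_left h1 (by positivity)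
      _ = |c| ^ (m + 1) * σ * |y - x| := by ring
  · intro x hx
    simpa using hF.bd _ (hmap x hx)

/-- chains of affinely transformed Chebyshev polynomials belong to the class -/
theorem cl_dT (N m : ℕ) {c d a b : ℝ} (hmap : ∀ x ∈ Icc a b, |c * x + d| ≤ 1) :
    Cl m (|c| ^ (m + 1) * dT N (m + 1) 1) a b (fun i x => c ^ i * dT N i (c * x + d)) := by
  have hch := chain_dT N (m + 1) c d a b
  refine ⟨hch.lower (by omega), ?_, ?_⟩
  · have key : ∀ x ∈ Icc a b, ∀ y ∈ Icc a b, x < y →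
        |c ^ m * dT N m (c * y + d) - c ^ m * dT N m (c * x + d)|
          ≤ |c| ^ (m + 1) * dT N (m + 1) 1 * |y - x| := by
      intro x hx y hy hxy
      obtain ⟨q, hq1, hq2, hq⟩ := mvt (hch m (by omega)) hx hy hxy
      rw [hq, abs_mul, abs_mul, abs_pow]
      have := dT_abs_le N (m + 1) (hmap q ⟨hx.1.trans hq1.le, hq2.le.trans hy.2⟩)
      gcongr
    intro x hx y hy
    rcases lt_trichotomy x y with h | h | h
    · exact key x hx y hy h
    · rw [h]; simp
    · rw [abs_sub_comm, abs_sub_comm y x]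
      exact key y hy x hx h
  · intro x hx
    simpa using dT_zero_abs_le N (hmap x hx)

/-- `T_n` (transplanted to `[-1, -1 + 2/μ]`) as a left Zolotarev spline without knots -/
theorem zolL_dT {n : ℕ} (hn : 1 ≤ n) {μ : ℝ} (hμ : 1 ≤ μ) :
    ZolL (n - 1) 0 (μ ^ n * sig n) (-1) (-1 + 2 / μ)
      (fun i x => (-μ) ^ i * dT n i (-μ * x + (1 - μ))) := by
  have hμ0 : 0 < μ := by linarith
  refine ⟨?_, ?_, ?_⟩
  · have := cl_dT n (n - 1) (c := -μ) (d := 1 - μ) (a := -1) (b := -1 + 2 / μ) (by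
      intro x hx
      rw [abs_le]
      have h1 := hx.1
      have h2 : μ * (x + 1) ≤ 2 := by
        have := mul_le_mul_of_nonneg_left (show x + 1 ≤ 2 / μ by linarith [hx.2]) hμ0.le
        rwa [mul_div_cancel₀ _ hμ0.ne'] at this
      constructor <;> nlinarith)
    rw [abs_neg, abs_of_pos hμ0, show n - 1 + 1 = n by omega, dT_top n (by omega)] at this
    exact this
  · refine ⟨fun i => if i = 0 then -1 else -1 + 2 / μ, by simp, by simp, ?_, ?_⟩
    · intro i hi
      obtain rfl : i = 0 := by omega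
      simp only [if_true, zero_add, one_ne_zero, if_false]
      have : 0 < 2 / μ := by positivity
      linarith
    · intro i hi x _ y _
      obtain rfl : i = 0 := by omega
      rw [← mul_sub, dT_pred_sub n hn]
      rw [show n - 1 + 1 + 0 = n by omega]
      have e : (-μ) ^ (n - 1) * (-μ) = (-1) ^ n * μ ^ n := by
        rw [← pow_succ, show n - 1 + 1 = n by omega, neg_pow]
      calc (-μ) ^ (n - 1) * (sig n * (-μ * y + (1 - μ) - (-μ * x + (1 - μ))))
          = ((-μ) ^ (n - 1) * (-μ)) * sig n * (y - x) := by ring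
        _ = _ := by rw [e]; ring
  · refine ⟨fun i => -1 + (1 - Real.cos ((i : ℝ) * Real.pi / n)) / μ, by simp, ?_, ?_, ?_⟩
    · intro i hi
      have := node_mono (n := n) (by omega) (i := i) (by omega)
      have : (1 - Real.cos ((i : ℝ) * Real.pi / n)) / μ
          < (1 - Real.cos (((i + 1 : ℕ) : ℝ) * Real.pi / n)) / μ :=
        div_lt_div_of_pos_right (by linarith) hμ0
      simpa using this
    · have h4 := Real.neg_one_le_cos (((n - 1 + 0 : ℕ) : ℝ) * Real.pi / n)
      have : (1 - Real.cos (((n - 1 + 0 : ℕ) : ℝ) * Real.pi / n)) / μ ≤ 2 / μ :=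
        div_le_div_of_nonneg_right (by linarith) hμ0.le
      linarith
    · intro i hi
      have harg2 : -μ * (-1 + (1 - Real.cos ((i : ℝ) * Real.pi / n)) / μ) + (1 - μ)
          = Real.cos ((i : ℝ) * Real.pi / n) := by
        field_simp; ring
      simp only [pow_zero, one_mul]
      rw [harg2, dT_node (by omega)]

/-- a scale `μ ≥ 1` with `σ ≤ σ_n μ^n`, and equality if `σ ≥ σ_n` -/
theorem exists_scale {n : ℕ} (hn : 1 ≤ n) {σ : ℝ} (h : sig n ≤ σ) :
    ∃ μ : ℝ, 1 ≤ μ ∧ σ = μ ^ n * sig n := by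
  have hs := sig_pos n
  have h1 : 1 ≤ σ / sig n := by rwa [le_div_iff₀ hs, one_mul]
  refine ⟨(σ / sig n) ^ ((n : ℝ)⁻¹), Real.one_le_rpow h1 (by positivity), ?_⟩
  rw [Real.rpow_inv_natCast_pow (by linarith) (by omega)]
  field_simp

theorem endpoint_bdd {n k : ℕ} (hk1 : 1 ≤ k) (hk2 : k ≤ n - 1) {σ : ℝ} :
    ∃ B, ∀ f, W n σ f → |der k f 1| ≤ B := by
  have hn : 1 ≤ n := by omega
  obtain ⟨μ, hμ, hμσ⟩ := exists_scale hn (σ := max σ (sig n)) (le_max_right _ _)
  have hμ0 : 0 < μ := by linarith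
  have hZ := zolL_dT hn hμ
  refine ⟨(-1) ^ k * ((-μ) ^ k * dT n k (-μ * -1 + (1 - μ))), fun f hf => ?_⟩
  have h1 := hf.toCl.reflect.weaken (le_max_left σ (sig n))
  have hle : -1 + 2 / μ ≤ 1 := by
    have : 2 / μ ≤ 2 := div_le_self (by norm_num) hμ
    linarith
  have h2 := h1.mono (a' := -1) (b' := -1 + 2 / μ) le_rfl hle
  rw [hμσ] at h2
  have hpos : 0 < μ ^ n * sig n := by have := sig_pos n; positivity
  have h3 := endpoint_le hpos (by have : 0 < 2 / μ := by positivity
                                  linarith) hZ h2 hk1 hk2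
  have h4 : |(-1 : ℝ) ^ k * der k f (-1 * -1 + 0)| = |der k f 1| := by
    rw [abs_mul, abs_pow, abs_neg, abs_one, one_pow, one_mul]
    norm_num
  rw [h4] at h3
  exact h3

end Run7.h734
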