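import Mathlib
import Pool.Agent.Run7.h734.Scale
import Pool.Agent.Run7.h734.NumOne

/-!
The case `k = 1`, all `n ≥ 4`, all `σ > 0`.
-/

open Set MeasureTheory

namespace Run7.h734

theorem dT_one_one (N : ℕ) : dT N 1 1 = (N : ℝ) ^ 2 := by
  have := Polynomial.Chebyshev.derivative_T_eval_one (R := ℝ) (N : ℤ)
  simpa [dT] using this

/-- A member of the class given by a chain contributes to the end point supremum. -/
theorem le_E_of_left {n k : ℕ} {σ : ℝ} (hσ : 0 ≤ σ) (hk1 : 1 ≤ k) (hk2 : k ≤ n - 1)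
    {F : ℕ → ℝ → ℝ} (hF : Cl (n - 1) σ (-1) 1 F) : |F k (-1)| ≤ E n k σ := by
  obtain ⟨B, hB⟩ := endpoint_bdd hk1 hk2 (σ := σ)
  have hEb : BddAbove ((fun f => |der k f 1|) '' {f | W n σ f}) := by
    refine ⟨B, ?_⟩
    rintro _ ⟨f, hf, rfl⟩
    exact hB f hf
  obtain ⟨g, hg, hgf⟩ := (hF.toW hσ).reflect hσ
  have h1 : |der k g 1| ≤ E n k σ := le_csSup hEb ⟨g, hg, rfl⟩
  rw [hgf k hk2 1 (by simp), abs_mul, abs_pow, abs_neg, abs_one, one_pow, one_mul,
    hF.chain.der_eq k hk2 (-1) (by simp)] at h1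
  exact h1

theorem le_E_of_right {n k : ℕ} {σ : ℝ} (hσ : 0 ≤ σ) (hk1 : 1 ≤ k) (hk2 : k ≤ n - 1)
    {F : ℕ → ℝ → ℝ} (hF : Cl (n - 1) σ (-1) 1 F) : |F k 1| ≤ E n k σ := by
  obtain ⟨B, hB⟩ := endpoint_bdd hk1 hk2 (σ := σ)
  have hEb : BddAbove ((fun f => |der k f 1|) '' {f | W n σ f}) := by
    refine ⟨B, ?_⟩
    rintro _ ⟨f, hf, rfl⟩
    exact hB f hf
  have h1 : |der k (F 0) 1| ≤ E n k σ := le_csSup hEb ⟨_, hF.toW hσ, rfl⟩
  rw [hF.chain.der_eq k hk2 1 (by simp)] at h1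
  exact h1

/-- lower bound for the end point supremum of `f'`, `σ ≥ σ_n` -/
theorem E_one_ge {n : ℕ} (hn : 2 ≤ n) {μ : ℝ} (hμ : 1 ≤ μ) {ρ : ℝ} (hρ0 : 0 < ρ)
    (hρ : ρ ^ n = ((2 * n).factorial : ℝ) / 2) : μ * ρ ≤ E n 1 (μ ^ n * sig n) := by
  have hμ0 : 0 < μ := by linarith
  -- choose `N` large
  obtain ⟨N, hN⟩ := exists_nat_ge (μ * ρ + 1)
  have hN1 : (1 : ℝ) ≤ N := by nlinarith [mul_pos hμ0 hρ0]
  have hN0 : (0 : ℝ) < N := by linarith
  have hNle : μ * ρ ≤ (N : ℝ) ^ 2 := by nlinarith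
  set b : ℝ := μ * ρ / (N : ℝ) ^ 2 with hb
  have hb0 : 0 < b := by positivity
  have hb1 : b ≤ 1 := by rw [hb, div_le_one (by positivity)]; exact hNle
  have hcl := cl_dT N (n - 1) (c := -b) (d := 1 - b) (a := -1) (b := 1) (by
    intro x hx
    rw [abs_le]
    constructor <;> nlinarith [hx.1, hx.2])
  rw [abs_neg, abs_of_pos hb0, show n - 1 + 1 = n by omega] at hcl
  have hle : b ^ n * dT N n 1 ≤ μ ^ n * sig n := by
    have h1 := dT_one_le N n
    have hp : 0 < ∏ l ∈ Finset.range n, (2 * (l : ℝ) + 1) :=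
      Finset.prod_pos fun l _ => by positivity
    have h2 := prod_odd n
    have h3 : dT N n 1 ≤ (N : ℝ) ^ (2 * n) / ∏ l ∈ Finset.range n, (2 * (l : ℝ) + 1) := by
      rw [le_div_iff₀ hp, mul_comm]; exact h1
    calc b ^ n * dT N n 1 ≤ b ^ n * ((N : ℝ) ^ (2 * n) / ∏ l ∈ Finset.range n, (2 * (l : ℝ) + 1)) :=
          mul_le_mul_of_nonneg_left h3 (by positivity)
      _ = μ ^ n * (ρ ^ n / ∏ l ∈ Finset.range n, (2 * (l : ℝ) + 1)) := by
          rw [hb, div_pow, mul_pow, ← pow_mul]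
          field_simp
      _ = μ ^ n * sig n := by
          rw [hρ]
          congr 1
          rw [div_eq_iff hp.ne', div_eq_iff (by norm_num)]
          rw [← h2]
          unfold sig
          have : (2 : ℝ) ^ n = 2 ^ (n - 1) * 2 := by
            rw [← pow_succ, show n - 1 + 1 = n by omega]
          rw [this]; ring
  have hcl2 := hcl.weaken hle
  have h1 := le_E_of_left (n := n) (k := 1) (by have := sig_pos n; positivity) le_rfl (by omega)
    hcl2
  have h2 : |(-b) ^ 1 * dT N 1 (-b * -1 + (1 - b))| = μ * ρ := by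
    have h3 : dT N 1 (-b * -1 + (1 - b)) = (N : ℝ) ^ 2 := by
      rw [show -b * -1 + (1 - b) = 1 by ring, dT_one_one]
    rw [h3, pow_one, abs_mul, abs_neg, abs_of_pos hb0, abs_of_pos (by positivity), hb]
    field_simp
  rw [h2] at h1
  exact h1

/-- lower bound for the end point supremum of `f'` by the Chebyshev polynomial `T_{n-1}` -/
theorem E_ge_pred {n k : ℕ} (hk1 : 1 ≤ k) (hk2 : k ≤ n - 1) {σ : ℝ} (hσ : 0 ≤ σ) :
    dT (n - 1) k 1 ≤ E n k σ := by
  have hcl := cl_dT (n - 1) (n - 1) (c := 1) (d := 0) (a := -1) (b := 1) (by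
    intro x hx
    rw [abs_le]
    constructor <;> linarith [hx.1, hx.2])
  have h0 : dT (n - 1) (n - 1 + 1) 1 = 0 := by
    unfold dT
    rw [Polynomial.iterate_derivative_eq_zero]
    · simp
    · rw [Polynomial.Chebyshev.natDegree_T]; simp
  rw [h0, mul_zero] at hcl
  have h1 := le_E_of_right (n := n) (k := k) hσ hk1 hk2 (hcl.weaken hσ)
  simp only [one_pow, one_mul, add_zero] at h1
  exact (le_abs_self _).trans h1

/-- critical values of `f'` on `[-1,1]` -/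
theorem crit_one {n : ℕ} (hn : 4 ≤ n) {θ v : ℝ} (h : Ang n θ v) {μ : ℝ} (hμ : 1 ≤ μ)
    {F : ℕ → ℝ → ℝ} (hF : Cl (n - 1) (μ ^ n * sig n) (-1) 1 F) {x₀ : ℝ}
    (hx : x₀ ∈ Icc (-1 : ℝ) 0) (h2 : F 2 x₀ = 0) : |F 1 x₀| ≤ μ * (2 * v) := by
  have hμ0 : 0 < μ := by linarith
  have hG := hF.affine (c := 1 / μ) (d := -1) (a' := 0) (b' := 2 * μ) (by
    intro x hx
    have h1 : 0 ≤ 1 / μ * x := mul_nonneg (by positivity) hx.1
    have h2 : 1 / μ * x ≤ 2 := by
      rw [div_mul_eq_mul_div, one_mul, div_le_iff₀ hμ0]; exact hx.2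
    constructor <;> linarith)
  have hs : |1 / μ| ^ (n - 1 + 1) * (μ ^ n * sig n) = sig n := by
    rw [abs_of_pos (by positivity), show n - 1 + 1 = n by omega, one_div, inv_pow]
    field_simp
  rw [hs] at hG
  have harg : 1 / μ * (μ * (x₀ + 1)) + -1 = x₀ := by field_simp; ring
  have h3 := crit_bound hn h (L := 2 * μ) (by linarith) hG (x₀ := μ * (x₀ + 1))
    (mul_nonneg hμ0.le (by linarith [hx.1])) (by nlinarith [hx.2])
    (by rw [harg, h2, mul_zero])
  simp only [pow_one] at h3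
  rw [harg, abs_mul, abs_of_pos (by positivity : 0 < 1 / μ), one_div, inv_mul_le_iff₀ hμ0] at h3
  exact h3

theorem crit_one' {n : ℕ} (hn : 4 ≤ n) {θ v : ℝ} (h : Ang n θ v) {μ : ℝ} (hμ : 1 ≤ μ)
    {F : ℕ → ℝ → ℝ} (hF : Cl (n - 1) (μ ^ n * sig n) (-1) 1 F) {x₀ : ℝ}
    (hx : x₀ ∈ Icc (-1 : ℝ) 1) (h2 : F 2 x₀ = 0) : |F 1 x₀| ≤ μ * (2 * v) := by
  rcases le_or_gt x₀ 0 with h0 | h0
  · exact crit_one hn h hμ hF ⟨hx.1, h0⟩ h2
  · have h3 := crit_one hn h hμ hF.reflect (x₀ := -x₀) ⟨by linarith [hx.2], by linarith⟩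
      (by simp [h2])
    simpa using h3

/-- an interior maximum of `|F k|` is a critical point -/
theorem crit_of_max {m k : ℕ} {F : ℕ → ℝ → ℝ} (hF : Chain m (-1) 1 F) (hk : k < m) {x : ℝ}
    (hx : x ∈ Ioo (-1 : ℝ) 1) (hmax : ∀ y ∈ Icc (-1 : ℝ) 1, |F k y| ≤ |F k x|) :
    F (k + 1) x = 0 := by
  have hnhds : Icc (-1 : ℝ) 1 ∈ nhds x := Icc_mem_nhds hx.1 hx.2
  have hd : HasDerivAt (F k) (F (k + 1) x) x :=
    (hF k hk x (Ioo_subset_Icc_self hx)).hasDerivAt hnhds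
  rcases le_total 0 (F k x) with h | h
  · have : IsLocalMax (F k) x := by
      filter_upwards [hnhds] with y hy
      have := hmax y hy
      rw [abs_of_nonneg h] at this
      exact (le_abs_self _).trans this
    exact this.hasDerivAt_eq_zero hd
  · have : IsLocalMin (F k) x := by
      filter_upwards [hnhds] with y hy
      have := hmax y hy
      rw [abs_of_nonpos h] at this
      have := (neg_le_abs (F k y)).trans this
      linarith
    exact this.hasDerivAt_eq_zero hd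

/-- The case `k = 1`. -/
theorem karlin_one {n : ℕ} (hn : 4 ≤ n) {σ : ℝ} (hσ : 0 < σ) : Karlin n 1 σ := by
  have hn' : (4 : ℝ) ≤ n := by exact_mod_cast hn
  obtain ⟨θ, v, hang, hv1, hv2⟩ := exists_const hn
  have hv := hang.vpos
  refine karlin_of hσ le_rfl (by omega) (endpoint_bdd le_rfl (by omega)) ?_
  intro f hf x hx hmax
  have hcl := hf.toCl
  have h2 : der 2 f x = 0 := crit_of_max hcl.chain (by omega) hx hmax
  rcases le_or_gt (sig n) σ with hge | hlt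
  · obtain ⟨μ, hμ, hμσ⟩ := exists_scale (by omega : 1 ≤ n) hge
    have hfac : (0 : ℝ) < ((2 * n).factorial : ℝ) / 2 := by
      have : 0 < ((2 * n).factorial : ℝ) := by exact_mod_cast Nat.factorial_pos _
      positivity
    set ρ : ℝ := (((2 * n).factorial : ℝ) / 2) ^ ((n : ℝ)⁻¹) with hρ
    have hρ0 : 0 < ρ := Real.rpow_pos_of_pos hfac _
    have hρn : ρ ^ n = ((2 * n).factorial : ℝ) / 2 :=
      Real.rpow_inv_natCast_pow hfac.le (by omega)
    have h3 := E_one_ge (by omega : 2 ≤ n) hμ hρ0 hρn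
    rw [← hμσ] at h3
    rw [hμσ] at hcl
    have h4 := crit_one' hn hang hμ hcl (Ioo_subset_Icc_self hx) h2
    have h5 : 2 * v < ρ := by
      apply lt_of_pow_lt_pow_left₀ n hρ0.le
      rw [hρn]; exact hv2
    have hμ0 : 0 < μ := by linarith
    calc |der 1 f x| ≤ μ * (2 * v) := h4
      _ < μ * ρ := mul_lt_mul_of_pos_left h5 hμ0
      _ ≤ E n 1 σ := h3
  · have hcl2 : Cl (n - 1) (1 ^ n * sig n) (-1) 1 (fun i => der i f) := by
      rw [one_pow, one_mul]; exact hcl.weaken hlt.le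
    have h4 := crit_one' hn hang le_rfl hcl2 (Ioo_subset_Icc_self hx) h2
    have h3 := E_ge_pred (n := n) (k := 1) le_rfl (by omega) hσ.le
    have h5 : dT (n - 1) 1 1 = ((n : ℝ) - 1) ^ 2 := by
      rw [dT_one_one, Nat.cast_sub (by omega : 1 ≤ n), Nat.cast_one]
    rw [h5] at h3
    calc |der 1 f x| ≤ 1 * (2 * v) := h4
      _ = 2 * v := one_mul _
      _ < _ := hv1
      _ ≤ _ := h3

end Run7.h734
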