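import Mathlib
import Pool.Agent.Run7.h734.One

/-!
Gluing of chains and the extension to the left of an interior point.
-/

open Set MeasureTheory

namespace Run7.h734

theorem Chain.glue {m : ℕ} {a b c : ℝ} {P F : ℕ → ℝ → ℝ} (hac : a ≤ c) (hcb : c ≤ b)
    (hP : Chain m a c P) (hF : Chain m c b F) (heq : ∀ i ≤ m, P i c = F i c) :
    Chain m a b (fun i x => if x < c then P i x else F i x) := by
  intro i hi x hx
  have hunion : Icc a b = Icc a c ∪ Icc c b := (Icc_union_Icc_eq_Icc hac hcb).symm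
  rw [hunion]
  have hL : ∀ y ∈ Icc a c, (if y < c then P i y else F i y) = P i y := by
    intro y hy
    rcases lt_or_eq_of_le hy.2 with h | h
    · rw [if_pos h]
    · rw [h, if_neg (lt_irrefl _), heq i hi.le]
  have hR : ∀ y ∈ Icc c b, (if y < c then P i y else F i y) = F i y := by
    intro y hy
    rw [if_neg (not_lt.2 hy.1)]
  apply HasDerivWithinAt.union
  · rcases le_or_gt x c with h | h
    · have h1 := (hP i hi x ⟨hx.1, h⟩).congr hL (hL x ⟨hx.1, h⟩)
      refine h1.congr_deriv ?_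
      show P (i + 1) x = if x < c then P (i + 1) x else F (i + 1) x
      rcases lt_or_eq_of_le h with h' | h'
      · rw [if_pos h']
      · rw [h', if_neg (lt_irrefl _), heq (i + 1) hi]
    · apply HasFDerivWithinAt.of_notMem_closure
      rw [closure_Icc]
      exact fun h' => absurd h'.2 (not_le.2 h)
  · rcases le_or_gt c x with h | h
    · have h1 := (hF i hi x ⟨h, hx.2⟩).congr hR (hR x ⟨h, hx.2⟩)
      refine h1.congr_deriv ?_
      show F (i + 1) x = if x < c then P (i + 1) x else F (i + 1) x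
      rw [if_neg (not_lt.2 h)]
    · apply HasFDerivWithinAt.of_notMem_closure
      rw [closure_Icc]
      exact fun h' => absurd h'.1 (not_le.2 h)

theorem lip_glue {σ a b c : ℝ} {p f : ℝ → ℝ} (heq : p c = f c)
    (hp : ∀ x ∈ Icc a c, ∀ y ∈ Icc a c, |p y - p x| ≤ σ * |y - x|)
    (hf : ∀ x ∈ Icc c b, ∀ y ∈ Icc c b, |f y - f x| ≤ σ * |y - x|) :
    ∀ x ∈ Icc a b, ∀ y ∈ Icc a b,
      |(if y < c then p y else f y) - (if x < c then p x else f x)| ≤ σ * |y - x| := by
  have key : ∀ x ∈ Icc a b, ∀ y ∈ Icc a b, x ≤ y →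
      |(if y < c then p y else f y) - (if x < c then p x else f x)| ≤ σ * |y - x| := by
    intro x hx y hy hxy
    by_cases h1 : y < c
    · have h2 : x < c := lt_of_le_of_lt hxy h1
      rw [if_pos h1, if_pos h2]
      exact hp x ⟨hx.1, h2.le⟩ y ⟨hy.1, h1.le⟩
    · push Not at h1
      by_cases h2 : x < c
      · rw [if_neg (not_lt.2 h1), if_pos h2]
        have e1 := hp x ⟨hx.1, h2.le⟩ c ⟨hx.1.trans h2.le, le_rfl⟩
        have e2 := hf c ⟨le_rfl, h1.trans hy.2⟩ y ⟨h1, hy.2⟩
        rw [abs_of_nonneg (show (0:ℝ) ≤ c - x by linarith)] at e1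
        rw [abs_of_nonneg (show (0:ℝ) ≤ y - c by linarith)] at e2
        rw [abs_of_nonneg (show (0:ℝ) ≤ y - x by linarith)]
        calc |f y - p x| = |(f y - f c) + (p c - p x)| := by rw [heq]; congr 1; ring
          _ ≤ |f y - f c| + |p c - p x| := abs_add_le _ _
          _ ≤ σ * (y - c) + σ * (c - x) := add_le_add e2 e1
          _ = σ * (y - x) := by ring
      · push Not at h2
        rw [if_neg (not_lt.2 h1), if_neg (not_lt.2 h2)]
        exact hf x ⟨h2, hx.2⟩ y ⟨h1, hy.2⟩
  intro x hx y hy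
  rcases le_total x y with h | h
  · exact key x hx y hy h
  · rw [abs_sub_comm, abs_sub_comm y x]
    exact key y hy x hx h

/-- the Taylor polynomial of order `m` at `c` with values `v i = f^{(i)}(c)`, plus a top order term
of the derivative `κ` of order `m + 1`; this is its `i`-th derivative -/
noncomputable def tay (m : ℕ) (v : ℕ → ℝ) (κ c : ℝ) (i : ℕ) (x : ℝ) : ℝ :=
  ∑ j ∈ Finset.range (m + 1 - i), v (i + j) * (x - c) ^ j / (j.factorial : ℝ)
    + κ * (x - c) ^ (m + 1 - i) / ((m + 1 - i).factorial : ℝ)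

theorem hasDerivAt_pow_div (c : ℝ) (j : ℕ) (x : ℝ) :
    HasDerivAt (fun x => (x - c) ^ (j + 1) / ((j + 1).factorial : ℝ))
      ((x - c) ^ j / (j.factorial : ℝ)) x := by
  have h1 : HasDerivAt (fun x : ℝ => x - c) 1 x := (hasDerivAt_id x).sub_const c
  have h2 := (h1.fun_pow (j + 1)).div_const ((j + 1).factorial : ℝ)
  refine h2.congr_deriv ?_
  rw [Nat.factorial_succ]
  have : (j.factorial : ℝ) ≠ 0 := by positivity
  push_cast
  field_simp

theorem tay_hasDerivAt (m : ℕ) (v : ℕ → ℝ) (κ c : ℝ) {i : ℕ} (hi : i < m + 1) (x : ℝ) :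
    HasDerivAt (tay m v κ c i) (tay m v κ c (i + 1) x) x := by
  unfold tay
  obtain ⟨d, hd⟩ : ∃ d, m + 1 - i = d + 1 := ⟨m - i, by omega⟩
  rw [hd, show m + 1 - (i + 1) = d by omega]
  have h1 : HasDerivAt (fun x => ∑ j ∈ Finset.range (d + 1), v (i + j) * (x - c) ^ j /
      (j.factorial : ℝ)) (∑ j ∈ Finset.range d, v (i + 1 + j) * (x - c) ^ j / (j.factorial : ℝ)) x := by
    have h2 : (fun x => ∑ j ∈ Finset.range (d + 1), v (i + j) * (x - c) ^ j / (j.factorial : ℝ))
        = fun x => ∑ j ∈ Finset.range d, v (i + 1 + j) *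
          ((x - c) ^ (j + 1) / ((j + 1).factorial : ℝ)) + v i := by
      funext y
      rw [Finset.sum_range_succ']
      simp only [pow_zero, Nat.factorial_zero, Nat.cast_one, mul_one, div_one, add_zero]
      congr 1
      apply Finset.sum_congr rfl
      intro j _
      rw [show i + (j + 1) = i + 1 + j by ring]
      ring
    rw [h2]
    have h3 := HasDerivAt.fun_sum (u := Finset.range d)
      (A := fun j y => v (i + 1 + j) * ((y - c) ^ (j + 1) / ((j + 1).factorial : ℝ)))
      (A' := fun j => v (i + 1 + j) * ((x - c) ^ j / (j.factorial : ℝ))) (x := x)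
      (fun j _ => (hasDerivAt_pow_div c j x).const_mul _)
    refine (h3.add_const (v i)).congr_deriv ?_
    apply Finset.sum_congr rfl
    intro j _
    ring
  have h4 : HasDerivAt (fun x => κ * (x - c) ^ (d + 1) / ((d + 1).factorial : ℝ))
      (κ * (x - c) ^ d / (d.factorial : ℝ)) x := by
    have := (hasDerivAt_pow_div c d x).const_mul κ
    refine (this.congr_deriv ?_).congr_of_eventuallyEq ?_
    · ring
    · filter_upwards with y
      ring
  exact h1.fun_add h4

theorem tay_self (m : ℕ) (v : ℕ → ℝ) (κ c : ℝ) {i : ℕ} (hi : i ≤ m) : tay m v κ c i c = v i := by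
  unfold tay
  obtain ⟨d, hd⟩ : ∃ d, m + 1 - i = d + 1 := ⟨m - i, by omega⟩
  rw [hd, Finset.sum_range_succ']
  simp

theorem chain_tay (m : ℕ) (v : ℕ → ℝ) (κ c a b : ℝ) : Chain m a b (tay m v κ c) :=
  fun _ hi x _ => (tay_hasDerivAt m v κ c (by omega) x).hasDerivWithinAt

theorem tay_top (m : ℕ) (v : ℕ → ℝ) (κ c x : ℝ) : tay m v κ c m x = v m + κ * (x - c) := by
  unfold tay
  rw [show m + 1 - m = 1 by omega]
  simp

/-- two chains which agree at the right end point `c` up to order `m` and whose `m`-th derivatives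
differ by at most `2σ(c - x)` differ by at most `2σ(c-x)^{m+1}/(m+1)!` -/
theorem chain_close {m : ℕ} {σ a c : ℝ} {P F : ℕ → ℝ → ℝ}
    (hP : Chain m a c P) (hF : Chain m a c F) (heq : ∀ i ≤ m, P i c = F i c)
    (htop : ∀ x ∈ Icc a c, |P m x - F m x| ≤ 2 * σ * (c - x)) :
    ∀ d ≤ m, ∀ x ∈ Icc a c, |P (m - d) x - F (m - d) x|
      ≤ 2 * σ * ((c - x) ^ (d + 1) / ((d + 1).factorial : ℝ)) := by
  intro d
  induction d with
  | zero => intro _ x hx; simpa using htop x hx
  | succ d ih =>
    intro hd x hx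
    have hc : c ∈ Icc a c := ⟨hx.1.trans hx.2, le_rfl⟩
    rcases eq_or_lt_of_le hx.2 with h | h
    · rw [h, heq _ (by omega)]; simp
    have hpow : ∀ q, HasDerivAt (fun x => (c - x) ^ (d + 1 + 1) / ((d + 1 + 1).factorial : ℝ))
        (-((c - q) ^ (d + 1) / ((d + 1).factorial : ℝ))) q := by
      intro q
      have h1 : HasDerivAt (fun x : ℝ => c - x) (-1) q := by
        simpa using (hasDerivAt_id q).const_sub c
      have h2 := (h1.fun_pow (d + 1 + 1)).div_const ((d + 1 + 1).factorial : ℝ)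
      refine h2.congr_deriv ?_
      rw [Nat.factorial_succ (d + 1)]
      have : ((d + 1).factorial : ℝ) ≠ 0 := by positivity
      push_cast
      field_simp
    have hder : ∀ q ∈ Icc a c, HasDerivWithinAt (fun x => P (m - (d + 1)) x - F (m - (d + 1)) x)
        (P (m - d) q - F (m - d) q) (Icc a c) q := by
      intro q hq
      have h1 := hP (m - (d + 1)) (by omega) q hq
      have h2 := hF (m - (d + 1)) (by omega) q hq
      rw [show m - (d + 1) + 1 = m - d by omega] at h1 h2
      exact h1.fun_sub h2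
    have hub : ∀ q ∈ Icc a c, HasDerivWithinAt (fun x => (P (m - (d + 1)) x - F (m - (d + 1)) x)
        - 2 * σ * ((c - x) ^ (d + 1 + 1) / ((d + 1 + 1).factorial : ℝ)))
        ((P (m - d) q - F (m - d) q) + 2 * σ * ((c - q) ^ (d + 1) / ((d + 1).factorial : ℝ)))
        (Icc a c) q := by
      intro q hq
      refine ((hder q hq).fun_sub ((hpow q).hasDerivWithinAt.const_mul (2 * σ))).congr_deriv ?_
      ring
    have hlb : ∀ q ∈ Icc a c, HasDerivWithinAt (fun x => (P (m - (d + 1)) x - F (m - (d + 1)) x)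
        + 2 * σ * ((c - x) ^ (d + 1 + 1) / ((d + 1 + 1).factorial : ℝ)))
        ((P (m - d) q - F (m - d) q) - 2 * σ * ((c - q) ^ (d + 1) / ((d + 1).factorial : ℝ)))
        (Icc a c) q := by
      intro q hq
      refine ((hder q hq).fun_add ((hpow q).hasDerivWithinAt.const_mul (2 * σ))).congr_deriv ?_
      ring
    obtain ⟨q, hq1, hq2, hq⟩ := mvt hub hx hc h
    obtain ⟨q', hq1', hq2', hq'⟩ := mvt hlb hx hc h
    have b1 := abs_le.1 (ih (by omega) q ⟨hx.1.trans hq1.le, hq2.le⟩)
    have b2 := abs_le.1 (ih (by omega) q' ⟨hx.1.trans hq1'.le, hq2'.le⟩)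
    rw [heq _ (by omega)] at hq hq'
    simp only [sub_self, ne_eq, Nat.add_eq_zero_iff, one_ne_zero, and_false, not_false_eq_true,
      zero_pow, zero_div, mul_zero] at hq hq'
    have hcx : 0 < c - x := by linarith
    rw [abs_le]
    constructor
    · have : (P (m - d) q' - F (m - d) q' -
          2 * σ * ((c - q') ^ (d + 1) / ((d + 1).factorial : ℝ))) * (c - x) ≤ 0 :=
        mul_nonpos_of_nonpos_of_nonneg (by linarith) hcx.le
      linarith
    · have : 0 ≤ (P (m - d) q - F (m - d) q +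
          2 * σ * ((c - q) ^ (d + 1) / ((d + 1).factorial : ℝ))) * (c - x) :=
        mul_nonneg (by linarith) hcx.le
      linarith

/-- Extension to the left: replace `F` on `[a,c]` by its Taylor polynomial at `c` plus a top order
term with `(m+1)`-st derivative `κ`, `|κ| ≤ σ`. -/
theorem extend_left {m : ℕ} {σ a b c : ℝ} {F : ℕ → ℝ → ℝ} (hac : a ≤ c) (hcb : c ≤ b)
    (hσ : 0 ≤ σ) (hF : Cl m σ a b F) {κ : ℝ} (hκ : |κ| ≤ σ) :
    ∃ G : ℕ → ℝ → ℝ, Chain m a b G ∧
      (∀ x ∈ Icc a b, ∀ y ∈ Icc a b, |G m y - G m x| ≤ σ * |y - x|) ∧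
      (∀ x ∈ Icc a b, |G 0 x| ≤ 1 + 2 * σ * ((c - a) ^ (m + 1) / ((m + 1).factorial : ℝ))) ∧
      (a < c → ∀ i, G i a = tay m (fun i => F i c) κ c i a) := by
  have hFl : Cl m σ a c F := hF.mono le_rfl hcb
  have hFr : Cl m σ c b F := hF.mono hac le_rfl
  have heq : ∀ i ≤ m, tay m (fun i => F i c) κ c i c = F i c := fun i hi => tay_self m _ κ c hi
  have hclose := chain_close (σ := σ) (chain_tay m (fun i => F i c) κ c a c) hFl.chain heq (by
    intro x hx
    rw [tay_top]
    have h1 := hFl.lip x hx c ⟨hac, le_rfl⟩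
    rw [abs_of_nonneg (show (0:ℝ) ≤ c - x by linarith [hx.2])] at h1
    have h2 : |κ * (x - c)| ≤ σ * (c - x) := by
      rw [abs_mul, abs_sub_comm, abs_of_nonneg (show (0:ℝ) ≤ c - x by linarith [hx.2])]
      exact mul_le_mul_of_nonneg_right hκ (by linarith [hx.2])
    calc |F m c + κ * (x - c) - F m x| = |(F m c - F m x) + κ * (x - c)| := by congr 1; ring
      _ ≤ |F m c - F m x| + |κ * (x - c)| := abs_add_le _ _
      _ ≤ σ * (c - x) + σ * (c - x) := add_le_add h1 h2
      _ = 2 * σ * (c - x) := by ring)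
  refine ⟨fun i x => if x < c then tay m (fun i => F i c) κ c i x else F i x,
    Chain.glue hac hcb (chain_tay m _ κ c a c) hFr.chain heq, ?_, ?_, ?_⟩
  · apply lip_glue (heq m le_rfl)
    · intro x _ y _
      rw [tay_top, tay_top, show F m c + κ * (y - c) - (F m c + κ * (x - c)) = κ * (y - x) by ring,
        abs_mul]
      exact mul_le_mul_of_nonneg_right hκ (abs_nonneg _)
    · exact hFr.lip
  · intro x hx
    have hpos : 0 ≤ 2 * σ * ((c - a) ^ (m + 1) / ((m + 1).factorial : ℝ)) := by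
      have : 0 ≤ c - a := by linarith
      positivity
    by_cases h : x < c
    · simp only [if_pos h]
      have h1 := hclose m le_rfl x ⟨hx.1, h.le⟩
      rw [Nat.sub_self] at h1
      have h2 := hF.bd x hx
      have h3 : (c - x) ^ (m + 1) / ((m + 1).factorial : ℝ)
          ≤ (c - a) ^ (m + 1) / ((m + 1).factorial : ℝ) := by
        apply div_le_div_of_nonneg_right _ (by positivity)
        exact pow_le_pow_left₀ (by linarith) (by linarith [hx.1]) _
      have h4 : 2 * σ * ((c - x) ^ (m + 1) / ((m + 1).factorial : ℝ))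
          ≤ 2 * σ * ((c - a) ^ (m + 1) / ((m + 1).factorial : ℝ)) :=
        mul_le_mul_of_nonneg_left h3 (by positivity)
      calc |tay m (fun i => F i c) κ c 0 x|
          = |(tay m (fun i => F i c) κ c 0 x - F 0 x) + F 0 x| := by congr 1; ring
        _ ≤ |tay m (fun i => F i c) κ c 0 x - F 0 x| + |F 0 x| := abs_add_le _ _
        _ ≤ _ := by linarith
    · simp only [if_neg h]
      have := hF.bd x hx
      linarith
  · intro h i
    simp only [if_pos h]

/-- any upper bound for the end point values of the class bounds the end point values of a chain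
of larger norm, by homogeneity -/
theorem homog {m k : ℕ} {σ a b : ℝ} {Ē B : ℝ} (hB : 1 ≤ B)
    (hE : ∀ G, Cl m σ a b G → |G k a| ≤ Ē) {G : ℕ → ℝ → ℝ} (hG : Chain m a b G)
    (hl : ∀ x ∈ Icc a b, ∀ y ∈ Icc a b, |G m y - G m x| ≤ σ * |y - x|)
    (hb : ∀ x ∈ Icc a b, |G 0 x| ≤ B) : |G k a| ≤ B * Ē := by
  have hB0 : 0 < B := by linarith
  have hcl : Cl m σ a b (fun i x => B⁻¹ * G i x) := by
    refine ⟨fun i hi x hx => (hG i hi x hx).const_mul B⁻¹, ?_, ?_⟩
    · intro x hx y hy
      rw [← mul_sub, abs_mul, abs_of_pos (inv_pos.2 hB0)]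
      have h1 : B⁻¹ ≤ 1 := inv_le_one_of_one_le₀ hB
      have h2 := hl x hx y hy
      calc B⁻¹ * |G m y - G m x| ≤ 1 * |G m y - G m x| :=
            mul_le_mul_of_nonneg_right h1 (abs_nonneg _)
        _ ≤ _ := by rw [one_mul]; exact h2
    · intro x hx
      rw [abs_mul, abs_of_pos (inv_pos.2 hB0), inv_mul_le_iff₀ hB0, mul_one]
      exact hb x hx
  have h := hE _ hcl
  rw [abs_mul, abs_of_pos (inv_pos.2 hB0), inv_mul_le_iff₀ hB0] at h
  exact h

end Run7.h734
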