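import Mathlib
import Pool.Agent.Run7.h734.Near

/-!
Comparison polynomials with one more degree of freedom.
-/

open Set MeasureTheory

namespace Run7.h734

theorem dT_eq_zero {n i : ℕ} (h : n < i) (y : ℝ) : dT n i y = 0 := by
  unfold dT
  rw [Polynomial.iterate_derivative_eq_zero]
  · simp
  · rw [Polynomial.Chebyshev.natDegree_T]; simpa using h

theorem dT_pred (n : ℕ) (hn : 1 ≤ n) (y : ℝ) : dT n (n - 1) y = sig n * y := by
  obtain ⟨m, rfl⟩ : ∃ m, n = m + 1 := ⟨n - 1, by omega⟩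
  have h := dT_ode (m + 1) m y
  have h0 : dT (m + 1) (m + 2) y = 0 := dT_eq_zero (by omega) y
  rw [h0, dT_top (m + 1) (by omega)] at h
  simp only [Nat.add_sub_cancel]
  push_cast at h
  have h2 : (2 * (m : ℝ) + 1) * (dT (m + 1) m y) = (2 * (m : ℝ) + 1) * (sig (m + 1) * y) := by
    nlinarith
  exact mul_left_cancel₀ (by positivity) h2

theorem dT_pred2 (n : ℕ) (hn : 2 ≤ n) (y : ℝ) :
    dT n (n - 2) y = sig n * (y ^ 2 / 2 - 1 / (4 * ((n : ℝ) - 1))) := by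
  obtain ⟨m, rfl⟩ : ∃ m, n = m + 2 := ⟨n - 2, by omega⟩
  have h := dT_ode (m + 2) m y
  have h1 := dT_pred (m + 2) (by omega) y
  rw [show m + 2 - 1 = m + 1 by omega] at h1
  rw [h1, dT_top (m + 2) (by omega)] at h
  simp only [Nat.add_sub_cancel]
  push_cast at h ⊢
  have hm : (0 : ℝ) < (m : ℝ) + 1 := by positivity
  have h3 : (m : ℝ) + 2 - 1 = m + 1 := by ring
  rw [h3]
  field_simp
  nlinarith

/-- chain of `T_N + (β₀ + β₁ y)(1-y²)T_N'` -/
noncomputable def chA (N : ℕ) (β₀ β₁ : ℝ) (i : ℕ) (y : ℝ) : ℝ :=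
  dT N i y + β₀ * ((1 - y ^ 2) * dT N (i + 1) y - 2 * i * y * dT N i y
      - i * ((i : ℝ) - 1) * dT N (i - 1) y)
    + β₁ * (y * ((1 - y ^ 2) * dT N (i + 1) y - 2 * i * y * dT N i y
      - i * ((i : ℝ) - 1) * dT N (i - 1) y)
      + i * ((1 - y ^ 2) * dT N i y - 2 * ((i : ℝ) - 1) * y * dT N (i - 1) y
      - ((i : ℝ) - 1) * ((i : ℝ) - 2) * dT N (i - 2) y))

/-- chain of `T_n + (b₀ + b₁(1-y))(1-y)T_n'` -/
noncomputable def chB (n : ℕ) (b₀ b₁ : ℝ) (i : ℕ) (y : ℝ) : ℝ :=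
  dT n i y + b₀ * ((1 - y) * dT n (i + 1) y - i * dT n i y)
    + b₁ * ((1 - y) ^ 2 * dT n (i + 1) y - 2 * i * (1 - y) * dT n i y
      + i * ((i : ℝ) - 1) * dT n (i - 1) y)

theorem dT_hasDerivAt' (n : ℕ) {i : ℕ} (hi : 1 ≤ i) (y : ℝ) :
    HasDerivAt (dT n (i - 1)) (dT n i y) y := by
  have := dT_hasDerivAt n (i - 1) y
  rwa [show i - 1 + 1 = i by omega] at this

theorem chB_hasDerivAt (n : ℕ) (b₀ b₁ : ℝ) (i : ℕ) (y : ℝ) :
    HasDerivAt (chB n b₀ b₁ i) (chB n b₀ b₁ (i + 1) y) y := by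
  unfold chB
  have h0 := dT_hasDerivAt n i y
  have h1 := dT_hasDerivAt n (i + 1) y
  have hy : HasDerivAt (fun y : ℝ => 1 - y) (-1) y := by
    simpa using (hasDerivAt_id y).const_sub 1
  have hy2 : HasDerivAt (fun y : ℝ => (1 - y) ^ 2) (-2 * (1 - y)) y := by
    refine (hy.fun_pow 2).congr_deriv ?_
    simp
  have hlast : HasDerivAt (fun y => (i : ℝ) * ((i : ℝ) - 1) * dT n (i - 1) y)
      ((i : ℝ) * ((i : ℝ) - 1) * dT n i y) y := by
    rcases Nat.eq_zero_or_pos i with rfl | hi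
    · simpa using hasDerivAt_const y (0 : ℝ)
    · exact (dT_hasDerivAt' n hi y).const_mul _
  have hA := (hy.fun_mul h1).fun_sub (h0.const_mul (i : ℝ))
  have hB := ((hy2.fun_mul h1).fun_sub ((hy.const_mul (2 * (i : ℝ))).fun_mul h0)).fun_add hlast
  refine ((h0.fun_add (hA.const_mul b₀)).fun_add (hB.const_mul b₁)).congr_deriv ?_
  push_cast
  ring

theorem chA_hasDerivAt (N : ℕ) (β₀ β₁ : ℝ) (i : ℕ) (y : ℝ) :
    HasDerivAt (chA N β₀ β₁ i) (chA N β₀ β₁ (i + 1) y) y := by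
  unfold chA
  have h0 := dT_hasDerivAt N i y
  have h1 := dT_hasDerivAt N (i + 1) y
  have hid := hasDerivAt_id y
  have hy2 : HasDerivAt (fun y : ℝ => 1 - y ^ 2) (-(2 * y)) y := by
    refine ((hid.fun_pow 2).const_sub 1).congr_deriv ?_
    simp
  have hy : HasDerivAt (fun y : ℝ => y) 1 y := hid
  have hm1 : HasDerivAt (fun y => (i : ℝ) * ((i : ℝ) - 1) * dT N (i - 1) y)
      ((i : ℝ) * ((i : ℝ) - 1) * dT N i y) y := by
    rcases Nat.eq_zero_or_pos i with rfl | hi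
    · simpa using hasDerivAt_const y (0 : ℝ)
    · exact (dT_hasDerivAt' N hi y).const_mul _
  -- first bracket
  have hG := ((hy2.fun_mul h1).fun_sub ((hy.const_mul (2 * (i : ℝ))).fun_mul h0)).fun_sub hm1
  -- second bracket times `i`
  have hG2 : HasDerivAt (fun y => (i : ℝ) * ((1 - y ^ 2) * dT N i y
        - 2 * ((i : ℝ) - 1) * y * dT N (i - 1) y
        - ((i : ℝ) - 1) * ((i : ℝ) - 2) * dT N (i - 2) y))
      ((i : ℝ) * ((1 - y ^ 2) * dT N (i + 1) y - 2 * i * y * dT N i y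
        - i * ((i : ℝ) - 1) * dT N (i - 1) y)) y := by
    rcases Nat.eq_zero_or_pos i with rfl | hi
    · simpa using hasDerivAt_const y (0 : ℝ)
    · have hm1' := dT_hasDerivAt' N hi y
      have hm2 : HasDerivAt (fun y => ((i : ℝ) - 1) * ((i : ℝ) - 2) * dT N (i - 2) y)
          (((i : ℝ) - 1) * ((i : ℝ) - 2) * dT N (i - 1) y) y := by
        rcases Nat.lt_or_ge 1 i with h2 | h2
        · have := dT_hasDerivAt N (i - 2) y
          rw [show i - 2 + 1 = i - 1 by omega] at this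
          exact this.const_mul _
        · obtain rfl : i = 1 := by omega
          simpa using hasDerivAt_const y (0 : ℝ)
      have h3 := (((hy2.fun_mul h0).fun_sub
        ((hy.const_mul (2 * ((i : ℝ) - 1))).fun_mul hm1')).fun_sub hm2).const_mul (i : ℝ)
      refine h3.congr_deriv ?_
      ring
  refine ((h0.fun_add (hG.const_mul β₀)).fun_add
    (((hy.fun_mul hG).fun_add hG2).const_mul β₁)).congr_deriv ?_
  rw [show i + 1 - 2 = i - 1 by omega]
  push_cast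
  ring

theorem chB_top (n : ℕ) (hn : 2 ≤ n) (b₀ b₁ y : ℝ) :
    chB n b₀ b₁ (n - 1) y = sig n * (y + b₀ * (1 - n * y)
      + b₁ * ((1 - y) ^ 2 - 2 * ((n : ℝ) - 1) * (1 - y) * y
        + ((n : ℝ) - 1) * ((n : ℝ) - 2) * (y ^ 2 / 2 - 1 / (4 * ((n : ℝ) - 1))))) := by
  unfold chB
  rw [show n - 1 + 1 = n by omega, dT_top n (by omega), dT_pred n (by omega),
    show n - 1 - 1 = n - 2 by omega, dT_pred2 n hn]
  rw [Nat.cast_sub (by omega : 1 ≤ n)]
  push_cast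
  ring

theorem chA_top (N : ℕ) (hN : 2 ≤ N) (β₀ β₁ y : ℝ) :
    chA N β₀ β₁ N y = sig N * (1 - β₀ * (N * (N + 1) * y)
      - β₁ * (N * (N + 1) * (N + 2) * y ^ 2 / 2 - N * (N + 2) / 4)) := by
  have hN1 : (N : ℝ) - 1 ≠ 0 := by
    have : (2 : ℝ) ≤ N := by exact_mod_cast hN
    linarith
  have h0 : dT N (N + 1) y = 0 := dT_eq_zero (by omega) y
  unfold chA
  rw [h0, dT_top N (by omega), dT_pred N (by omega), dT_pred2 N hN]
  field_simp
  ring

end Run7.h734
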