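import Mathlib
import Pool.Agent.Run7.h734.Comp

/-!
Upper bounds at interior points for the derivatives of order `n - 1` and `n - 2`, and the
truncated power as a test function.
-/

open Set MeasureTheory

namespace Run7.h734

/-- comparison at the highest level -/
theorem exists_le {m N : ℕ} (hN : N ≤ m) {a b : ℝ} {F C : ℕ → ℝ → ℝ}
    (hF : Chain m a b F) (hC : Chain N a b C) (hb : ∀ x ∈ Icc a b, |F 0 x| ≤ 1)
    {p : ℕ → ℝ} (hp : ∀ i ≤ N, p i ∈ Icc a b) (hlt : ∀ i < N, p i < p (i + 1))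
    (hv : ∀ i ≤ N, 1 ≤ (-1) ^ (N + i) * C 0 (p i)) :
    ∃ ξ ∈ Icc a b, F N ξ ≤ C N ξ := by
  have hD : Chain N a b (fun i x => C i x - 1 * F i x) := hC.sub_smul (hF.lower hN) 1
  have halt : AltW (0 + N) ((-1) ^ N) a b ((fun i x => C i x - 1 * F i x) 0) p := by
    rw [zero_add]
    refine ⟨hp, hlt, ?_⟩
    intro i hi
    have h1 := hv i hi
    have h2 := abs_le.1 (hb (p i) (hp i hi))
    simp only
    rw [← pow_add]
    rcases neg_one_pow_eq_or ℝ (N + i) with h | h
    · rw [h] at h1 ⊢; linarith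
    · rw [h] at h1 ⊢; linarith
  obtain ⟨q, hq, _⟩ := AltW.down (N := 0) hD N (j := 0) (by omega) halt
  refine ⟨q 0, hq.mem 0 le_rfl, ?_⟩
  have := hq.sgn 0 le_rfl
  rw [zero_add, pow_zero, mul_one, ← mul_pow] at this
  norm_num at this
  exact this

theorem dT_one_node {n j : ℕ} (h0 : 0 < j) (hj : j < n) :
    dT n 1 (Real.cos ((j : ℝ) * Real.pi / n)) = 0 := by
  have hpi := Real.pi_pos
  have hn : (0 : ℝ) < n := by exact_mod_cast (by omega : 0 < n)
  have hj0 : (0 : ℝ) < j := by exact_mod_cast h0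
  have hjn : (j : ℝ) < n := by exact_mod_cast hj
  have hs : 0 < Real.sin ((j : ℝ) * Real.pi / n) := by
    apply Real.sin_pos_of_pos_of_lt_pi
    · positivity
    · rw [div_lt_iff₀ hn]; nlinarith
  have h1 := dT_one_cos n ((j : ℝ) * Real.pi / n)
  rw [show (n : ℝ) * ((j : ℝ) * Real.pi / n) = (j : ℝ) * Real.pi by field_simp,
    Real.sin_nat_mul_pi, mul_zero] at h1
  rcases mul_eq_zero.1 h1 with h | h
  · exact h
  · exact absurd h hs.ne'

/-- bound by the comparison function built from `T_N` on a window `[c - h, c + h]` -/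
theorem chA_bound {m N : ℕ} (hN2 : 2 ≤ N) (hN : N ≤ m) {c h : ℝ} (hh : 0 < h)
    {F : ℕ → ℝ → ℝ} (hF : Chain m (c - h) (c + h) F)
    (hb : ∀ x ∈ Icc (c - h) (c + h), |F 0 x| ≤ 1) (q x₀ : ℝ) :
    ∃ ξ ∈ Icc (c - h) (c + h), F N ξ ≤
      (sig N / h ^ N + q * h ^ 2 / (2 * (N + 1)) + q * (c - x₀) ^ 2) - q * (ξ - x₀) ^ 2 := by
  have hs := sig_pos N
  have hNr : (2 : ℝ) ≤ N := by exact_mod_cast hN2
  set β₁ : ℝ := 2 * q * h ^ (N + 2) / (N * (N + 1) * (N + 2) * sig N) with hβ₁
  set β₀ : ℝ := 2 * q * (c - x₀) * h ^ (N + 1) / (N * (N + 1) * sig N) with hβ₀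
  have hC : Chain N (c - h) (c + h)
      (fun i x => (h⁻¹) ^ i * chA N β₀ β₁ i (h⁻¹ * x + -(h⁻¹ * c))) := by
    intro i hi x _
    have h2 : HasDerivAt (fun x => h⁻¹ * x + -(h⁻¹ * c)) h⁻¹ x := by
      simpa using ((hasDerivAt_id x).const_mul h⁻¹).add_const (-(h⁻¹ * c))
    have h3 := ((chA_hasDerivAt N β₀ β₁ i (h⁻¹ * x + -(h⁻¹ * c))).comp x h2).const_mul ((h⁻¹) ^ i)
    refine (h3.congr_deriv ?_).hasDerivWithinAt
    ring
  obtain ⟨ξ, hξ, hle⟩ := exists_le hN hF hC hb (p := fun j => c - h * Real.cos ((j : ℝ) * Real.pi / N))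
    (by
      intro i _
      have h1 := Real.neg_one_le_cos ((i : ℝ) * Real.pi / N)
      have h2 := Real.cos_le_one ((i : ℝ) * Real.pi / N)
      constructor <;> nlinarith)
    (by
      intro i hi
      have := node_mono (n := N) (by omega) (i := i) (by omega)
      have h3 := mul_lt_mul_of_pos_left this hh
      linarith)
    (by
      intro j hj
      have harg : h⁻¹ * (c - h * Real.cos ((j : ℝ) * Real.pi / N)) + -(h⁻¹ * c)
          = Real.cos (((N - j : ℕ) : ℝ) * Real.pi / N) := by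
        have e1 : h⁻¹ * (c - h * Real.cos ((j : ℝ) * Real.pi / N)) + -(h⁻¹ * c)
            = - Real.cos ((j : ℝ) * Real.pi / N) := by field_simp; ring
        rw [e1, ← Real.cos_pi_sub, Nat.cast_sub hj]
        congr 1
        field_simp
      simp only [pow_zero, one_mul]
      rw [harg]
      have hval : chA N β₀ β₁ 0 (Real.cos (((N - j : ℕ) : ℝ) * Real.pi / N)) = (-1) ^ (N - j) := by
        unfold chA
        have hz : (1 - Real.cos (((N - j : ℕ) : ℝ) * Real.pi / N) ^ 2) *
            dT N 1 (Real.cos (((N - j : ℕ) : ℝ) * Real.pi / N)) = 0 := by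
          rcases Nat.eq_zero_or_pos (N - j) with h0 | h0
          · rw [h0]; simp
          · rcases lt_or_eq_of_le (Nat.sub_le N j) with h1 | h1
            · rw [dT_one_node h0 h1, mul_zero]
            · rw [h1]
              have : (N : ℝ) * Real.pi / N = Real.pi := by field_simp
              rw [this, Real.cos_pi]; norm_num
        rw [dT_node (by omega : 0 < N)]
        simp only [zero_add, hz, CharP.cast_eq_zero]
        ring
      rw [hval, ← pow_add, show N + j + (N - j) = 2 * N by omega, pow_mul]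
      norm_num)
  refine ⟨ξ, hξ, hle.trans (le_of_eq ?_)⟩
  rw [chA_top N hN2, hβ₀, hβ₁, inv_pow]
  have h4 : h ^ (N + 2) = h ^ N * h ^ 2 := by ring
  have h5 : h ^ (N + 1) = h ^ N * h := by ring
  rw [h4, h5]
  field_simp
  ring

/-- bound for the `(n-1)`-st derivative by the nodes of `T_n` except the last one -/
theorem chB_bound {n : ℕ} (hn : 2 ≤ n) {α : ℝ} {F : ℕ → ℝ → ℝ}
    (hF : Chain (n - 1) α (α + 2) F)
    (hb : ∀ x ∈ Icc α (α + 2), |F 0 x| ≤ 1) (x₀ : ℝ) {s : ℝ} (hs : 0 < s) :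
    ∃ ξ ∈ Icc α (α + 2), F (n - 1) ξ ≤
      sig n * (1 / n + (((n : ℝ) ^ 2 - 2) / (2 * n ^ 2 * (n + 1))
        + (1 - (x₀ - α) - 1 / n) ^ 2) / (2 * s) + s / 2)
      - sig n * (((ξ - x₀) ^ 2 + s ^ 2) / (2 * s)) := by
  have hnr : (2 : ℝ) ≤ n := by exact_mod_cast hn
  set y₀ : ℝ := 1 - (x₀ - α) with hy₀
  set b₁ : ℝ := -1 / (s * n * (n + 1)) with hb₁
  set b₀ : ℝ := 1 / n * (1 + 2 / (s * (n + 1)) - y₀ / s) with hb₀
  have hC : Chain (n - 1) α (α + 2)
      (fun i x => (-1) ^ (n - 1) * ((-1) ^ i * chB n b₀ b₁ i (-1 * x + (1 + α)))) := by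
    intro i hi x _
    have h2 : HasDerivAt (fun x => -1 * x + (1 + α)) (-1) x := by
      simpa using ((hasDerivAt_id x).const_mul (-1)).add_const (1 + α)
    have h3 := ((chB_hasDerivAt n b₀ b₁ i (-1 * x + (1 + α))).comp x h2).const_mul
      ((-1 : ℝ) ^ (n - 1) * (-1) ^ i)
    refine ((h3.congr_deriv ?_).hasDerivWithinAt).congr_of_mem ?_ ‹_›
    · ring
    · intro y _
      simp only [Function.comp]
      ring
  obtain ⟨ξ, hξ, hle⟩ := exists_le (m := n - 1) le_rfl hF hC hb
    (p := fun j => α + 1 - Real.cos ((j : ℝ) * Real.pi / n))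
    (by
      intro i _
      have h1 := Real.neg_one_le_cos ((i : ℝ) * Real.pi / n)
      have h2 := Real.cos_le_one ((i : ℝ) * Real.pi / n)
      constructor <;> linarith)
    (by
      intro i hi
      have := node_mono (n := n) (by omega) (i := i) (by omega)
      linarith)
    (by
      intro j hj
      have harg : -1 * (α + 1 - Real.cos ((j : ℝ) * Real.pi / n)) + (1 + α)
          = Real.cos ((j : ℝ) * Real.pi / n) := by ring
      simp only [pow_zero, one_mul]
      rw [harg]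
      have hval : chB n b₀ b₁ 0 (Real.cos ((j : ℝ) * Real.pi / n)) = (-1) ^ j := by
        unfold chB
        have hz : (1 - Real.cos ((j : ℝ) * Real.pi / n)) *
            dT n 1 (Real.cos ((j : ℝ) * Real.pi / n)) = 0 := by
          rcases Nat.eq_zero_or_pos j with h0 | h0
          · rw [h0]; simp
          · rw [dT_one_node h0 (by omega), mul_zero]
        have hz2 : (1 - Real.cos ((j : ℝ) * Real.pi / n)) ^ 2 *
            dT n 1 (Real.cos ((j : ℝ) * Real.pi / n)) = 0 := by
          rw [pow_two, mul_assoc, hz, mul_zero]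
        rw [dT_node (by omega : 0 < n)]
        simp only [zero_add, hz, hz2, CharP.cast_eq_zero]
        ring
      rw [hval, ← mul_assoc, ← pow_add, ← pow_add,
        show n - 1 + j + (n - 1) + j = 2 * (n - 1 + j) by omega, pow_mul]
      norm_num)
  refine ⟨ξ, hξ, hle.trans (le_of_eq ?_)⟩
  rw [← mul_assoc, ← pow_add, ← two_mul, pow_mul, chB_top n hn, hb₀, hb₁]
  have e : (-1 : ℝ) * ξ + (1 + α) = y₀ - (ξ - x₀) := by rw [hy₀]; ring
  rw [e]
  have hn1 : (n : ℝ) - 1 ≠ 0 := by linarith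
  norm_num
  field_simp
  ring

/-- the truncated power as a test function on `[-1,1]` -/
theorem E_trunc {n k : ℕ} (hk1 : 1 ≤ k) (hk2 : k ≤ n - 1) {σ b : ℝ} (hσ : 0 < σ) (hb0 : 0 < b)
    (hb2 : b ≤ 2) (hσb : σ * b ^ n = 2 * (n.factorial : ℝ)) :
    σ * b ^ (n - k) / ((n - k).factorial : ℝ) ≤ E n k σ := by
  set v : ℕ → ℝ := fun i => if i = 0 then -1 else 0 with hv
  set κ : ℝ := (-1) ^ n * σ with hκ
  have hκabs : |κ| = σ := by
    rw [hκ, abs_mul, abs_pow, abs_neg, abs_one, one_pow, one_mul, abs_of_pos hσ]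
  set c : ℝ := -1 + b with hc
  have hac : (-1 : ℝ) ≤ c := by linarith
  have hcb : c ≤ 1 := by linarith
  have hconst : Chain (n - 1) c 1 (fun i _ => v i) := by
    intro i hi x _
    have : v (i + 1) = 0 := by simp [hv]
    simp only
    rw [this]
    exact hasDerivWithinAt_const _ _ _
  have heq : ∀ i ≤ n - 1, tay (n - 1) v κ c i c = v i := fun i hi => tay_self (n - 1) v κ c hi
  have htay : ∀ i ≤ n - 1, ∀ x, tay (n - 1) v κ c i x
      = v i + κ * (x - c) ^ (n - i) / ((n - i).factorial : ℝ) := by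
    intro i hi x
    unfold tay
    rw [show n - 1 + 1 - i = n - i by omega]
    congr 1
    obtain ⟨d, hd⟩ : ∃ d, n - i = d + 1 := ⟨n - i - 1, by omega⟩
    rw [hd, Finset.sum_range_succ']
    simp [hv]
  have hcl : Cl (n - 1) σ (-1) 1 (fun i x => if x < c then tay (n - 1) v κ c i x else v i) := by
    refine ⟨Chain.glue hac hcb (chain_tay (n - 1) v κ c (-1) c) hconst heq, ?_, ?_⟩
    · apply lip_glue (p := tay (n - 1) v κ c (n - 1)) (f := fun _ => v (n - 1)) (heq _ le_rfl)
      · intro x _ y _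
        rw [tay_top, tay_top, show v (n - 1) + κ * (y - c) - (v (n - 1) + κ * (x - c))
          = κ * (y - x) by ring, abs_mul, hκabs]
      · intro x _ y _
        simp only [sub_self, abs_zero]
        positivity
    · intro x hx
      by_cases h : x < c
      · simp only [if_pos h]
        rw [htay 0 (by omega), Nat.sub_zero]
        have h1 : κ * (x - c) ^ n = σ * (c - x) ^ n := by
          rw [hκ, show x - c = -(c - x) by ring, neg_pow (c - x) n]
          have : (-1 : ℝ) ^ n * (-1) ^ n = 1 := by rw [← mul_pow]; norm_num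
          calc (-1 : ℝ) ^ n * σ * ((-1) ^ n * (c - x) ^ n)
              = ((-1 : ℝ) ^ n * (-1) ^ n) * (σ * (c - x) ^ n) := by ring
            _ = _ := by rw [this, one_mul]
        rw [h1]
        have hcx0 : 0 ≤ c - x := by linarith
        have hcx1 : c - x ≤ b := by linarith [hx.1]
        have h2 : σ * (c - x) ^ n ≤ 2 * (n.factorial : ℝ) := by
          rw [← hσb]
          exact mul_le_mul_of_nonneg_left (pow_le_pow_left₀ hcx0 hcx1 n) hσ.le
        have h3 : 0 < (n.factorial : ℝ) := by positivity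
        have h4 : 0 ≤ σ * (c - x) ^ n / (n.factorial : ℝ) := by positivity
        have h5 : σ * (c - x) ^ n / (n.factorial : ℝ) ≤ 2 := by
          rw [div_le_iff₀ h3]; exact h2
        simp only [hv, if_true]
        rw [abs_le]; constructor <;> linarith
      · simp only [if_neg h, hv, if_true]
        norm_num
  have h1 := le_E_of_left hσ.le hk1 hk2 hcl
  have hlt : (-1 : ℝ) < c := by linarith
  simp only [if_pos hlt] at h1
  rw [htay k hk2] at h1
  have hvk : v k = 0 := by simp [hv, show k ≠ 0 by omega]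
  have hc1 : (-1 : ℝ) - c = -b := by rw [hc]; ring
  rw [hvk, zero_add, hc1, abs_div, abs_mul, hκabs, abs_pow, abs_neg, abs_of_pos hb0,
    Nat.abs_cast] at h1
  exact h1

end Run7.h734
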