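import Mathlib
import Pool.Agent.Run7.h734.Inter

/-!
The case `k = n - 1`.
-/

open Set MeasureTheory

namespace Run7.h734

theorem near {m k : ℕ} {σ b c Ē : ℝ} (hσ : 0 ≤ σ) (hc : 0 < c) (hcb : c ≤ b)
    (hE : ∀ G, Cl m σ 0 b G → |G k 0| ≤ Ē) {F : ℕ → ℝ → ℝ} (hF : Cl m σ 0 b F)
    {κ : ℝ} (hκ : |κ| ≤ σ) :
    |tay m (fun i => F i c) κ c k 0| ≤ (1 + 2 * σ * (c ^ (m + 1) / ((m + 1).factorial : ℝ))) * Ē := by
  obtain ⟨G, hG, hGl, hGb, hG0⟩ := extend_left hc.le hcb hσ hF hκ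
  rw [← hG0 hc k]
  apply homog _ hE hG hGl
  · intro x hx
    have := hGb x hx
    rwa [sub_zero] at this
  · have : 0 ≤ 2 * σ * (c ^ (m + 1) / ((m + 1).factorial : ℝ)) := by positivity
    linarith

theorem tay_top1 {m : ℕ} (hm : 1 ≤ m) (v : ℕ → ℝ) (κ c x : ℝ) :
    tay m v κ c (m - 1) x = v (m - 1) + v m * (x - c) + κ * (x - c) ^ 2 / 2 := by
  unfold tay
  rw [show m + 1 - (m - 1) = 2 by omega, Finset.sum_range_succ, Finset.sum_range_one]
  simp [show m - 1 + 1 = m by omega]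

theorem two_sig (n : ℕ) (hn : 1 ≤ n) (c : ℝ) :
    2 * sig n * (c ^ (n - 1 + 1) / ((n - 1 + 1).factorial : ℝ)) = (2 * c) ^ n := by
  rw [show n - 1 + 1 = n by omega]
  unfold sig
  have : (2 : ℝ) ^ n = 2 ^ (n - 1) * 2 := by rw [← pow_succ, show n - 1 + 1 = n by omega]
  have h3 : (n.factorial : ℝ) ≠ 0 := by positivity
  rw [mul_pow, this]
  field_simp

/-- transfer of the end point supremum to `[0, 2μ]` -/
theorem E_bar {n k : ℕ} (hk1 : 1 ≤ k) (hk2 : k ≤ n - 1) {μ : ℝ} (hμ : 1 ≤ μ)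
    {σ : ℝ} (hσ : 0 ≤ σ) {G : ℕ → ℝ → ℝ} (hG : Cl (n - 1) σ 0 (2 * μ) G) :
    μ ^ k * |G k 0| ≤ E n k (μ ^ n * σ) := by
  have hμ0 : 0 < μ := by linarith
  have h1 := hG.affine (c := μ) (d := μ) (a' := -1) (b' := 1) (by
    intro x hx
    constructor <;> nlinarith [hx.1, hx.2])
  rw [abs_of_pos hμ0, show n - 1 + 1 = n by omega] at h1
  have h2 := le_E_of_left (n := n) (k := k) (by positivity) hk1 hk2 h1
  rw [show μ * -1 + μ = 0 by ring, abs_mul, abs_of_pos (by positivity)] at h2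
  exact h2

theorem E_le {n k : ℕ} (hk1 : 1 ≤ k) (hk2 : k ≤ n - 1) {μ : ℝ} (hμ : 1 ≤ μ) {σ : ℝ}
    (hσ : 0 ≤ σ) (hσμ : σ ≤ μ ^ n * sig n) : E n k σ ≤ μ ^ k * dT n k 1 := by
  have hn : 1 ≤ n := by omega
  have hμ0 : 0 < μ := by linarith
  have hZ := zolL_dT hn hμ
  apply csSup_le (Set.Nonempty.image _ ⟨_, W_zero hσ⟩)
  rintro _ ⟨f, hf, rfl⟩
  have h1 := hf.toCl.reflect.weaken hσμ
  have hle : -1 + 2 / μ ≤ 1 := by
    have : 2 / μ ≤ 2 := div_le_self (by norm_num) hμ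
    linarith
  have h2 := h1.mono (a' := -1) (b' := -1 + 2 / μ) le_rfl hle
  have hpos : 0 < μ ^ n * sig n := by have := sig_pos n; positivity
  have h3 := endpoint_le hpos (by have : 0 < 2 / μ := by positivity
                                  linarith) hZ h2 hk1 hk2
  have h4 : |(-1 : ℝ) ^ k * der k f (-1 * -1 + 0)| = |der k f 1| := by
    rw [abs_mul, abs_pow, abs_neg, abs_one, one_pow, one_mul]
    norm_num
  rw [h4] at h3
  refine h3.trans (le_of_eq ?_)
  rw [← mul_assoc, ← mul_pow]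
  congr 1
  · congr 1; ring
  · congr 1; ring

/-- numerical estimate for `k = n - 1` -/
theorem num_top {n : ℕ} (hn : 4 ≤ n) {γ β : ℝ} (hβ0 : 0 < β) (hβ : β ^ n * 2 ^ n = 4)
    (h1 : β ≤ γ) (h2 : γ ≤ 1) :
    1 / (n : ℝ) < γ ∧
    ((n : ℝ) ^ 2 - 2) / (2 * n ^ 2 * (n + 1)) + (1 / (n : ℝ)) ^ 2 < (γ - 1 / n) ^ 2 ∧
    ∀ x : ℝ, 0 < x → x ≤ 1 → x ≤ (2 * x) ^ n * γ →
      ((n : ℝ) ^ 2 - 2) / (2 * n ^ 2 * (n + 1)) + (1 - x - 1 / n) ^ 2 < (γ - 1 / n) ^ 2 := by
  have hnr : (4 : ℝ) ≤ n := by exact_mod_cast hn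
  set z : ℝ := 1 / n with hz
  have hz0 : 0 < z := by positivity
  have hz1 : z ≤ 1 / 4 := one_div_le_one_div_of_le (by norm_num) hnr
  have hnz : (n : ℝ) = 1 / z := by rw [hz]; field_simp
  -- lower bound for `2γ`
  have hW : 1 + 1.386 * z + 0.9604 * z ^ 2 ≤ 2 * β := by
    by_contra hcon
    push Not at hcon
    have hl2 := Real.log_two_gt_d9
    have hexp : 1 + 1.386 * z + 0.9604 * z ^ 2 ≤ Real.exp (2 * Real.log 2 * z) := by
      have h3 := Real.quadratic_le_exp_of_nonneg (x := 2 * Real.log 2 * z) (by positivity)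
      refine le_trans ?_ h3
      have h4 : 1.386 * z ≤ 2 * Real.log 2 * z :=
        mul_le_mul_of_nonneg_right (by norm_num at hl2 ⊢; linarith) hz0.le
      have h5 : (1.386 * z) ^ 2 ≤ (2 * Real.log 2 * z) ^ 2 :=
        pow_le_pow_left₀ (by positivity) h4 2
      nlinarith
    have h6 : (2 * β) ^ n < (Real.exp (2 * Real.log 2 * z)) ^ n :=
      pow_lt_pow_left₀ (lt_of_lt_of_le hcon hexp) (by positivity) (by omega)
    have h7 : (Real.exp (2 * Real.log 2 * z)) ^ n = 4 := by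
      rw [← Real.exp_nat_mul]
      have : (n : ℝ) * (2 * Real.log 2 * z) = Real.log 4 := by
        rw [show (4 : ℝ) = 2 ^ 2 by norm_num, Real.log_pow, hz]
        field_simp
        norm_num
      rw [this, Real.exp_log (by norm_num)]
    rw [mul_pow, mul_comm, hβ, h7] at h6
    exact lt_irrefl _ h6
  have hγ : 1 + 1.386 * z + 0.9604 * z ^ 2 ≤ 2 * γ := by linarith
  have hvar : ((n : ℝ) ^ 2 - 2) / (2 * n ^ 2 * (n + 1)) = z * (1 - 2 * z ^ 2) / (2 * (1 + z)) := by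
    rw [hz]; field_simp
  refine ⟨by nlinarith, ?_, ?_⟩
  · rw [hvar]
    have h3 : z * (1 - 2 * z ^ 2) / (2 * (1 + z)) ≤ 1 / 10 := by
      rw [div_le_div_iff₀ (by linarith) (by norm_num)]
      nlinarith [mul_pos hz0 (mul_pos hz0 hz0)]
    have h4 : z ^ 2 ≤ 1 / 16 := by nlinarith
    have h5 : 0.42325 ≤ γ - z := by nlinarith
    have h6 : (0.42325 : ℝ) ^ 2 ≤ (γ - z) ^ 2 := pow_le_pow_left₀ (by norm_num) h5 2
    norm_num at h6 ⊢
    linarith
  · intro x hx0 hx1 hx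
    set w : ℝ := 2 * γ with hw
    have hw1 : 1 < w := by nlinarith
    have hw2 : w ≤ 2 := by linarith
    -- lower bound for `x`
    obtain ⟨m, hm⟩ : ∃ m, n = m + 1 := ⟨n - 1, by omega⟩
    have hmr : (m : ℝ) = n - 1 := by rw [hm]; push_cast; ring
    have hm3 : (3 : ℝ) ≤ m := by linarith
    have hxlow : 1 - (w - 1) / m ≤ 2 * x := by
      by_contra hcon
      push Not at hcon
      have h3 : (2 * x) ^ m < (1 - (w - 1) / m) ^ m :=
        pow_lt_pow_left₀ hcon (by positivity) (by omega)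
      have h4 : (1 - (w - 1) / m) ^ m ≤ Real.exp (-(w - 1)) :=
        Real.one_sub_div_pow_le_exp_neg (by linarith)
      have h5 : w ≤ Real.exp (w - 1) := by
        have := Real.add_one_le_exp (w - 1)
        linarith
      have h6 : (2 * x) ^ m * w < 1 := by
        calc (2 * x) ^ m * w < Real.exp (-(w - 1)) * w :=
              mul_lt_mul_of_pos_right (lt_of_lt_of_le h3 h4) (by linarith)
          _ ≤ Real.exp (-(w - 1)) * Real.exp (w - 1) :=
              mul_le_mul_of_nonneg_left h5 (Real.exp_pos _).le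
          _ = 1 := by rw [← Real.exp_add]; simp
      rw [hm, pow_succ] at hx
      have h7 : x ≤ x * ((2 * x) ^ m * w) := by
        calc x ≤ (2 * x) ^ m * (2 * x) * γ := hx
          _ = x * ((2 * x) ^ m * w) := by rw [hw]; ring
      have h8 : x * ((2 * x) ^ m * w) < x * 1 := mul_lt_mul_of_pos_left h6 hx0
      linarith
    rw [hmr] at hxlow
    have hzn : (w - 1) / ((n : ℝ) - 1) = (w - 1) * z / (1 - z) := by
      rw [hz]
      have : (n : ℝ) - 1 ≠ 0 := by linarith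
      field_simp
    rw [hzn] at hxlow
    set R : ℝ := 1 / 2 - z + (w - 1) * z / (2 * (1 - z)) with hR
    have h1z : 0 < 1 - z := by linarith
    have hRle : 1 - x - z ≤ R := by
      have : (w - 1) * z / (2 * (1 - z)) = (w - 1) * z / (1 - z) / 2 := by
        field_simp
      rw [hR, this]; linarith
    have hpos : 0 ≤ (w - 1) * z / (2 * (1 - z)) := by
      have : 0 < w - 1 := by linarith
      positivity
    have hR1 : z ≤ R := by rw [hR]; linarith
    have hsq : (1 - x - z) ^ 2 ≤ R ^ 2 := by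
      apply sq_le_sq'
      · linarith
      · exact hRle
    rw [hvar]
    -- main inequality
    have hfac : (γ - z) ^ 2 - R ^ 2 = (w - 1) / 2 * ((1 - 2 * z) / (1 - z)) *
        ((w + 1) / 2 - 2 * z + (w - 1) * z / (2 * (1 - z))) := by
      have hγw : γ = w / 2 := by rw [hw]; ring
      rw [hR, hγw]
      field_simp
      ring
    have hA : 1.386 * z + 0.9604 * z ^ 2 ≤ w - 1 := by linarith
    have hB : 1 - 1.307 * z + 0.48 * z ^ 2 ≤ (w + 1) / 2 - 2 * z + (w - 1) * z / (2 * (1 - z)) := by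
      nlinarith
    have hmain : z * (1 - 2 * z ^ 2) / (2 * (1 + z)) <
        (1.386 * z + 0.9604 * z ^ 2) / 2 * ((1 - 2 * z) / (1 - z)) *
          (1 - 1.307 * z + 0.48 * z ^ 2) := by
      have e : (1.386 * z + 0.9604 * z ^ 2) / 2 * ((1 - 2 * z) / (1 - z)) *
          (1 - 1.307 * z + 0.48 * z ^ 2) = (z * ((1.386 + 0.9604 * z) * (1 - 2 * z) *
          (1 - 1.307 * z + 0.48 * z ^ 2))) / (2 * (1 - z)) := by
        field_simp
      rw [e, div_lt_div_iff₀ (by linarith) (by linarith)]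
      have hp : (1 - 2 * z ^ 2) * (1 - z) < (1.386 + 0.9604 * z) * (1 - 2 * z) *
          (1 - 1.307 * z + 0.48 * z ^ 2) * (1 + z) := by
        have hz4 : 0 ≤ 1 / 4 - z := by linarith
        nlinarith [mul_nonneg hz0.le hz4, mul_nonneg (mul_nonneg hz0.le hz4) hz0.le,
          mul_nonneg (mul_nonneg hz0.le hz4) (mul_nonneg hz0.le hz4),
          mul_nonneg (mul_nonneg (mul_nonneg hz0.le hz4) hz0.le) (mul_nonneg hz0.le hz0.le),
          pow_pos hz0 3, pow_pos hz0 4, pow_pos hz0 5]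
      nlinarith
    have h12 : 0 < (1 - 2 * z) / (1 - z) := by
      apply div_pos <;> linarith
    have hprod : (1.386 * z + 0.9604 * z ^ 2) / 2 * ((1 - 2 * z) / (1 - z)) *
          (1 - 1.307 * z + 0.48 * z ^ 2) ≤ (w - 1) / 2 * ((1 - 2 * z) / (1 - z)) *
        ((w + 1) / 2 - 2 * z + (w - 1) * z / (2 * (1 - z))) := by
      apply mul_le_mul _ hB _ _
      · apply mul_le_mul_of_nonneg_right _ h12.le
        linarith
      · nlinarith
      · have : 0 < w - 1 := by linarith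
        positivity
    linarith

end Run7.h734
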