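import Mathlib
import Pool.Agent.Run7.h734.Top

/-!
The case `k = n - 1`, all `n ≥ 4`, all `σ > 0`.
-/

open Set MeasureTheory

namespace Run7.h734

theorem Cl.neg {m : ℕ} {σ a b : ℝ} {F : ℕ → ℝ → ℝ} (hF : Cl m σ a b F) :
    Cl m σ a b (fun i x => -F i x) := by
  refine ⟨fun i hi x hx => (hF.chain i hi x hx).fun_neg, ?_, ?_⟩
  · intro x hx y hy
    have := hF.lip x hx y hy
    rw [show -F m y - -F m x = -(F m y - F m x) by ring, abs_neg]
    exact this
  · intro x hx
    rw [abs_neg]; exact hF.bd x hx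

/-- interior bound for `k = n - 1`, `σ ≥ σ_n` (normalised), nonnegative value, left half -/
theorem top_left {n : ℕ} (hn : 4 ≤ n) {L : ℝ} (hL : 2 ≤ L) {γ β : ℝ} (hβ0 : 0 < β)
    (hβ : β ^ n * 2 ^ n = 4) (h1 : β ≤ γ) (h2 : γ ≤ 1)
    (hE : ∀ G, Cl (n - 1) (sig n) 0 L G → |G (n - 1) 0| ≤ γ * sig n)
    {F : ℕ → ℝ → ℝ} (hF : Cl (n - 1) (sig n) 0 L F) {x₀ : ℝ} (hx0 : 0 < x₀) (hx1 : x₀ ≤ L / 2)
    (hM : 0 ≤ F (n - 1) x₀) : F (n - 1) x₀ < γ * sig n := by
  have hnr : (4 : ℝ) ≤ n := by exact_mod_cast hn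
  have hs := sig_pos n
  obtain ⟨hz, hnum1, hnum2⟩ := num_top hn hβ0 hβ h1 h2
  set M : ℝ := F (n - 1) x₀ with hMdef
  by_cases hcase : (2 * x₀) ^ n * γ < x₀
  · -- near the end point
    have h3 := near (k := n - 1) hs.le hx0 (by linarith : x₀ ≤ L) hE hF (κ := -sig n)
      (by rw [abs_neg, abs_of_pos hs])
    rw [tay_top, two_sig n (by omega)] at h3
    have h4 : M + sig n * x₀ ≤ |F (n - 1) x₀ + -sig n * (0 - x₀)| := by
      refine le_trans (le_of_eq ?_) (le_abs_self _)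
      rw [hMdef]; ring
    have h5 : (1 + (2 * x₀) ^ n) * (γ * sig n) = γ * sig n + ((2 * x₀) ^ n * γ) * sig n := by ring
    rw [h5] at h3
    have h6 : ((2 * x₀) ^ n * γ) * sig n < x₀ * sig n := mul_lt_mul_of_pos_right hcase hs
    linarith
  · push Not at hcase
    -- interior
    have key : ∀ α : ℝ, 0 ≤ α → α + 2 ≤ L → α ≤ x₀ → x₀ ≤ α + 2 →
        ((n : ℝ) ^ 2 - 2) / (2 * n ^ 2 * (n + 1)) + (1 - (x₀ - α) - 1 / n) ^ 2
          < (γ - 1 / n) ^ 2 → M < γ * sig n := by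
      intro α hα0 hα1 hα2 hα3 hQ
      set Q : ℝ := ((n : ℝ) ^ 2 - 2) / (2 * n ^ 2 * (n + 1)) + (1 - (x₀ - α) - 1 / n) ^ 2 with hQdef
      have hQ0 : 0 < Q := by
        have : 0 < ((n : ℝ) ^ 2 - 2) / (2 * n ^ 2 * (n + 1)) := by
          apply div_pos
          · nlinarith
          · positivity
        have := sq_nonneg (1 - (x₀ - α) - 1 / (n : ℝ))
        rw [hQdef]; linarith
      set s : ℝ := √Q with hsdef
      have hs0 : 0 < s := Real.sqrt_pos.2 hQ0
      have hsQ : s ^ 2 = Q := Real.sq_sqrt hQ0.le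
      have hsγ : s < γ - 1 / n := by
        apply lt_of_pow_lt_pow_left₀ 2 (by linarith)
        rw [hsQ]; exact hQ
      have hFw : Cl (n - 1) (sig n) α (α + 2) F := hF.mono hα0 hα1
      obtain ⟨ξ, hξ, hle⟩ := chB_bound (by omega : 2 ≤ n) hFw.chain hFw.bd x₀ hs0
      have hlip := hFw.lip x₀ ⟨hα2, hα3⟩ ξ hξ
      have h7 : M - sig n * |ξ - x₀| ≤ F (n - 1) ξ := by
        have := (abs_le.1 hlip).1
        linarith
      have h8 : |ξ - x₀| ≤ ((ξ - x₀) ^ 2 + s ^ 2) / (2 * s) := by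
        rw [le_div_iff₀ (by positivity), ← sq_abs (ξ - x₀)]
        nlinarith [sq_nonneg (|ξ - x₀| - s)]
      have h9 := mul_le_mul_of_nonneg_left h8 hs.le
      rw [← hQdef, ← hsQ] at hle
      have h10 : s ^ 2 / (2 * s) = s / 2 := by field_simp
      rw [h10] at hle
      have h11 : sig n * (1 / ↑n + s / 2 + s / 2) = sig n * (1 / n + s) := by ring
      rw [h11] at hle
      have h12 : sig n * (1 / n + s) < γ * sig n := by
        rw [mul_comm γ]
        exact mul_lt_mul_of_pos_left (by linarith) hs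
      linarith
    rcases le_or_gt x₀ 1 with hle1 | hgt1
    · apply key 0 le_rfl (by linarith) hx0.le (by linarith)
      have := hnum2 x₀ hx0 hle1 hcase
      simpa using this
    · apply key (x₀ - 1) (by linarith) (by linarith) (by linarith) (by linarith)
      have e : 1 - (x₀ - (x₀ - 1)) - 1 / (n : ℝ) = -(1 / n) := by ring
      rw [e, neg_sq]
      exact hnum1

theorem top_left_abs {n : ℕ} (hn : 4 ≤ n) {L : ℝ} (hL : 2 ≤ L) {γ β : ℝ} (hβ0 : 0 < β)
    (hβ : β ^ n * 2 ^ n = 4) (h1 : β ≤ γ) (h2 : γ ≤ 1)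
    (hE : ∀ G, Cl (n - 1) (sig n) 0 L G → |G (n - 1) 0| ≤ γ * sig n)
    {F : ℕ → ℝ → ℝ} (hF : Cl (n - 1) (sig n) 0 L F) {x₀ : ℝ} (hx0 : 0 < x₀) (hx1 : x₀ ≤ L / 2) :
    |F (n - 1) x₀| < γ * sig n := by
  rcases le_total 0 (F (n - 1) x₀) with h | h
  · rw [abs_of_nonneg h]
    exact top_left hn hL hβ0 hβ h1 h2 hE hF hx0 hx1 h
  · rw [abs_of_nonpos h]
    exact top_left hn hL hβ0 hβ h1 h2 hE hF.neg hx0 hx1 (by linarith)

/-- `k = n - 1`, `σ ≥ σ_n` -/
theorem top_big {n : ℕ} (hn : 4 ≤ n) {μ : ℝ} (hμ : 1 ≤ μ) {F : ℕ → ℝ → ℝ}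
    (hF : Cl (n - 1) (μ ^ n * sig n) (-1) 1 F) {x : ℝ} (hx : x ∈ Ioo (-1 : ℝ) 1) (hx0 : x ≤ 0) :
    |F (n - 1) x| < E n (n - 1) (μ ^ n * sig n) := by
  have hμ0 : 0 < μ := by linarith
  have hs := sig_pos n
  have hnr : (4 : ℝ) ≤ n := by exact_mod_cast hn
  set Eb : ℝ := E n (n - 1) (μ ^ n * sig n) with hEb
  set γ : ℝ := Eb / (μ ^ (n - 1) * sig n) with hγ
  have hγE : γ * (μ ^ (n - 1) * sig n) = Eb := div_mul_cancel₀ _ (by positivity)
  -- the number `β`
  set β : ℝ := (4 / 2 ^ n : ℝ) ^ ((n : ℝ)⁻¹) with hβ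
  have hβ0 : 0 < β := Real.rpow_pos_of_pos (by positivity) _
  have hβn : β ^ n = 4 / 2 ^ n := Real.rpow_inv_natCast_pow (by positivity) (by omega)
  have hβn2 : β ^ n * 2 ^ n = 4 := by rw [hβn]; field_simp
  have hβ1 : β ≤ 1 := by
    by_contra hcon
    push Not at hcon
    have h3 : 1 < β ^ n := one_lt_pow₀ hcon (by omega)
    rw [hβn, lt_div_iff₀ (by positivity), one_mul] at h3
    have : (2 : ℝ) ^ 4 ≤ 2 ^ n := pow_le_pow_right₀ (by norm_num) hn
    norm_num at this
    linarith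
  have hpow : μ ^ n = μ ^ (n - 1) * μ := by rw [← pow_succ, show n - 1 + 1 = n by omega]
  have hlow : β ≤ γ := by
    have h3 := E_trunc (n := n) (k := n - 1) (by omega) le_rfl (σ := μ ^ n * sig n) (b := β / μ)
      (by positivity) (by positivity) (by
        rw [div_le_iff₀ hμ0]; linarith) (by
        rw [div_pow, hβn]
        unfold sig
        have : (2 : ℝ) ^ n = 2 ^ (n - 1) * 2 := by rw [← pow_succ, show n - 1 + 1 = n by omega]
        rw [this]
        field_simp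
        norm_num)
    rw [show n - (n - 1) = 1 by omega] at h3
    simp only [pow_one, Nat.factorial_one, Nat.cast_one, div_one] at h3
    rw [hγ, le_div_iff₀ (by positivity)]
    refine le_trans (le_of_eq ?_) h3
    rw [hpow]; field_simp
  have hup : γ ≤ 1 := by
    have h3 := E_le (n := n) (k := n - 1) (by omega) le_rfl hμ (σ := μ ^ n * sig n)
      (by positivity) le_rfl
    rw [dT_pred n (by omega), mul_one] at h3
    rw [hγ, div_le_one (by positivity)]
    exact h3
  have hE : ∀ G, Cl (n - 1) (sig n) 0 (2 * μ) G → |G (n - 1) 0| ≤ γ * sig n := by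
    intro G hG
    have h3 := E_bar (n := n) (k := n - 1) (by omega) le_rfl hμ hs.le hG
    have h4 : μ ^ (n - 1) * |G (n - 1) 0| ≤ μ ^ (n - 1) * (γ * sig n) := by
      refine h3.trans (le_of_eq ?_)
      rw [← hEb, ← hγE]; ring
    exact le_of_mul_le_mul_left h4 (by positivity)
  have hG := hF.affine (c := 1 / μ) (d := -1) (a' := 0) (b' := 2 * μ) (by
    intro x hx
    have h1 : 0 ≤ 1 / μ * x := mul_nonneg (by positivity) hx.1
    have h2 : 1 / μ * x ≤ 2 := by
      rw [div_mul_eq_mul_div, one_mul, div_le_iff₀ hμ0]; exact hx.2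
    constructor <;> linarith)
  have hs' : |1 / μ| ^ (n - 1 + 1) * (μ ^ n * sig n) = sig n := by
    rw [abs_of_pos (by positivity), show n - 1 + 1 = n by omega, one_div, inv_pow]
    field_simp
  rw [hs'] at hG
  have harg : 1 / μ * (μ * (x + 1)) + -1 = x := by field_simp; ring
  have h5 := top_left_abs hn (L := 2 * μ) (by linarith) hβ0 hβn2 hlow hup hE hG
    (x₀ := μ * (x + 1)) (by have := hx.1; exact mul_pos hμ0 (by linarith)) (by nlinarith)
  rw [harg, abs_mul, abs_of_pos (by positivity : 0 < (1 / μ) ^ (n - 1)), one_div, inv_pow,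
    inv_mul_lt_iff₀ (by positivity)] at h5
  refine h5.trans_le (le_of_eq ?_)
  rw [← hγE]; ring

/-- `k = n - 1`, `σ < σ_n`, left half -/
theorem top_small {n : ℕ} (hn : 4 ≤ n) {σ : ℝ} (hσ : 0 < σ) (hlt : σ < sig n) {F : ℕ → ℝ → ℝ}
    (hF : Cl (n - 1) σ (-1) 1 F) {x : ℝ} (hx : x ∈ Ioo (-1 : ℝ) 1) (hx0 : x ≤ 0)
    (hM : 0 ≤ F (n - 1) x) : F (n - 1) x < E n (n - 1) σ := by
  have hs := sig_pos n
  have hnr : (4 : ℝ) ≤ n := by exact_mod_cast hn
  set Eb : ℝ := E n (n - 1) σ with hEb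
  -- lower bound
  have hsig' : sig (n - 1) = sig n / (2 * n) := by
    unfold sig
    obtain ⟨m, rfl⟩ : ∃ m, n = m + 2 := ⟨n - 2, by omega⟩
    simp only [show m + 2 - 1 = m + 1 by omega, show m + 1 - 1 = m by omega]
    rw [Nat.factorial_succ (m + 1)]
    push_cast
    field_simp
    ring
  set t : ℝ := σ / sig n with ht
  have ht0 : 0 < t := by positivity
  have ht1 : t < 1 := by rw [ht, div_lt_one hs]; exact hlt
  have htσ : t * sig n = σ := div_mul_cancel₀ _ hs.ne'
  have hlow : (1 - t) * sig (n - 1) + t * sig n ≤ Eb := by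
    have hcl : Cl (n - 1) σ (-1) 1 (fun i y => (1 - t) * dT (n - 1) i y + t * dT n i y) := by
      refine ⟨?_, ?_, ?_⟩
      · intro i hi y _
        exact (((dT_hasDerivAt (n - 1) i y).const_mul (1 - t)).fun_add
          ((dT_hasDerivAt n i y).const_mul t)).hasDerivWithinAt
      · intro y _ z _
        have e1 : (1 - t) * dT (n - 1) (n - 1) z + t * dT n (n - 1) z
            - ((1 - t) * dT (n - 1) (n - 1) y + t * dT n (n - 1) y) = σ * (z - y) := by
          rw [dT_top (n - 1) (by omega), dT_top (n - 1) (by omega), dT_pred n (by omega),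
            dT_pred n (by omega), ← htσ]
          ring
        rw [e1, abs_mul, abs_of_pos hσ]
      · intro y hy
        have hy' : |y| ≤ 1 := abs_le.2 hy
        have h3 := dT_zero_abs_le (n - 1) hy'
        have h4 := dT_zero_abs_le n hy'
        calc |(1 - t) * dT (n - 1) 0 y + t * dT n 0 y|
            ≤ |(1 - t) * dT (n - 1) 0 y| + |t * dT n 0 y| := abs_add_le _ _
          _ = (1 - t) * |dT (n - 1) 0 y| + t * |dT n 0 y| := by
              rw [abs_mul, abs_mul, abs_of_pos (by linarith : 0 < 1 - t), abs_of_pos ht0]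
          _ ≤ (1 - t) * 1 + t * 1 :=
              add_le_add (mul_le_mul_of_nonneg_left h3 (by linarith))
                (mul_le_mul_of_nonneg_left h4 ht0.le)
          _ = 1 := by ring
    have h3 := le_E_of_right (n := n) (k := n - 1) hσ.le (by omega) le_rfl hcl
    rw [dT_top (n - 1) (by omega), dT_pred n (by omega), mul_one] at h3
    exact (le_abs_self _).trans h3
  have hup : Eb ≤ sig n := by
    have h3 := E_le (n := n) (k := n - 1) (by omega) le_rfl (le_refl (1 : ℝ)) hσ.le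
      (by rw [one_pow, one_mul]; exact hlt.le)
    rw [dT_pred n (by omega), mul_one, one_pow, one_mul] at h3
    exact h3
  have hG := hF.affine (c := 1) (d := -1) (a' := 0) (b' := 2) (by
    intro x hx
    constructor <;> linarith [hx.1, hx.2])
  rw [abs_one, one_pow, one_mul] at hG
  have hE : ∀ G, Cl (n - 1) σ 0 2 G → |G (n - 1) 0| ≤ Eb := by
    intro G hG
    have h3 := E_bar (n := n) (k := n - 1) (by omega) le_rfl (le_refl (1 : ℝ)) hσ.le
      (by simpa using hG)
    rw [one_pow, one_mul, one_pow, one_mul] at h3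
    exact h3
  set x₀ : ℝ := x + 1 with hx₀
  have hx₀0 : 0 < x₀ := by have := hx.1; linarith
  have hx₀1 : x₀ ≤ 1 := by linarith
  set G : ℕ → ℝ → ℝ := fun i y => (1 : ℝ) ^ i * F i (1 * y + -1) with hGdef
  have hGM : G (n - 1) x₀ = F (n - 1) x := by
    simp only [hGdef, one_pow, one_mul]
    congr 1
    rw [hx₀]; ring
  rw [← hGM] at hM ⊢
  set M : ℝ := G (n - 1) x₀ with hMdef
  by_cases hcase : (2 * x₀) ^ n < x₀
  · have h3 := near (k := n - 1) hσ.le hx₀0 (by linarith : x₀ ≤ 2) hE hG (κ := -σ)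
      (by rw [abs_neg, abs_of_pos hσ])
    rw [tay_top] at h3
    have e2 : 2 * σ * (x₀ ^ (n - 1 + 1) / ((n - 1 + 1).factorial : ℝ)) = t * (2 * x₀) ^ n := by
      rw [← two_sig n (by omega), ← htσ]; ring
    rw [e2] at h3
    have h4 : M + σ * x₀ ≤ |G (n - 1) x₀ + -σ * (0 - x₀)| := by
      refine le_trans (le_of_eq ?_) (le_abs_self _)
      rw [hMdef]; ring
    have h5 : (1 + t * (2 * x₀) ^ n) * Eb = Eb + t * (2 * x₀) ^ n * Eb := by ring
    have h6 : t * (2 * x₀) ^ n * Eb ≤ t * (2 * x₀) ^ n * sig n :=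
      mul_le_mul_of_nonneg_left hup (by positivity)
    have h7 : t * (2 * x₀) ^ n * sig n < σ * x₀ := by
      rw [← htσ]
      have : t * sig n * (2 * x₀) ^ n < t * sig n * x₀ :=
        mul_lt_mul_of_pos_left hcase (by positivity)
      linarith
    rw [h5] at h3
    have h8 : |G (n - 1) x₀ + -σ * (0 - x₀)| ≤ Eb + t * (2 * x₀) ^ n * Eb := h3
    linarith
  · push Not at hcase
    -- lower bound for `x₀`
    have hxl : 0.395 ≤ x₀ := by
      by_contra hcon
      push Not at hcon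
      obtain ⟨m, hm⟩ : ∃ m, n = m + 3 + 1 := ⟨n - 4, by omega⟩
      have h3 : (2 * x₀) ^ n < x₀ := by
        have h4 : (2 * x₀) ^ (m + 3) ≤ (0.79 : ℝ) ^ (m + 3) :=
          pow_le_pow_left₀ (by positivity) (by linarith) _
        have h5 : (0.79 : ℝ) ^ (m + 3) ≤ 0.79 ^ 3 :=
          pow_le_pow_of_le_one (by norm_num) (by norm_num) (by omega)
        have h6 : (0.79 : ℝ) ^ 3 < 1 / 2 := by norm_num
        rw [hm, pow_succ]
        nlinarith
      linarith
    set Q : ℝ := 1 / (2 * n) + (1 - x₀) ^ 2 with hQ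
    have hQ0 : 0 < Q := by
      have : (0 : ℝ) < 1 / (2 * n) := by positivity
      have := sq_nonneg (1 - x₀)
      rw [hQ]; linarith
    set s : ℝ := √Q with hsdef
    have hs0 : 0 < s := Real.sqrt_pos.2 hQ0
    have hsQ : s ^ 2 = Q := Real.sq_sqrt hQ0.le
    have hz : (1 : ℝ) / (2 * n) ≤ 1 / 8 := by
      apply one_div_le_one_div_of_le (by norm_num); linarith
    have hz0 : (0 : ℝ) < 1 / (2 * n) := by positivity
    have hs1 : s < 1 - 1 / (2 * n) := by
      apply lt_of_pow_lt_pow_left₀ 2 (by linarith)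
      rw [hsQ, hQ]
      have h3 : (1 - x₀) ^ 2 ≤ 0.605 ^ 2 := by
        apply pow_le_pow_left₀ (by linarith); linarith
      have h4 : (0.605 : ℝ) ^ 2 < 0.37 := by norm_num
      have h5 : (1 - 1 / (2 * (n : ℝ))) ^ 2 = 1 - 2 * (1 / (2 * (n : ℝ))) + (1 / (2 * (n : ℝ))) ^ 2 := by
        ring
      have h6 : 0 ≤ (1 / (2 * (n : ℝ))) ^ 2 := by positivity
      have h7 : (0.37 : ℝ) < 1 - 3 * (1 / 8) := by norm_num
      rw [h5]
      linarith
    have hFw : Cl (n - 1) σ (1 - 1) (1 + 1) G := by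
      norm_num
      exact hG
    obtain ⟨ξ, hξ, hle⟩ := chA_bound (N := n - 1) (by omega) le_rfl one_pos hFw.chain hFw.bd
      (σ / (2 * s)) x₀
    have hlip := hFw.lip x₀ ⟨by linarith, by linarith⟩ ξ hξ
    have h7 : M - σ * |ξ - x₀| ≤ G (n - 1) ξ := by
      have := (abs_le.1 hlip).1
      linarith
    have h8 : σ * |ξ - x₀| ≤ σ / (2 * s) * (ξ - x₀) ^ 2 + σ * s / 2 := by
      have h9 : |ξ - x₀| ≤ ((ξ - x₀) ^ 2 + s ^ 2) / (2 * s) := by
        rw [le_div_iff₀ (by positivity), ← sq_abs (ξ - x₀)]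
        nlinarith [sq_nonneg (|ξ - x₀| - s)]
      have h10 := mul_le_mul_of_nonneg_left h9 hσ.le
      refine h10.trans (le_of_eq ?_)
      field_simp
    have h11 : sig (n - 1) / 1 ^ (n - 1) + σ / (2 * s) * 1 ^ 2 / (2 * (((n - 1 : ℕ) : ℝ) + 1))
        + σ / (2 * s) * (1 - x₀) ^ 2 = sig (n - 1) + σ * s / 2 := by
      have e3 : (((n - 1 : ℕ) : ℝ) + 1) = n := by
        rw [Nat.cast_sub (by omega : 1 ≤ n)]; push_cast; ring
      rw [e3]
      have e4 : σ / (2 * s) * 1 ^ 2 / (2 * (n : ℝ)) + σ / (2 * s) * (1 - x₀) ^ 2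
          = σ / (2 * s) * Q := by rw [hQ]; field_simp
      have e5 : σ / (2 * s) * Q = σ * s / 2 := by rw [← hsQ]; field_simp
      rw [one_pow, div_one, add_assoc, e4, e5]
    rw [h11] at hle
    have h12 : M ≤ sig (n - 1) + σ * s := by linarith
    have h13 : sig (n - 1) + σ * s < (1 - t) * sig (n - 1) + t * sig n := by
      rw [hsig', ← htσ]
      have h14 : t * sig n * s < t * sig n * (1 - 1 / (2 * n)) :=
        mul_lt_mul_of_pos_left hs1 (by positivity)
      have e6 : t * sig n * (1 - 1 / (2 * (n : ℝ))) = t * sig n - t * (sig n / (2 * n)) := by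
        field_simp
      rw [e6] at h14
      linarith
    linarith

/-- The case `k = n - 1`. -/
theorem karlin_top {n : ℕ} (hn : 4 ≤ n) {σ : ℝ} (hσ : 0 < σ) : Karlin n (n - 1) σ := by
  have hnr : (4 : ℝ) ≤ n := by exact_mod_cast hn
  refine karlin_of hσ (by omega) le_rfl (endpoint_bdd (by omega) le_rfl) ?_
  intro f hf x hx _
  have hcl := hf.toCl
  -- a statement for chains in the left half
  have key : ∀ F, Cl (n - 1) σ (-1) 1 F → ∀ x ∈ Ioo (-1 : ℝ) 1, x ≤ 0 →
      |F (n - 1) x| < E n (n - 1) σ := by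
    intro F hF x hx hx0
    rcases le_or_gt (sig n) σ with hge | hlt
    · obtain ⟨μ, hμ, hμσ⟩ := exists_scale (by omega : 1 ≤ n) hge
      rw [hμσ] at hF ⊢
      exact top_big hn hμ hF hx hx0
    · rcases le_total 0 (F (n - 1) x) with h | h
      · rw [abs_of_nonneg h]
        exact top_small hn hσ hlt hF hx hx0 h
      · rw [abs_of_nonpos h]
        exact top_small hn hσ hlt hF.neg hx hx0 (by linarith)
  rcases le_total x 0 with h | h
  · exact key _ hcl x hx h
  · have h3 := key _ hcl.reflect (-x) ⟨by linarith [hx.2], by linarith [hx.1]⟩ (by linarith)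
    rw [abs_mul, abs_pow, abs_neg, abs_one, one_pow, one_mul] at h3
    simpa using h3

end Run7.h734
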