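import Mathlib
import Pool.Agent.Run7.h734.TopMain

/-!
The case `k = n - 2`, all `n ≥ 4`, all `σ > 0`.
-/

open Set MeasureTheory

namespace Run7.h734

theorem quad_lower {m : ℕ} {σ a b : ℝ} (hm : 1 ≤ m) {F : ℕ → ℝ → ℝ} (hF : Cl m σ a b F)
    {x₀ ξ : ℝ} (hx : x₀ ∈ Icc a b) (hξ : ξ ∈ Icc a b) (h0 : F m x₀ = 0) :
    F (m - 1) x₀ - σ / 2 * (ξ - x₀) ^ 2 ≤ F (m - 1) ξ := by
  have hder : ∀ y ∈ Icc a b, HasDerivWithinAt (fun y => F (m - 1) y + σ / 2 * (y - x₀) ^ 2)
      (F m y + σ * (y - x₀)) (Icc a b) y := by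
    intro y hy
    have h1 := hF.chain (m - 1) (by omega) y hy
    rw [show m - 1 + 1 = m by omega] at h1
    have h2 : HasDerivAt (fun y : ℝ => σ / 2 * (y - x₀) ^ 2) (σ * (y - x₀)) y := by
      have h3 : HasDerivAt (fun y : ℝ => y - x₀) 1 y := (hasDerivAt_id y).sub_const x₀
      refine ((h3.fun_pow 2).const_mul (σ / 2)).congr_deriv ?_
      simp; ring
    exact h1.fun_add h2.hasDerivWithinAt
  have hb : ∀ q ∈ Icc a b, |F m q| ≤ σ * |q - x₀| := by
    intro q hq
    have := hF.lip x₀ hx q hq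
    rwa [h0, sub_zero] at this
  rcases lt_trichotomy x₀ ξ with h | h | h
  · obtain ⟨q, hq1, hq2, hq⟩ := mvt hder hx hξ h
    have h3 := (abs_le.1 (hb q ⟨hx.1.trans hq1.le, hq2.le.trans hξ.2⟩)).1
    rw [abs_of_pos (by linarith : 0 < q - x₀)] at h3
    have h4 : 0 ≤ (F m q + σ * (q - x₀)) * (ξ - x₀) := mul_nonneg (by linarith) (by linarith)
    simp only [sub_self, ne_eq, OfNat.ofNat_ne_zero, not_false_eq_true, zero_pow, mul_zero,
      add_zero] at hq
    linarith
  · rw [h]; simp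
  · obtain ⟨q, hq1, hq2, hq⟩ := mvt hder hξ hx h
    have h3 := (abs_le.1 (hb q ⟨hξ.1.trans hq1.le, hq2.le.trans hx.2⟩)).2
    rw [abs_of_neg (by linarith : q - x₀ < 0)] at h3
    have h4 : (F m q + σ * (q - x₀)) * (x₀ - ξ) ≤ 0 :=
      mul_nonpos_of_nonpos_of_nonneg (by linarith) (by linarith)
    simp only [sub_self, ne_eq, OfNat.ofNat_ne_zero, not_false_eq_true, zero_pow, mul_zero,
      add_zero] at hq
    linarith

theorem sig_sub_one {n : ℕ} (hn : 2 ≤ n) : sig (n - 1) = sig n / (2 * n) := by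
  unfold sig
  obtain ⟨m, rfl⟩ : ∃ m, n = m + 2 := ⟨n - 2, by omega⟩
  simp only [show m + 2 - 1 = m + 1 by omega, show m + 1 - 1 = m by omega]
  rw [Nat.factorial_succ (m + 1)]
  push_cast
  field_simp
  ring

theorem sig_sub_two {n : ℕ} (hn : 3 ≤ n) : sig (n - 2) = sig n / (4 * n * ((n : ℝ) - 1)) := by
  have h1 := sig_sub_one (n := n) (by omega)
  have h2 := sig_sub_one (n := n - 1) (by omega)
  rw [show n - 1 - 1 = n - 2 by omega, h1, Nat.cast_sub (by omega : 1 ≤ n)] at h2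
  rw [h2]
  have hnr : (3 : ℝ) ≤ n := by exact_mod_cast hn
  have : (n : ℝ) - 1 ≠ 0 := by linarith
  push_cast
  field_simp
  norm_num

/-- numerical estimate for `k = n - 2` -/
theorem num_sub {n : ℕ} (hn : 4 ≤ n) {β : ℝ} (hβ0 : 0 < β) (hβ : β ^ n * 2 ^ n = 4) {x : ℝ}
    (hx0 : 0 < x) (hx : 1 / 4 < (2 * x) ^ (n - 2)) {y : ℝ} (hy0 : 0 ≤ y)
    (hy : y ≤ max (1 - 1 / (n : ℝ) - x) 0) :
    1 / (4 * n * ((n : ℝ) - 1)) / (1 - 1 / (n : ℝ)) ^ (n - 2)
      + (1 - 1 / (n : ℝ)) ^ 2 / (4 * ((n : ℝ) - 1)) + y ^ 2 / 2 < β ^ 2 / 2 := by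
  have hnr : (4 : ℝ) ≤ n := by exact_mod_cast hn
  have hn1 : (0 : ℝ) < (n : ℝ) - 1 := by linarith
  rcases Nat.lt_or_ge 4 n with h5 | h4
  · -- `n ≥ 5`
    have hnr5 : (5 : ℝ) ≤ n := by exact_mod_cast h5
    set z : ℝ := 1 / n with hz
    have hz0 : 0 < z := by positivity
    have hz1 : z ≤ 1 / 5 := one_div_le_one_div_of_le (by norm_num) hnr5
    have hnz : (n : ℝ) = 1 / z := by rw [hz]; field_simp
    have hW : 1 + 1.386 * z + 0.9604 * z ^ 2 ≤ 2 * β := by
      by_contra hcon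
      push Not at hcon
      have hl2 := Real.log_two_gt_d9
      have hexp : 1 + 1.386 * z + 0.9604 * z ^ 2 ≤ Real.exp (2 * Real.log 2 * z) := by
        have h3 := Real.quadratic_le_exp_of_nonneg (x := 2 * Real.log 2 * z) (by positivity)
        refine le_trans ?_ h3
        have h4 : 1.386 * z ≤ 2 * Real.log 2 * z :=
          mul_le_mul_of_nonneg_right (by norm_num at hl2 ⊢; linarith) hz0.le
        have h5 : (1.386 * z) ^ 2 ≤ (2 * Real.log 2 * z) ^ 2 :=
          pow_le_pow_left₀ (by positivity) h4 2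
        nlinarith
      have h6 : (2 * β) ^ n < (Real.exp (2 * Real.log 2 * z)) ^ n :=
        pow_lt_pow_left₀ (lt_of_lt_of_le hcon hexp) (by positivity) (by omega)
      have h7 : (Real.exp (2 * Real.log 2 * z)) ^ n = 4 := by
        rw [← Real.exp_nat_mul]
        have : (n : ℝ) * (2 * Real.log 2 * z) = Real.log 4 := by
          rw [show (4 : ℝ) = 2 ^ 2 by norm_num, Real.log_pow, hz]
          field_simp
          norm_num
        rw [this, Real.exp_log (by norm_num)]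
      rw [mul_pow, mul_comm, hβ, h7] at h6
      exact lt_irrefl _ h6
    -- lower bound for `x`
    obtain ⟨m, hm⟩ : ∃ m, n = m + 2 := ⟨n - 2, by omega⟩
    have hmr : (m : ℝ) = n - 2 := by rw [hm]; push_cast; ring
    have hm3 : (3 : ℝ) ≤ m := by linarith
    have hm0 : (0 : ℝ) < m := by linarith
    rw [show n - 2 = m by omega] at hx ⊢
    have hl2 := Real.log_two_lt_d9
    have hl20 := Real.log_two_gt_d9
    have hxlow : 1 - 1.3863 / m ≤ 2 * x := by
      have h8 : 1 - 2 * Real.log 2 / m ≤ 2 * x := by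
        by_contra hcon
        push Not at hcon
        have h3 : (2 * x) ^ m < (1 - 2 * Real.log 2 / m) ^ m :=
          pow_lt_pow_left₀ hcon (by positivity) (by omega)
        have h4 : (1 - 2 * Real.log 2 / m) ^ m ≤ Real.exp (-(2 * Real.log 2)) :=
          Real.one_sub_div_pow_le_exp_neg (by norm_num at hl2; linarith)
        have h5 : Real.exp (-(2 * Real.log 2)) = 1 / 4 := by
          rw [Real.exp_neg, show 2 * Real.log 2 = Real.log 4 by
            rw [show (4 : ℝ) = 2 ^ 2 by norm_num, Real.log_pow]; norm_num,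
            Real.exp_log (by norm_num)]
          norm_num
        rw [h5] at h4
        linarith
      have h9 : 2 * Real.log 2 / m ≤ 1.3863 / m :=
        div_le_div_of_nonneg_right (by norm_num at hl2 ⊢; linarith) hm0.le
      linarith
    have ht : (1.3863 : ℝ) / m = 1.3863 * z / (1 - 2 * z) := by
      rw [hmr, hz]
      have : (n : ℝ) - 2 ≠ 0 := by linarith
      field_simp
    rw [ht] at hxlow
    have h12z : 0 < 1 - 2 * z := by linarith
    set R : ℝ := 1 / 2 - z + 1.3863 * z / (1 - 2 * z) / 2 with hR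
    have hTpos : 0 ≤ 1.3863 * z / (1 - 2 * z) := by positivity
    have hyR : y ≤ R := by
      refine hy.trans (max_le ?_ ?_)
      · rw [hR]; linarith
      · rw [hR]; linarith
    have hyR2 : y ^ 2 ≤ R ^ 2 := pow_le_pow_left₀ hy0 hyR 2
    -- the first term
    have hfirst : 1 / (1 - z) ^ m ≤ 2.7183 := by
      have h1z : 0 < 1 - z := by linarith
      have h3 : (1 / (1 - z)) ≤ Real.exp (1 / m) := by
        have h4 : 1 / (1 - z) ≤ 1 + 1 / m := by
          rw [hmr, hnz]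
          rw [div_le_iff₀ h1z]
          have h5 : 1 / z - 2 = (1 - 2 * z) / z := by field_simp
          rw [h5]
          have h6 : (1 + 1 / ((1 - 2 * z) / z)) * (1 - z) = (1 - z) ^ 2 / (1 - 2 * z) := by
            field_simp
            ring
          rw [h6, le_div_iff₀ h12z]
          nlinarith
        have h7 := Real.add_one_le_exp (1 / (m : ℝ))
        linarith
      have h4 : (1 / (1 - z)) ^ m ≤ (Real.exp (1 / m)) ^ m :=
        pow_le_pow_left₀ (by positivity) h3 m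
      rw [← Real.exp_nat_mul, show (m : ℝ) * (1 / m) = 1 by field_simp, one_div, inv_pow] at h4
      rw [one_div]
      have h5 := Real.exp_one_lt_d9
      norm_num at h5 ⊢
      linarith
    have hfirst' : 1 / (4 * n * ((n : ℝ) - 1)) / (1 - z) ^ m
        ≤ 2.7183 / (4 * n * ((n : ℝ) - 1)) := by
      have e : 1 / (4 * n * ((n : ℝ) - 1)) / (1 - z) ^ m
          = (1 / (1 - z) ^ m) / (4 * n * ((n : ℝ) - 1)) := by
        field_simp
      rw [e]
      exact div_le_div_of_nonneg_right hfirst (by positivity)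
    have hβ2 : (1 + 1.386 * z + 0.9604 * z ^ 2) ^ 2 / 4 ≤ β ^ 2 := by
      have := pow_le_pow_left₀ (by positivity) hW 2
      nlinarith
    have hc : 2.7183 / (4 * n * ((n : ℝ) - 1)) = 2.7183 * z ^ 2 / (4 * (1 - z)) := by
      rw [hnz]
      have h1z : 1 - z ≠ 0 := by linarith
      have e : 1 / z - 1 = (1 - z) / z := by field_simp
      rw [e]
      field_simp
    have hc2 : (1 - z) ^ 2 / (4 * ((n : ℝ) - 1)) = z * (1 - z) / 4 := by
      rw [hnz]
      have h1z : 1 - z ≠ 0 := by linarith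
      have e : 1 / z - 1 = (1 - z) / z := by field_simp
      rw [e]
      field_simp
    rw [hc2]
    rw [hc] at hfirst'
    have hmain : 2.7183 * z ^ 2 / (4 * (1 - z)) + z * (1 - z) / 4 + R ^ 2 / 2 <
        (1 + 1.386 * z + 0.9604 * z ^ 2) ^ 2 / 4 / 2 := by
      have h1z : 0 < 1 - z := by linarith
      clear_value R z
      -- clear the denominators
      have e : R = ((1 - 2 * z) ^ 2 + 1.3863 * z) / (2 * (1 - 2 * z)) := by
        rw [hR, eq_div_iff (by positivity)]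
        have e0 : 1.3863 * z / (1 - 2 * z) * (1 - 2 * z) = 1.3863 * z :=
          div_mul_cancel₀ _ h12z.ne'
        linear_combination e0
      have e' : R ^ 2 = ((1 - 2 * z) ^ 2 + 1.3863 * z) ^ 2 / (2 * (1 - 2 * z)) ^ 2 := by
        rw [e, div_pow]
      rw [e']
      have key : 2.7183 * z ^ 2 * (1 - 2 * z) ^ 2 + z * (1 - z) ^ 2 * (1 - 2 * z) ^ 2
          + ((1 - 2 * z) ^ 2 + 1.3863 * z) ^ 2 * (1 - z) / 2 <
          (1 + 1.386 * z + 0.9604 * z ^ 2) ^ 2 * (1 - z) * (1 - 2 * z) ^ 2 / 2 := by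
        have hz5 : 0 ≤ 1 / 5 - z := by linarith
        have m1 := mul_nonneg hz0.le hz5
        have m2 := mul_nonneg m1 hz0.le
        have m3 := mul_nonneg m2 hz0.le
        have m4 := mul_nonneg m3 hz0.le
        have m5 := mul_nonneg m4 hz0.le
        have m6 := mul_nonneg m5 hz0.le
        nlinarith [m1, m2, m3, m4, m5, m6, mul_nonneg m1 hz5, mul_nonneg m2 hz5,
          mul_nonneg m3 hz5, mul_nonneg (mul_nonneg m1 hz5) hz5]
      have e2 : 2.7183 * z ^ 2 / (4 * (1 - z)) + z * (1 - z) / 4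
          + ((1 - 2 * z) ^ 2 + 1.3863 * z) ^ 2 / (2 * (1 - 2 * z)) ^ 2 / 2
          = (2.7183 * z ^ 2 * (1 - 2 * z) ^ 2 + z * (1 - z) ^ 2 * (1 - 2 * z) ^ 2
          + ((1 - 2 * z) ^ 2 + 1.3863 * z) ^ 2 * (1 - z) / 2) / (4 * (1 - z) * (1 - 2 * z) ^ 2) := by
        have hD : (1 - 2 * z) ≠ 0 := h12z.ne'
        have hD' : (1 - z) ≠ 0 := h1z.ne'
        generalize hX : (1 - 2 * z) = X at hD ⊢
        generalize hY : (1 - z) = Y at hD' ⊢
        field_simp
        ring
      rw [e2, div_lt_iff₀ (by positivity)]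
      refine key.trans_le (le_of_eq ?_)
      ring
    linarith
  · -- `n = 4`
    obtain rfl : n = 4 := by omega
    have hβ4 : β ^ 2 = 1 / 2 := by
      have h3 : (β ^ 2 - 1 / 2) * (β ^ 2 + 1 / 2) = 0 := by norm_num at hβ; nlinarith
      rcases mul_eq_zero.1 h3 with h | h
      · linarith
      · have : 0 < β ^ 2 := by positivity
        linarith
    rw [hβ4]
    have hx4 : 1 / 4 ≤ x := by
      norm_num at hx
      by_contra hcon
      push Not at hcon
      nlinarith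
    have hy1 : y ≤ 1 / 2 := by
      refine hy.trans (max_le ?_ (by norm_num))
      push_cast
      linarith
    have hy2 : y ^ 2 ≤ 1 / 4 := by nlinarith
    push_cast
    norm_num
    linarith

/-- interior bound for `k = n - 2`, `σ ≥ σ_n` (normalised), nonnegative value, left half -/
theorem sub_left {n : ℕ} (hn : 4 ≤ n) {L : ℝ} (hL : 2 ≤ L) {γ β : ℝ} (hβ0 : 0 < β)
    (hβ : β ^ n * 2 ^ n = 4) (h1 : β ^ 2 / 2 ≤ γ)
    (h2 : γ ≤ (2 * n - 3) / (4 * ((n : ℝ) - 1)))
    (hE : ∀ G, Cl (n - 1) (sig n) 0 L G → |G (n - 2) 0| ≤ γ * sig n)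
    {F : ℕ → ℝ → ℝ} (hF : Cl (n - 1) (sig n) 0 L F) {x₀ : ℝ} (hx0 : 0 < x₀) (hx1 : x₀ ≤ L / 2)
    (hcr : F (n - 1) x₀ = 0) : F (n - 2) x₀ < γ * sig n := by
  have hnr : (4 : ℝ) ≤ n := by exact_mod_cast hn
  have hs := sig_pos n
  have hn1 : (0 : ℝ) < (n : ℝ) - 1 := by linarith
  set M : ℝ := F (n - 2) x₀ with hMdef
  by_cases hcase : (2 * x₀) ^ (n - 2) ≤ 1 / 4
  · have h3 := near (k := n - 2) hs.le hx0 (by linarith : x₀ ≤ L) hE hF (κ := sig n)
      (by rw [abs_of_pos hs])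
    have e1 := tay_top1 (m := n - 1) (by omega) (fun i => F i x₀) (sig n) x₀ 0
    rw [show n - 1 - 1 = n - 2 by omega, hcr] at e1
    rw [e1, two_sig n (by omega)] at h3
    have h4 : M + sig n * x₀ ^ 2 / 2 ≤
        |F (n - 2) x₀ + 0 * (0 - x₀) + sig n * (0 - x₀) ^ 2 / 2| := by
      refine le_trans (le_of_eq ?_) (le_abs_self _)
      rw [hMdef]; ring
    have h5 : (1 + (2 * x₀) ^ n) * (γ * sig n) = γ * sig n + ((2 * x₀) ^ n * γ) * sig n := by ring
    rw [h5] at h3
    have hpw : (2 * x₀) ^ n = (2 * x₀) ^ (n - 2) * (4 * x₀ ^ 2) := by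
      have : (2 * x₀) ^ n = (2 * x₀) ^ (n - 2) * (2 * x₀) ^ 2 := by
        rw [← pow_add, show n - 2 + 2 = n by omega]
      rw [this]; ring
    have h6 : (2 * x₀) ^ n * γ < x₀ ^ 2 / 2 := by
      rw [hpw]
      have hx2 : 0 < x₀ ^ 2 := by positivity
      have h7 : (2 * x₀) ^ (n - 2) * (4 * x₀ ^ 2) ≤ x₀ ^ 2 := by nlinarith
      have h8 : γ < 1 / 2 := by
        refine lt_of_le_of_lt h2 ?_
        rw [div_lt_div_iff₀ (by positivity) (by norm_num)]
        linarith
      have hγ0 : 0 < γ := lt_of_lt_of_le (by positivity) h1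
      calc (2 * x₀) ^ (n - 2) * (4 * x₀ ^ 2) * γ ≤ x₀ ^ 2 * γ :=
            mul_le_mul_of_nonneg_right h7 hγ0.le
        _ < x₀ ^ 2 * (1 / 2) := mul_lt_mul_of_pos_left h8 hx2
        _ = x₀ ^ 2 / 2 := by ring
    have h9 : ((2 * x₀) ^ n * γ) * sig n < x₀ ^ 2 / 2 * sig n := mul_lt_mul_of_pos_right h6 hs
    have h10 : M + sig n * x₀ ^ 2 / 2 ≤ γ * sig n + ((2 * x₀) ^ n * γ) * sig n := h4.trans h3
    linarith
  · push Not at hcase
    set h : ℝ := 1 - 1 / (n : ℝ) with hh
    have hz1 : 1 / (n : ℝ) ≤ 1 / 4 := one_div_le_one_div_of_le (by norm_num) hnr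
    have hz0 : 0 < 1 / (n : ℝ) := by positivity
    have hh0 : 0 < h := by linarith
    have hh1 : h ≤ 1 := by linarith
    set c : ℝ := max h x₀ with hc
    have hc1 : h ≤ c := le_max_left _ _
    have hc2 : x₀ ≤ c := le_max_right _ _
    have hc3 : c + h ≤ L := by
      rcases max_cases h x₀ with ⟨h', _⟩ | ⟨h', _⟩
      · rw [hc, h']; linarith
      · rw [hc, h']; linarith
    have hcx : c - x₀ ≤ max (h - x₀) 0 := by
      rcases max_cases h x₀ with ⟨h', _⟩ | ⟨h', _⟩
      · rw [hc, h']; exact le_max_left _ _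
      · rw [hc, h', sub_self]; exact le_max_right _ _
    have hcx2 : c - h ≤ x₀ := by
      rcases max_cases h x₀ with ⟨h', _⟩ | ⟨h', _⟩
      · rw [hc, h']; linarith
      · rw [hc, h']; linarith
    have hFw : Cl (n - 1) (sig n) (c - h) (c + h) F := hF.mono (by linarith) hc3
    have hxw : x₀ ∈ Icc (c - h) (c + h) := ⟨hcx2, by linarith⟩
    obtain ⟨ξ, hξ, hle⟩ := chA_bound (N := n - 2) (by omega) (by omega) hh0 hFw.chain hFw.bd
      (sig n / 2) x₀
    have hq := quad_lower (by omega : 1 ≤ n - 1) hFw hxw hξ hcr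
    rw [show n - 1 - 1 = n - 2 by omega] at hq
    have hnum := num_sub hn hβ0 hβ hx0 hcase (y := c - x₀) (by linarith) hcx
    rw [sig_sub_two (by omega)] at hle
    have e3 : (((n - 2 : ℕ) : ℝ) + 1) = n - 1 := by
      rw [Nat.cast_sub (by omega : 2 ≤ n)]; push_cast; ring
    rw [e3] at hle
    have hM2 : M ≤ sig n * (1 / (4 * n * ((n : ℝ) - 1)) / h ^ (n - 2)
        + h ^ 2 / (4 * ((n : ℝ) - 1)) + (c - x₀) ^ 2 / 2) := by
      have e4 : sig n / (4 * n * ((n : ℝ) - 1)) / h ^ (n - 2) + sig n / 2 * h ^ 2 / (2 * (n - 1))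
          + sig n / 2 * (c - x₀) ^ 2 = sig n * (1 / (4 * n * ((n : ℝ) - 1)) / h ^ (n - 2)
        + h ^ 2 / (4 * ((n : ℝ) - 1)) + (c - x₀) ^ 2 / 2) := by
        field_simp
        ring
      rw [← e4]
      linarith
    have h11 := mul_lt_mul_of_pos_left hnum hs
    have h12 := mul_le_mul_of_nonneg_right h1 hs.le
    linarith

/-- `k = n - 2`, `σ ≥ σ_n`, left half -/
theorem sub_big {n : ℕ} (hn : 4 ≤ n) {μ : ℝ} (hμ : 1 ≤ μ) {F : ℕ → ℝ → ℝ}
    (hF : Cl (n - 1) (μ ^ n * sig n) (-1) 1 F) {x : ℝ} (hx : x ∈ Ioo (-1 : ℝ) 1) (hx0 : x ≤ 0)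
    (hcr : F (n - 1) x = 0) :
    F (n - 2) x < E n (n - 2) (μ ^ n * sig n) := by
  have hμ0 : 0 < μ := by linarith
  have hs := sig_pos n
  have hnr : (4 : ℝ) ≤ n := by exact_mod_cast hn
  have hn1 : (0 : ℝ) < (n : ℝ) - 1 := by linarith
  set Eb : ℝ := E n (n - 2) (μ ^ n * sig n) with hEb
  set γ : ℝ := Eb / (μ ^ (n - 2) * sig n) with hγ
  have hγE : γ * (μ ^ (n - 2) * sig n) = Eb := div_mul_cancel₀ _ (by positivity)
  set β : ℝ := (4 / 2 ^ n : ℝ) ^ ((n : ℝ)⁻¹) with hβ
  have hβ0 : 0 < β := Real.rpow_pos_of_pos (by positivity) _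
  have hβn : β ^ n = 4 / 2 ^ n := Real.rpow_inv_natCast_pow (by positivity) (by omega)
  have hβn2 : β ^ n * 2 ^ n = 4 := by rw [hβn]; field_simp
  have hβ1 : β ≤ 1 := by
    by_contra hcon
    push Not at hcon
    have h3 : 1 < β ^ n := one_lt_pow₀ hcon (by omega)
    rw [hβn, lt_div_iff₀ (by positivity), one_mul] at h3
    have : (2 : ℝ) ^ 4 ≤ 2 ^ n := pow_le_pow_right₀ (by norm_num) hn
    norm_num at this
    linarith
  have hpow : μ ^ n = μ ^ (n - 2) * μ ^ 2 := by rw [← pow_add, show n - 2 + 2 = n by omega]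
  have hlow : β ^ 2 / 2 ≤ γ := by
    have h3 := E_trunc (n := n) (k := n - 2) (by omega) (by omega) (σ := μ ^ n * sig n)
      (b := β / μ) (by positivity) (by positivity) (by
        rw [div_le_iff₀ hμ0]; linarith) (by
        rw [div_pow, hβn]
        unfold sig
        have : (2 : ℝ) ^ n = 2 ^ (n - 1) * 2 := by rw [← pow_succ, show n - 1 + 1 = n by omega]
        rw [this]
        field_simp
        norm_num)
    rw [show n - (n - 2) = 2 by omega] at h3
    rw [hγ, le_div_iff₀ (by positivity)]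
    refine le_trans (le_of_eq ?_) h3
    rw [hpow, Nat.factorial_two]; field_simp
    norm_num
  have hup : γ ≤ (2 * n - 3) / (4 * ((n : ℝ) - 1)) := by
    have h3 := E_le (n := n) (k := n - 2) (by omega) (by omega) hμ (σ := μ ^ n * sig n)
      (by positivity) le_rfl
    rw [dT_pred2 n (by omega)] at h3
    rw [hγ, div_le_iff₀ (by positivity)]
    refine h3.trans (le_of_eq ?_)
    field_simp
    ring
  have hE : ∀ G, Cl (n - 1) (sig n) 0 (2 * μ) G → |G (n - 2) 0| ≤ γ * sig n := by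
    intro G hG
    have h3 := E_bar (n := n) (k := n - 2) (by omega) (by omega) hμ hs.le hG
    have h4 : μ ^ (n - 2) * |G (n - 2) 0| ≤ μ ^ (n - 2) * (γ * sig n) := by
      refine h3.trans (le_of_eq ?_)
      rw [← hEb, ← hγE]; ring
    exact le_of_mul_le_mul_left h4 (by positivity)
  have hG := hF.affine (c := 1 / μ) (d := -1) (a' := 0) (b' := 2 * μ) (by
    intro x hx
    have h1 : 0 ≤ 1 / μ * x := mul_nonneg (by positivity) hx.1
    have h2 : 1 / μ * x ≤ 2 := by
      rw [div_mul_eq_mul_div, one_mul, div_le_iff₀ hμ0]; exact hx.2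
    constructor <;> linarith)
  have hs' : |1 / μ| ^ (n - 1 + 1) * (μ ^ n * sig n) = sig n := by
    rw [abs_of_pos (by positivity), show n - 1 + 1 = n by omega, one_div, inv_pow]
    field_simp
  rw [hs'] at hG
  have harg : 1 / μ * (μ * (x + 1)) + -1 = x := by field_simp; ring
  have h5 := sub_left hn (L := 2 * μ) (by linarith) hβ0 hβn2 hlow hup hE hG
    (x₀ := μ * (x + 1)) (by have := hx.1; exact mul_pos hμ0 (by linarith)) (by nlinarith)
    (by rw [harg, hcr, mul_zero])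
  rw [harg, one_div, inv_pow, inv_mul_lt_iff₀ (by positivity)] at h5
  refine h5.trans_le (le_of_eq ?_)
  rw [← hγE]; ring

/-- `k = n - 2`, `σ < σ_n`, left half -/
theorem sub_small {n : ℕ} (hn : 4 ≤ n) {σ : ℝ} (hσ : 0 < σ) (hlt : σ < sig n) {F : ℕ → ℝ → ℝ}
    (hF : Cl (n - 1) σ (-1) 1 F) {x : ℝ} (hx : x ∈ Ioo (-1 : ℝ) 1) (hx0 : x ≤ 0)
    (hcr : F (n - 1) x = 0) : F (n - 2) x < E n (n - 2) σ := by
  have hs := sig_pos n
  have hnr : (4 : ℝ) ≤ n := by exact_mod_cast hn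
  have hn1 : (0 : ℝ) < (n : ℝ) - 1 := by linarith
  set Eb : ℝ := E n (n - 2) σ with hEb
  set t : ℝ := σ / sig n with ht
  have ht0 : 0 < t := by positivity
  have ht1 : t < 1 := by rw [ht, div_lt_one hs]; exact hlt
  have htσ : t * sig n = σ := div_mul_cancel₀ _ hs.ne'
  have he2 : dT n (n - 2) 1 = sig n * ((2 * n - 3) / (4 * ((n : ℝ) - 1))) := by
    rw [dT_pred2 n (by omega)]
    field_simp
    ring
  have hlow : (1 - t) * sig (n - 1) + t * (sig n * ((2 * n - 3) / (4 * ((n : ℝ) - 1)))) ≤ Eb := by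
    have hcl : Cl (n - 1) σ (-1) 1 (fun i y => (1 - t) * dT (n - 1) i y + t * dT n i y) := by
      refine ⟨?_, ?_, ?_⟩
      · intro i hi y _
        exact (((dT_hasDerivAt (n - 1) i y).const_mul (1 - t)).fun_add
          ((dT_hasDerivAt n i y).const_mul t)).hasDerivWithinAt
      · intro y _ z _
        have e1 : (1 - t) * dT (n - 1) (n - 1) z + t * dT n (n - 1) z
            - ((1 - t) * dT (n - 1) (n - 1) y + t * dT n (n - 1) y) = σ * (z - y) := by
          rw [dT_top (n - 1) (by omega), dT_top (n - 1) (by omega), dT_pred n (by omega),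
            dT_pred n (by omega), ← htσ]
          ring
        rw [e1, abs_mul, abs_of_pos hσ]
      · intro y hy
        have hy' : |y| ≤ 1 := abs_le.2 hy
        have h3 := dT_zero_abs_le (n - 1) hy'
        have h4 := dT_zero_abs_le n hy'
        calc |(1 - t) * dT (n - 1) 0 y + t * dT n 0 y|
            ≤ |(1 - t) * dT (n - 1) 0 y| + |t * dT n 0 y| := abs_add_le _ _
          _ = (1 - t) * |dT (n - 1) 0 y| + t * |dT n 0 y| := by
              rw [abs_mul, abs_mul, abs_of_pos (by linarith : 0 < 1 - t), abs_of_pos ht0]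
          _ ≤ (1 - t) * 1 + t * 1 :=
              add_le_add (mul_le_mul_of_nonneg_left h3 (by linarith))
                (mul_le_mul_of_nonneg_left h4 ht0.le)
          _ = 1 := by ring
    have h3 := le_E_of_right (n := n) (k := n - 2) hσ.le (by omega) (by omega) hcl
    have h4 := dT_pred (n - 1) (by omega) 1
    rw [show n - 1 - 1 = n - 2 by omega, mul_one] at h4
    rw [h4, he2] at h3
    exact (le_abs_self _).trans h3
  have hup : Eb ≤ sig n * ((2 * n - 3) / (4 * ((n : ℝ) - 1))) := by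
    have h3 := E_le (n := n) (k := n - 2) (by omega) (by omega) (le_refl (1 : ℝ)) hσ.le
      (by rw [one_pow, one_mul]; exact hlt.le)
    rw [he2, one_pow, one_mul] at h3
    exact h3
  have hG := hF.affine (c := 1) (d := -1) (a' := 0) (b' := 2) (by
    intro x hx
    constructor <;> linarith [hx.1, hx.2])
  rw [abs_one, one_pow, one_mul] at hG
  have hE : ∀ G, Cl (n - 1) σ 0 2 G → |G (n - 2) 0| ≤ Eb := by
    intro G hG
    have h3 := E_bar (n := n) (k := n - 2) (by omega) (by omega) (le_refl (1 : ℝ)) hσ.le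
      (by simpa using hG)
    rw [one_pow, one_mul, one_pow, one_mul] at h3
    exact h3
  set x₀ : ℝ := x + 1 with hx₀
  have hx₀0 : 0 < x₀ := by have := hx.1; linarith
  have hx₀1 : x₀ ≤ 1 := by linarith
  set G : ℕ → ℝ → ℝ := fun i y => (1 : ℝ) ^ i * F i (1 * y + -1) with hGdef
  have hGv : ∀ i, G i x₀ = F i x := by
    intro i
    simp only [hGdef, one_pow, one_mul]
    congr 1
    rw [hx₀]; ring
  rw [← hGv] at hcr ⊢
  set M : ℝ := G (n - 2) x₀ with hMdef
  by_cases hcase : (2 * x₀) ^ (n - 2) ≤ 1 / 4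
  · have h3 := near (k := n - 2) hσ.le hx₀0 (by linarith : x₀ ≤ 2) hE hG (κ := σ)
      (by rw [abs_of_pos hσ])
    have e1 := tay_top1 (m := n - 1) (by omega) (fun i => G i x₀) σ x₀ 0
    rw [show n - 1 - 1 = n - 2 by omega, hcr] at e1
    have e2 : 2 * σ * (x₀ ^ (n - 1 + 1) / ((n - 1 + 1).factorial : ℝ)) = t * (2 * x₀) ^ n := by
      rw [← two_sig n (by omega), ← htσ]; ring
    rw [e1, e2] at h3
    have h4 : M + σ * x₀ ^ 2 / 2 ≤
        |G (n - 2) x₀ + 0 * (0 - x₀) + σ * (0 - x₀) ^ 2 / 2| := by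
      refine le_trans (le_of_eq ?_) (le_abs_self _)
      rw [hMdef]; ring
    have h5 : M + σ * x₀ ^ 2 / 2 ≤ (1 + t * (2 * x₀) ^ n) * Eb := h4.trans h3
    have hpw : (2 * x₀) ^ n = (2 * x₀) ^ (n - 2) * (4 * x₀ ^ 2) := by
      have : (2 * x₀) ^ n = (2 * x₀) ^ (n - 2) * (2 * x₀) ^ 2 := by
        rw [← pow_add, show n - 2 + 2 = n by omega]
      rw [this]; ring
    have hx2 : 0 < x₀ ^ 2 := by positivity
    have h7 : (2 * x₀) ^ n ≤ x₀ ^ 2 := by rw [hpw]; nlinarith
    have h8 : (2 * (n : ℝ) - 3) / (4 * ((n : ℝ) - 1)) < 1 / 2 := by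
      rw [div_lt_div_iff₀ (by positivity) (by norm_num)]
      linarith
    have h8' : 0 < (2 * (n : ℝ) - 3) / (4 * ((n : ℝ) - 1)) := by
      apply div_pos <;> linarith
    have h9 : t * (2 * x₀) ^ n * Eb ≤ t * x₀ ^ 2 * (sig n * ((2 * n - 3) / (4 * ((n : ℝ) - 1)))) := by
      calc t * (2 * x₀) ^ n * Eb
          ≤ t * (2 * x₀) ^ n * (sig n * ((2 * n - 3) / (4 * ((n : ℝ) - 1)))) :=
            mul_le_mul_of_nonneg_left hup (by positivity)
        _ ≤ _ := by
            apply mul_le_mul_of_nonneg_right _ (by positivity)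
            exact mul_le_mul_of_nonneg_left h7 ht0.le
    have h10 : t * x₀ ^ 2 * (sig n * ((2 * n - 3) / (4 * ((n : ℝ) - 1)))) < σ * x₀ ^ 2 / 2 := by
      have : t * x₀ ^ 2 * (sig n * ((2 * n - 3) / (4 * ((n : ℝ) - 1))))
          = (t * sig n) * x₀ ^ 2 * ((2 * n - 3) / (4 * ((n : ℝ) - 1))) := by ring
      rw [this, htσ]
      have := mul_lt_mul_of_pos_left h8 (show 0 < σ * x₀ ^ 2 by positivity)
      linarith
    have h11 : (1 + t * (2 * x₀) ^ n) * Eb = Eb + t * (2 * x₀) ^ n * Eb := by ring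
    rw [h11] at h5
    linarith
  · push Not at hcase
    have hxl : 1 / 4 ≤ x₀ := by
      by_contra hcon
      push Not at hcon
      have h4 : (2 * x₀) ^ (n - 2) ≤ (1 / 2 : ℝ) ^ (n - 2) :=
        pow_le_pow_left₀ (by positivity) (by linarith) _
      have h5 : (1 / 2 : ℝ) ^ (n - 2) ≤ (1 / 2) ^ 2 :=
        pow_le_pow_of_le_one (by norm_num) (by norm_num) (by omega)
      norm_num at h5
      linarith
    have hFw : Cl (n - 1) σ (1 - 1) (1 + 1) G := by
      norm_num
      exact hG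
    have hxw : x₀ ∈ Icc (1 - 1 : ℝ) (1 + 1) := ⟨by linarith, by linarith⟩
    obtain ⟨ξ, hξ, hle⟩ := chA_bound (N := n - 2) (by omega) (by omega) one_pos hFw.chain hFw.bd
      (σ / 2) x₀
    have hq := quad_lower (by omega : 1 ≤ n - 1) hFw hxw hξ hcr
    rw [show n - 1 - 1 = n - 2 by omega] at hq
    rw [sig_sub_two (by omega)] at hle
    have e3 : (((n - 2 : ℕ) : ℝ) + 1) = n - 1 := by
      rw [Nat.cast_sub (by omega : 2 ≤ n)]; push_cast; ring
    rw [e3] at hle
    rw [sig_sub_one (by omega)] at hlow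
    have hsq : (1 - x₀) ^ 2 ≤ 9 / 16 := by nlinarith
    have hM2 : M ≤ sig n / (4 * n * ((n : ℝ) - 1)) + σ / (4 * ((n : ℝ) - 1)) + σ / 2 * (9 / 16) := by
      have e4 : sig n / (4 * n * ((n : ℝ) - 1)) / 1 ^ (n - 2) + σ / 2 * 1 ^ 2 / (2 * (n - 1))
          + σ / 2 * (1 - x₀) ^ 2 = sig n / (4 * n * ((n : ℝ) - 1)) + σ / (4 * ((n : ℝ) - 1))
          + σ / 2 * (1 - x₀) ^ 2 := by
        rw [one_pow, div_one]
        field_simp
        ring
      rw [e4] at hle
      have := mul_le_mul_of_nonneg_left hsq (show 0 ≤ σ / 2 by positivity)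
      linarith
    -- compare
    have hA : sig n / (4 * n * ((n : ℝ) - 1)) < (sig n / (2 * n)) := by
      apply div_lt_div_of_pos_left hs (by positivity)
      nlinarith
    have hB : sig n / (4 * n * ((n : ℝ) - 1)) + sig n / (4 * ((n : ℝ) - 1)) + sig n / 2 * (9 / 16)
        < sig n * ((2 * n - 3) / (4 * ((n : ℝ) - 1))) := by
      have e5 : sig n / (4 * n * ((n : ℝ) - 1)) + sig n / (4 * ((n : ℝ) - 1)) + sig n / 2 * (9 / 16)
          = sig n * ((8 + 8 * n + 9 * n * (n - 1)) / (32 * n * ((n : ℝ) - 1))) := by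
        field_simp
        ring
      rw [e5]
      apply mul_lt_mul_of_pos_left _ hs
      rw [div_lt_div_iff₀ (by positivity) (by positivity)]
      have : 0 < (n : ℝ) * ((n : ℝ) - 1) * (7 * n ^ 2 - 23 * n - 8) := by
        apply mul_pos (by positivity)
        nlinarith
      nlinarith
    have hfin : sig n / (4 * n * ((n : ℝ) - 1)) + σ / (4 * ((n : ℝ) - 1)) + σ / 2 * (9 / 16)
        < (1 - t) * (sig n / (2 * n)) + t * (sig n * ((2 * n - 3) / (4 * ((n : ℝ) - 1)))) := by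
      have e6 : sig n / (4 * n * ((n : ℝ) - 1)) + σ / (4 * ((n : ℝ) - 1)) + σ / 2 * (9 / 16)
          = (1 - t) * (sig n / (4 * n * ((n : ℝ) - 1))) + t * (sig n / (4 * n * ((n : ℝ) - 1))
            + sig n / (4 * ((n : ℝ) - 1)) + sig n / 2 * (9 / 16)) := by
        rw [← htσ]; ring
      rw [e6]
      have := mul_lt_mul_of_pos_left hA (show 0 < 1 - t by linarith)
      have := mul_lt_mul_of_pos_left hB ht0
      linarith
    linarith

/-- The case `k = n - 2`. -/
theorem karlin_sub {n : ℕ} (hn : 4 ≤ n) {σ : ℝ} (hσ : 0 < σ) : Karlin n (n - 2) σ := by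
  have hnr : (4 : ℝ) ≤ n := by exact_mod_cast hn
  refine karlin_of hσ (by omega) (by omega) (endpoint_bdd (by omega) (by omega)) ?_
  intro f hf x hx hmax
  have hcl := hf.toCl
  have hcr : der (n - 1) f x = 0 := by
    have := crit_of_max hcl.chain (k := n - 2) (by omega) hx hmax
    rwa [show n - 2 + 1 = n - 1 by omega] at this
  have key0 : ∀ F, Cl (n - 1) σ (-1) 1 F → ∀ x ∈ Ioo (-1 : ℝ) 1, x ≤ 0 → F (n - 1) x = 0 →
      F (n - 2) x < E n (n - 2) σ := by
    intro F hF x hx hx0 hcr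
    rcases le_or_gt (sig n) σ with hge | hlt
    · obtain ⟨μ, hμ, hμσ⟩ := exists_scale (by omega : 1 ≤ n) hge
      rw [hμσ] at hF ⊢
      exact sub_big hn hμ hF hx hx0 hcr
    · exact sub_small hn hσ hlt hF hx hx0 hcr
  have key : ∀ F, Cl (n - 1) σ (-1) 1 F → ∀ x ∈ Ioo (-1 : ℝ) 1, x ≤ 0 → F (n - 1) x = 0 →
      |F (n - 2) x| < E n (n - 2) σ := by
    intro F hF x hx hx0 hcr
    rw [abs_lt]
    constructor
    · have := key0 _ hF.neg x hx hx0 (by simp only [hcr, neg_zero])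
      linarith
    · exact key0 F hF x hx hx0 hcr
  rcases le_total x 0 with h | h
  · exact key _ hcl x hx h hcr
  · have h3 := key _ hcl.reflect (-x) ⟨by linarith [hx.2], by linarith [hx.1]⟩ (by linarith)
      (by simp [hcr])
    rw [abs_mul, abs_pow, abs_neg, abs_one, one_pow, one_mul] at h3
    simpa using h3

end Run7.h734
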